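import Pool.Agent.LibRC91.GDefs

/-! # Large squares: definitions (second theorem of the library RC91) -/
set_option autoImplicit false
namespace RC91

/-- the primes `p > 3` with `p | m`, `p` not dividing `A`, `p` not dividing `x` -/
def nn (A m x : ℤ) : ℕ :=
  ∏ p ∈ m.natAbs.primeFactors.filter (fun p : ℕ => 3 < p ∧ ¬ ((p : ℤ) ∣ A) ∧ ¬ ((p : ℤ) ∣ x)), p

/-- the threshold `4 + (1 + log M)^2` -/
noncomputable def WW (M : ℕ) : ℕ := 4 + ⌈(1 + Real.log M) ^ 2⌉₊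

/-- number of prime divisors `> W` -/
def wbig (W m : ℕ) : ℕ := (m.primeFactors.filter (fun p => W < p)).card

/-- the sixth power free integers `0 < |k| ≤ K` divisible by some `m^2`, `m ≥ M` -/
def LSF (M K : ℕ) : Set ℤ :=
  {k | k ≠ 0 ∧ |k| ≤ K ∧ (∀ p : ℕ, p.Prime → ¬ ((p : ℤ) ^ 6 ∣ k)) ∧
    ∃ m : ℕ, M ≤ m ∧ (m : ℤ) ^ 2 ∣ k}

/-- residue pairs `(a, u)` modulo `v^2` on the curve `u^2 = 4 a^3`, primitive -/
noncomputable def RP (v : ℕ) : Finset (ℕ × ℕ) :=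
  open Classical in
  ((Finset.range (v ^ 2)) ×ˢ (Finset.range (v ^ 2))).filter
    (fun q => ((v : ℤ) ^ 2 ∣ (q.2 : ℤ) ^ 2 - 4 * (q.1 : ℤ) ^ 3) ∧ Prm (q.2 : ℤ) (v : ℤ) (q.1 : ℤ))

/-- number of `u0` with `(a, u0)` in `RP v` (depends on `a` modulo `v^2` only) -/
noncomputable def rr (v : ℕ) (a : ℤ) : ℕ :=
  ((RP v).filter (fun q => (q.1 : ℤ) = a % ((v : ℤ) ^ 2))).card

/-- bound for the length of the two `u`-intervals -/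
noncomputable def len (T v : ℕ) (a : ℤ) : ℝ :=
  min (2 * (T : ℝ) ^ (1 / 2 : ℝ) * v) (2 * (T : ℝ) ^ (3 / 4 : ℝ) * (v : ℝ) ^ (3 / 2 : ℝ) *
    (((|a| : ℤ)) : ℝ) ^ (-(3 / 4) : ℝ))

/-- the rate `((1 + log (1 + log M)) / (1 + log M))^(1/2)`, decreasing for `M ≥ 1` -/
noncomputable def rate (M : ℕ) : ℝ :=
  Real.sqrt ((1 + Real.log (1 + Real.log M)) / (1 + Real.log M))

/-- the `k` of level `(M1, K)` with a far point: `k = A m^2`, `M1 ≤ m < 2 M1`, a point with `x ≥ K^8` and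
the relation `r` between `nn` and the threshold -/
def Lev (M1 K : ℕ) (big : Prop) : Set ℤ :=
  {k | k ≠ 0 ∧ |k| ≤ K ∧ (∀ p : ℕ, p.Prime → ¬ ((p : ℤ) ^ 6 ∣ k)) ∧
    ∃ A m x y : ℤ, Squarefree A ∧ A ≠ 1 ∧ (M1 : ℤ) ≤ m ∧ m < 2 * M1 ∧ k = A * m ^ 2 ∧
      y ^ 2 - x ^ 3 = k ∧ (K : ℤ) ^ 8 ≤ |x| ∧ (WW M1 ≤ nn A m x ↔ big)}

end RC91
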