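import Pool.Agent.LibLS91.Defs

/-!
# [LS91 LA1b] `RP (p^i)`, `p` odd
PLAN. `N = p^(2i) = (p^i)^2`, `i ≥ 1`. Pairs `(a, u) ∈ RP (p^i)` with `p ∤ a`: then `p ∤ u` (`u^2 ≡ 4 a^3` mod `p`); in `ZMod N`
let `t = u * (2 a)⁻¹` (units): `t^2 = u^2/(4a^2) = a`, `2 t^3 = 2 t a = u`. So `(a, u) ↦ t` is injective into the units of `ZMod N`
(or: into the residues prime to `p`), of which there are `φ(p^(2i)) = p^(2i) - p^(2i-1)` (`Nat.totient_prime_pow`,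
`ZMod.card_units_eq_totient`). Pairs with `p ∣ a` (then `p ∣ v = p^i`): `Prm` gives `¬ p^2 ∣ p^i`, so `i = 1`, and
`p^2 ∣ u`, `u < p^2`, so `u = 0`; `a < p^2`, `p ∣ a`: at most `p` pairs, and `p = p^(2i-1)`. Total `≤ p^(2i)`.
-/
set_option autoImplicit false
namespace RC91

private theorem LA1b_mem {v a u : ℕ} (h : (a, u) ∈ RP v) : a < v ^ 2 ∧ u < v ^ 2 ∧
    ((v : ℤ) ^ 2 ∣ (u : ℤ) ^ 2 - 4 * (a : ℤ) ^ 3) ∧ Prm (u : ℤ) (v : ℤ) (a : ℤ) := by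
  unfold RP at h
  simp only [Finset.mem_filter, Finset.mem_product, Finset.mem_range] at h
  exact ⟨h.1.1, h.1.2, h.2.1, h.2.2⟩

private theorem LA1b_cast {N a b : ℕ} (ha : a < N) (hb : b < N)
    (h : (a : ZMod N) = (b : ZMod N)) : a = b := by
  rw [ZMod.natCast_eq_natCast_iff] at h
  exact Nat.ModEq.eq_of_lt_of_lt h ha hb

private theorem LA1b_par {N a u : ℕ} (hN : (N : ℤ) ∣ (u : ℤ) ^ 2 - 4 * (a : ℤ) ^ 3)
    (hc : Nat.Coprime (2 * a) N) :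
    ((u : ZMod N) * ((2 * a : ℕ) : ZMod N)⁻¹) ^ 2 = (a : ZMod N) ∧
      2 * ((u : ZMod N) * ((2 * a : ℕ) : ZMod N)⁻¹) * (a : ZMod N) = (u : ZMod N) := by
  have h1 : ((2 * a : ℕ) : ZMod N) * ((2 * a : ℕ) : ZMod N)⁻¹ = 1 :=
    ZMod.coe_mul_inv_eq_one _ hc
  have h2 : (u : ZMod N) ^ 2 = 4 * (a : ZMod N) ^ 3 := by
    have h3 := (ZMod.intCast_zmod_eq_zero_iff_dvd _ _).2 hN
    push_cast at h3
    exact sub_eq_zero.1 h3
  set w := ((2 * a : ℕ) : ZMod N)⁻¹ with hw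
  push_cast at h1
  constructor
  · calc ((u : ZMod N) * w) ^ 2 = (u : ZMod N) ^ 2 * w ^ 2 := by ring
      _ = 4 * (a : ZMod N) ^ 3 * w ^ 2 := by rw [h2]
      _ = (a : ZMod N) * (2 * a * w) ^ 2 := by ring
      _ = a := by rw [h1]; ring
  · calc 2 * ((u : ZMod N) * w) * (a : ZMod N) = u * (2 * a * w) := by ring
      _ = u := by rw [h1, mul_one]

theorem LA1b (p i : ℕ) (hp : p.Prime) (hp2 : p ≠ 2) : (RP (p ^ i)).card ≤ (p ^ i) ^ 2 := by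
  classical
  rcases Nat.eq_zero_or_pos i with rfl | hi
  · refine (Finset.card_filter_le _ _).trans ?_
    simp
  have hpos : 0 < (p ^ i) ^ 2 := by
    have := hp.pos
    positivity
  haveI : NeZero ((p ^ i) ^ 2) := ⟨hpos.ne'⟩
  have hpv : p ∣ p ^ i := dvd_pow_self p hi.ne'
  have hpN : p ∣ (p ^ i) ^ 2 := hpv.trans (dvd_pow_self _ (by norm_num))
  -- the pairs with `p ∣ a`
  have hdiv : ∀ a u : ℕ, (a, u) ∈ RP (p ^ i) → p ∣ a → u = 0 := by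
    intro a u h hpa
    obtain ⟨-, h2, -, h4⟩ := LA1b_mem h
    obtain ⟨h5, h6⟩ := h4.1 p hp hp2 (by exact_mod_cast hpa) (by exact_mod_cast hpv)
    have hi1 : i = 1 := by
      by_contra hne
      apply h5
      have : p ^ 2 ∣ p ^ i := pow_dvd_pow p (by omega)
      exact_mod_cast this
    subst hi1
    have h7 : p ^ 2 ∣ u := by exact_mod_cast h6
    rw [pow_one] at h2
    exact Nat.eq_zero_of_dvd_of_lt h7 h2
  have hcop : ∀ a : ℕ, ¬ p ∣ a → Nat.Coprime (2 * a) ((p ^ i) ^ 2) := by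
    intro a ha
    refine Nat.Coprime.pow_right 2 (Nat.Coprime.pow_right i ?_)
    rw [Nat.coprime_comm, hp.coprime_iff_not_dvd, hp.dvd_mul]
    rintro (h | h)
    · exact hp2 ((Nat.prime_dvd_prime_iff_eq hp Nat.prime_two).1 h)
    · exact ha h
  have hkey : (RP (p ^ i)).card ≤ (Finset.univ : Finset (ZMod ((p ^ i) ^ 2))).card := by
    refine Finset.card_le_card_of_injOn (fun q : ℕ × ℕ => if p ∣ q.1 then
      (q.1 : ZMod ((p ^ i) ^ 2)) else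
      (q.2 : ZMod ((p ^ i) ^ 2)) * ((2 * q.1 : ℕ) : ZMod ((p ^ i) ^ 2))⁻¹)
      (fun _ _ => Finset.mem_coe.2 (Finset.mem_univ _)) ?_
    rintro ⟨a, u⟩ hq ⟨a', u'⟩ hq' heq
    rw [Finset.mem_coe] at hq hq'
    obtain ⟨h1, h2, h3, h4⟩ := LA1b_mem hq
    obtain ⟨h1', h2', h3', h4'⟩ := LA1b_mem hq'
    have hN : (((p ^ i) ^ 2 : ℕ) : ℤ) ∣ (u : ℤ) ^ 2 - 4 * (a : ℤ) ^ 3 := by
      rw [Nat.cast_pow]
      exact h3
    have hN' : (((p ^ i) ^ 2 : ℕ) : ℤ) ∣ (u' : ℤ) ^ 2 - 4 * (a' : ℤ) ^ 3 := by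
      rw [Nat.cast_pow]
      exact h3'
    -- a multiple of `p` is not the parameter of a pair of the other kind
    have hmix : ∀ b c w : ℕ, p ∣ b → ¬ p ∣ c →
        (((p ^ i) ^ 2 : ℕ) : ℤ) ∣ (w : ℤ) ^ 2 - 4 * (c : ℤ) ^ 3 →
        (b : ZMod ((p ^ i) ^ 2)) ≠
          (w : ZMod ((p ^ i) ^ 2)) * ((2 * c : ℕ) : ZMod ((p ^ i) ^ 2))⁻¹ := by
      intro b c w hb hc hw he
      have h5 := (LA1b_par hw (hcop c hc)).1
      rw [← he] at h5
      have h6 : ((b ^ 2 : ℕ) : ZMod ((p ^ i) ^ 2)) = (c : ZMod ((p ^ i) ^ 2)) := by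
        rw [Nat.cast_pow]
        exact h5
      rw [ZMod.natCast_eq_natCast_iff] at h6
      have h7 : b ^ 2 ≡ c [MOD p] := h6.of_dvd hpN
      exact hc ((h7.dvd_iff (dvd_refl p)).1 (hb.trans (dvd_pow_self b (by norm_num))))
    dsimp only at heq
    by_cases ha : p ∣ a <;> by_cases ha' : p ∣ a'
    · rw [if_pos ha, if_pos ha'] at heq
      rw [LA1b_cast h1 h1' heq, hdiv a u hq ha, hdiv a' u' hq' ha']
    · rw [if_pos ha, if_neg ha'] at heq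
      exact absurd heq (hmix a a' u' ha ha' hN')
    · rw [if_neg ha, if_pos ha'] at heq
      exact absurd heq.symm (hmix a' a u ha' ha hN)
    · rw [if_neg ha, if_neg ha'] at heq
      have h5 := LA1b_par hN (hcop a ha)
      have h6 := LA1b_par hN' (hcop a' ha')
      have h7 : (a : ZMod ((p ^ i) ^ 2)) = a' := by
        rw [← h5.1, ← h6.1, heq]
      have h8 : (u : ZMod ((p ^ i) ^ 2)) = u' := by
        rw [← h5.2, ← h6.2, heq, h7]
      rw [LA1b_cast h1 h1' h7, LA1b_cast h2 h2' h8]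
  rwa [Finset.card_univ, ZMod.card] at hkey

end RC91
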