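import Pool.Agent.LibLS91.Defs

/-!
# [LS91 LA1c] `RP (2^i)`
PLAN. `v = 2^i`. `i = 0`: `RP 1` has at most one element (all numbers `< 1`). `i ≥ 1`. Pairs with `a` even: `Prm` gives
`¬ 8 ∣ 2^i`, so `i ≤ 2`, `4^i ≤ 16`, at most `(4^i)^2 ≤ 16 * 4^i` pairs. Pairs with `a` odd: `4 ∣ u^2 - 4 a^3`, so `u = 2 u'`,
`u'^2 ≡ a^3` modulo `n = 4^(i-1)`. In `ZMod n` `a` is a unit; `t = u' a⁻¹` satisfies `t^2 = a`, `t^3 = u'`. The map
`(a, u) ↦ (t, a / n, u' / n)` with `t` in `ZMod n` (at most `n` values), `a / n < 4`, `u' / n < 2` (`u' < 2 n`) is injective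
(`a = n (a / n) + (t^2 mod n)`): at most `8 n = 2 * 4^i` pairs. (For `n = 1` everything is trivial: `ZMod 1`; use
`n = 4^(i-1) > 0` and `ZMod.val`, or simply natural number residues `t < n` with `t ≡ u' b` mod `n`, `a b ≡ 1`.)
Total `≤ 18 * 4^i`.
-/
set_option autoImplicit false
namespace RC91

private theorem LA1c_mem {v a u : ℕ} (h : (a, u) ∈ RP v) : a < v ^ 2 ∧ u < v ^ 2 ∧
    ((v : ℤ) ^ 2 ∣ (u : ℤ) ^ 2 - 4 * (a : ℤ) ^ 3) ∧ Prm (u : ℤ) (v : ℤ) (a : ℤ) := by
  unfold RP at h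
  simp only [Finset.mem_filter, Finset.mem_product, Finset.mem_range] at h
  exact ⟨h.1.1, h.1.2, h.2.1, h.2.2⟩

private theorem LA1c_par {n a w : ℕ} (hn : (n : ℤ) ∣ (w : ℤ) ^ 2 - (a : ℤ) ^ 3)
    (hc : Nat.Coprime a n) :
    ((w : ZMod n) * (a : ZMod n)⁻¹) ^ 2 = (a : ZMod n) ∧
      ((w : ZMod n) * (a : ZMod n)⁻¹) * (a : ZMod n) = (w : ZMod n) := by
  have h1 : (a : ZMod n) * (a : ZMod n)⁻¹ = 1 := ZMod.coe_mul_inv_eq_one _ hc
  have h2 : (w : ZMod n) ^ 2 = (a : ZMod n) ^ 3 := by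
    have h3 := (ZMod.intCast_zmod_eq_zero_iff_dvd _ _).2 hn
    push_cast at h3
    exact sub_eq_zero.1 h3
  set z := (a : ZMod n)⁻¹ with hz
  constructor
  · calc ((w : ZMod n) * z) ^ 2 = (w : ZMod n) ^ 2 * z ^ 2 := by ring
      _ = (a : ZMod n) ^ 3 * z ^ 2 := by rw [h2]
      _ = (a : ZMod n) * (a * z) ^ 2 := by ring
      _ = a := by rw [h1]; ring
  · calc (w : ZMod n) * z * (a : ZMod n) = w * (a * z) := by ring
      _ = w := by rw [h1, mul_one]

private theorem LA1c_div {n a b : ℕ} (h : (a : ZMod n) = (b : ZMod n)) (hd : a / n = b / n) :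
    a = b := by
  rw [ZMod.natCast_eq_natCast_iff] at h
  have h1 : a % n = b % n := h
  rw [← Nat.div_add_mod a n, ← Nat.div_add_mod b n, h1, hd]

theorem LA1c (i : ℕ) : (RP (2 ^ i)).card ≤ 18 * (2 ^ i) ^ 2 := by
  classical
  rcases Nat.eq_zero_or_pos i with rfl | hi
  · refine (Finset.card_filter_le _ _).trans ?_
    simp
  obtain ⟨j, rfl⟩ : ∃ j, i = j + 1 := ⟨i - 1, by omega⟩
  set n : ℕ := 4 ^ j with hn
  have hn0 : 0 < n := by positivity
  haveI : NeZero n := ⟨hn0.ne'⟩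
  have hN : (2 ^ (j + 1)) ^ 2 = 4 * n := by
    rw [hn, ← pow_mul, show (4 : ℕ) = 2 ^ 2 by norm_num, ← pow_mul, ← pow_add]
    congr 1
    ring
  -- `a` even
  have h1 : ((RP (2 ^ (j + 1))).filter fun q => 2 ∣ q.1).card ≤ 16 * (2 ^ (j + 1)) ^ 2 := by
    rcases Nat.lt_or_ge j 2 with hj | hj
    · refine (Finset.card_filter_le _ _).trans ((Finset.card_filter_le _ _).trans ?_)
      rw [Finset.card_product, Finset.card_range]
      refine Nat.mul_le_mul_right _ ?_
      have : (2 : ℕ) ^ (j + 1) ≤ 2 ^ 2 := Nat.pow_le_pow_right (by norm_num) (by omega)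
      calc ((2 : ℕ) ^ (j + 1)) ^ 2 ≤ (2 ^ 2) ^ 2 := Nat.pow_le_pow_left this 2
        _ = 16 := by norm_num
    · have h2 : (RP (2 ^ (j + 1))).filter (fun q => 2 ∣ q.1) = ∅ := by
        rw [Finset.filter_eq_empty_iff]
        rintro ⟨a, u⟩ hq h2a
        obtain ⟨-, -, -, h4⟩ := LA1c_mem hq
        apply h4.2 (by exact_mod_cast h2a)
        have : 2 ^ 3 ∣ 2 ^ (j + 1) := pow_dvd_pow 2 (by omega)
        exact_mod_cast this
      rw [h2]
      simp
  -- `a` odd
  have h2 : ((RP (2 ^ (j + 1))).filter fun q => ¬ 2 ∣ q.1).card ≤ 2 * (2 ^ (j + 1)) ^ 2 := by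
    have h3 : ((RP (2 ^ (j + 1))).filter fun q => ¬ 2 ∣ q.1).card ≤
        ((Finset.univ : Finset (ZMod n)) ×ˢ (Finset.range 4 ×ˢ Finset.range 2)).card := by
      refine Finset.card_le_card_of_injOn (fun q : ℕ × ℕ =>
        (((q.2 / 2 : ℕ) : ZMod n) * (q.1 : ZMod n)⁻¹, (q.1 / n, q.2 / 2 / n))) ?_ ?_
      · rintro ⟨a, u⟩ hq
        rw [Finset.mem_coe, Finset.mem_filter] at hq
        obtain ⟨h4, h5, -, -⟩ := LA1c_mem hq.1
        rw [hN] at h4 h5
        rw [Finset.mem_coe, Finset.mem_product, Finset.mem_product, Finset.mem_range,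
          Finset.mem_range]
        refine ⟨Finset.mem_univ _, ?_, ?_⟩
        · exact Nat.div_lt_of_lt_mul (by linarith)
        · refine Nat.div_lt_of_lt_mul ?_
          refine Nat.div_lt_of_lt_mul (by linarith)
      · have hfact : ∀ a u : ℕ, (a, u) ∈ (RP (2 ^ (j + 1))).filter (fun q => ¬ 2 ∣ q.1) →
            u = 2 * (u / 2) ∧ (n : ℤ) ∣ ((u / 2 : ℕ) : ℤ) ^ 2 - (a : ℤ) ^ 3 ∧
              Nat.Coprime a n := by
          intro a u hq
          rw [Finset.mem_filter] at hq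
          obtain ⟨-, -, h6, -⟩ := LA1c_mem hq.1
          have h6' : (4 * n : ℤ) ∣ (u : ℤ) ^ 2 - 4 * (a : ℤ) ^ 3 := by
            have : (((2 ^ (j + 1) : ℕ) : ℤ)) ^ 2 = 4 * n := by exact_mod_cast hN
            rw [← this]
            exact h6
          have h7 : (2 : ℤ) ∣ (u : ℤ) ^ 2 := by
            have h8 : (2 : ℤ) ∣ (u : ℤ) ^ 2 - 4 * (a : ℤ) ^ 3 :=
              (Dvd.intro (2 * (n : ℤ)) (by ring)).trans h6'
            have h9 : (2 : ℤ) ∣ 4 * (a : ℤ) ^ 3 := Dvd.intro (2 * (a : ℤ) ^ 3) (by ring)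
            have := dvd_add h8 h9
            rwa [sub_add_cancel] at this
          have h8 : 2 ∣ u := by
            have := Int.prime_two.dvd_of_dvd_pow h7
            exact_mod_cast this
          have h9 : u = 2 * (u / 2) := (Nat.mul_div_cancel' h8).symm
          refine ⟨h9, ?_, ?_⟩
          · have h10 : (u : ℤ) = 2 * ((u / 2 : ℕ) : ℤ) := by exact_mod_cast h9
            rw [h10] at h6'
            have h11 : (2 * ((u / 2 : ℕ) : ℤ)) ^ 2 - 4 * (a : ℤ) ^ 3 =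
                4 * (((u / 2 : ℕ) : ℤ) ^ 2 - (a : ℤ) ^ 3) := by ring
            rw [h11] at h6'
            exact Int.dvd_of_mul_dvd_mul_left (by norm_num) h6'
          · rw [hn]
            refine Nat.Coprime.pow_right j ?_
            rw [show (4 : ℕ) = 2 ^ 2 by norm_num]
            refine Nat.Coprime.pow_right 2 ?_
            rw [Nat.coprime_comm, Nat.prime_two.coprime_iff_not_dvd]
            exact hq.2
        rintro ⟨a, u⟩ hq ⟨a', u'⟩ hq' heq
        obtain ⟨h4, h5, h6⟩ := hfact a u (Finset.mem_coe.1 hq)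
        obtain ⟨h4', h5', h6'⟩ := hfact a' u' (Finset.mem_coe.1 hq')
        simp only [Prod.mk.injEq] at heq
        obtain ⟨he1, he2, he3⟩ := heq
        have h7 := LA1c_par h5 h6
        have h8 := LA1c_par h5' h6'
        have h9 : (a : ZMod n) = a' := by rw [← h7.1, ← h8.1, he1]
        have h10 : ((u / 2 : ℕ) : ZMod n) = ((u' / 2 : ℕ) : ZMod n) := by
          rw [← h7.2, ← h8.2, he1, h9]
        have h11 := LA1c_div h9 he2
        have h12 := LA1c_div h10 he3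
        rw [h11, h4, h4', h12]
    refine h3.trans ?_
    rw [Finset.card_product, Finset.card_univ, ZMod.card, Finset.card_product,
      Finset.card_range, Finset.card_range, hN]
    linarith
  have h3 := Finset.card_filter_add_card_filter_not (s := RP (2 ^ (j + 1))) (fun q => 2 ∣ q.1)
  omega

end RC91
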