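import Pool.Agent.LibLS91.LA1a
import Pool.Agent.LibLS91.LA1b
import Pool.Agent.LibLS91.LA1c

/-!
# [LS91 LA1] the curve `u^2 = 4 a^3` modulo `v^2` has at most `18 v^2` primitive points
PLAN. `v = 2^j * w`, `w` odd (`Nat.exists_eq_two_pow_mul_odd`). For odd `w > 0`: `(RP w).card ≤ w^2` by
`Nat.recOnPosPrimePosCoprime` (or strong induction: `w = p^i * w'`, `p = w.minFac`, `w'` prime to `p`), with LA1a, LA1b
and `RP 1` (`p^0`). Then LA1a for `2^j`, `w` and LA1c.
-/
set_option autoImplicit false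
namespace RC91

private theorem LA1_odd (w : ℕ) : Odd w → (RP w).card ≤ w ^ 2 := by
  induction w using Nat.recOnPosPrimePosCoprime with
  | prime_pow p n hp hn =>
    intro hodd
    refine LA1b p n hp ?_
    rintro rfl
    have h1 : Even (2 ^ n) := (Nat.even_pow.2 ⟨even_two, by omega⟩)
    exact (Nat.not_even_iff_odd.2 hodd) h1
  | zero =>
    intro hodd
    exact absurd hodd (by decide)
  | one =>
    intro _
    have h := LA1b 3 0 Nat.prime_three (by norm_num)
    simpa using h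
  | coprime a b ha hb hab iha ihb =>
    intro hodd
    rw [Nat.odd_mul] at hodd
    calc (RP (a * b)).card ≤ (RP a).card * (RP b).card := LA1a a b (by omega) (by omega) hab
      _ ≤ a ^ 2 * b ^ 2 := Nat.mul_le_mul (iha hodd.1) (ihb hodd.2)
      _ = (a * b) ^ 2 := by ring

theorem LA1 (v : ℕ) (hv : 0 < v) : (RP v).card ≤ 18 * v ^ 2 := by
  obtain ⟨j, w, hw, rfl⟩ := Nat.exists_eq_two_pow_mul_odd (by omega : v ≠ 0)
  have hw0 : 0 < w := hw.pos
  have hc : Nat.Coprime (2 ^ j) w := (Nat.coprime_two_left.2 hw).pow_left j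
  calc (RP (2 ^ j * w)).card ≤ (RP (2 ^ j)).card * (RP w).card :=
        LA1a (2 ^ j) w (by positivity) hw0 hc
    _ ≤ (18 * (2 ^ j) ^ 2) * w ^ 2 := Nat.mul_le_mul (LA1c j) (LA1_odd w hw)
    _ = 18 * (2 ^ j * w) ^ 2 := by ring

end RC91
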