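import Pool.Agent.LibLS91.Defs

/-!
# [LS91 LA1a] `RP v` is submultiplicative
PLAN. `v = v1 v2`, coprime. The map `(a, u) ↦ ((a % v1^2, u % v1^2), (a % v2^2, u % v2^2))` from `RP v` to `RP v1 ×ˢ RP v2` is
injective: two numbers `< (v1 v2)^2` congruent modulo `v1^2` and `v2^2` (coprime) are equal
(`Nat.modEq_and_modEq_iff_modEq_mul`, `Nat.ModEq.eq_of_lt_of_lt`). It is well defined: `v1^2 ∣ u^2 - 4 a^3` passes to residues;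
`Prm`: for `p ∣ v1`: `p ∣ a % v1^2 ↔ p ∣ a`, `p^2 ∣ u % v1^2 ↔ p^2 ∣ u`, and `¬ p^2 ∣ v → ¬ p^2 ∣ v1`, `¬ 8 ∣ v → ¬ 8 ∣ v1`; if
`v1` is odd the 2-adic clause is trivial (`8 ∣ v1` impossible), if `v1` is even then `2 ∣ a % v1^2 ↔ 2 ∣ a`.
`Finset.card_le_card_of_injOn`, `Finset.card_product`.
-/
set_option autoImplicit false
namespace RC91

theorem LA1a_mem {v w : ℕ} (hv : 0 < v) (hvw : v ∣ w) {q : ℕ × ℕ} (hq : q ∈ RP w) :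
    (q.1 % v ^ 2, q.2 % v ^ 2) ∈ RP v := by
  classical
  unfold RP at hq ⊢
  rw [Finset.mem_filter, Finset.mem_product, Finset.mem_range, Finset.mem_range] at hq ⊢
  obtain ⟨-, h1, h2, h3⟩ := hq
  have hv2 : 0 < v ^ 2 := by positivity
  have hvwz : (v : ℤ) ∣ (w : ℤ) := Int.natCast_dvd_natCast.2 hvw
  have ha : (v : ℤ) ^ 2 ∣ (q.1 : ℤ) - ((q.1 % v ^ 2 : ℕ) : ℤ) := by
    rw [Int.natCast_mod, Nat.cast_pow]
    exact Int.dvd_self_sub_emod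
  have hu : (v : ℤ) ^ 2 ∣ (q.2 : ℤ) - ((q.2 % v ^ 2 : ℕ) : ℤ) := by
    rw [Int.natCast_mod, Nat.cast_pow]
    exact Int.dvd_self_sub_emod
  refine ⟨⟨Nat.mod_lt _ hv2, Nat.mod_lt _ hv2⟩, ?_, ?_, ?_⟩
  · have h4 : (v : ℤ) ^ 2 ∣ (q.2 : ℤ) ^ 2 - 4 * (q.1 : ℤ) ^ 3 := (pow_dvd_pow_of_dvd hvwz 2).trans h1
    obtain ⟨x, hx⟩ := ha
    obtain ⟨y, hy⟩ := hu
    obtain ⟨z, hz⟩ := h4
    show (v : ℤ) ^ 2 ∣ (((q.2 % v ^ 2 : ℕ) : ℤ)) ^ 2 - 4 * (((q.1 % v ^ 2 : ℕ) : ℤ)) ^ 3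
    generalize (((q.2 % v ^ 2 : ℕ) : ℤ)) = u' at *
    generalize (((q.1 % v ^ 2 : ℕ) : ℤ)) = a' at *
    have e1 : u' = (q.2 : ℤ) - (v : ℤ) ^ 2 * y := by linarith
    have e2 : a' = (q.1 : ℤ) - (v : ℤ) ^ 2 * x := by linarith
    refine ⟨z + (-2 * (q.2 : ℤ) * y + (v : ℤ) ^ 2 * y ^ 2) - 4 * (-3 * (q.1 : ℤ) ^ 2 * x +
      3 * (q.1 : ℤ) * (v : ℤ) ^ 2 * x ^ 2 - (v : ℤ) ^ 4 * x ^ 3), ?_⟩
    rw [e1, e2]
    linear_combination hz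
  · intro p hp hp2 hpa hpv
    have hpv2 : (p : ℤ) ∣ (v : ℤ) ^ 2 := hpv.trans (dvd_pow_self _ (by norm_num))
    have hpa' : (p : ℤ) ∣ (q.1 : ℤ) := by
      have := (hpv2.trans ha).add hpa
      simpa using this
    obtain ⟨h4, h5⟩ := h2 p hp hp2 hpa' (hpv.trans hvwz)
    refine ⟨fun h6 => h4 (h6.trans hvwz), ?_⟩
    have h6 : (p : ℤ) ^ 2 ∣ (q.2 : ℤ) - ((q.2 % v ^ 2 : ℕ) : ℤ) :=
      (pow_dvd_pow_of_dvd hpv 2).trans hu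
    exact (dvd_sub_right h5).1 h6
  · intro h4 h5
    have h6 : (2 : ℤ) ∣ (v : ℤ) ^ 2 :=
      ((show (2 : ℤ) ∣ 8 by norm_num).trans h5).trans (dvd_pow_self _ (by norm_num))
    have h7 : (2 : ℤ) ∣ (q.1 : ℤ) := by
      have := (h6.trans ha).add h4
      simpa using this
    exact h3 h7 (h5.trans hvwz)

theorem LA1a (v1 v2 : ℕ) (h1 : 0 < v1) (h2 : 0 < v2) (hc : Nat.Coprime v1 v2) :
    (RP (v1 * v2)).card ≤ (RP v1).card * (RP v2).card := by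
  classical
  rw [← Finset.card_product]
  refine Finset.card_le_card_of_injOn
    (fun q => ((q.1 % v1 ^ 2, q.2 % v1 ^ 2), (q.1 % v2 ^ 2, q.2 % v2 ^ 2))) ?_ ?_
  · intro q hq
    exact Finset.mem_coe.2 (Finset.mem_product.2 ⟨LA1a_mem h1 (Dvd.intro _ rfl) (Finset.mem_coe.1 hq),
      LA1a_mem h2 (Dvd.intro_left _ rfl) (Finset.mem_coe.1 hq)⟩)
  · intro q hq q' hq' h
    have hlt : ∀ q ∈ RP (v1 * v2), q.1 < (v1 * v2) ^ 2 ∧ q.2 < (v1 * v2) ^ 2 := by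
      intro q hq
      unfold RP at hq
      rw [Finset.mem_filter, Finset.mem_product, Finset.mem_range, Finset.mem_range] at hq
      exact hq.1
    obtain ⟨e1, e2⟩ := hlt q (Finset.mem_coe.1 hq)
    obtain ⟨e3, e4⟩ := hlt q' (Finset.mem_coe.1 hq')
    have hc2 : Nat.Coprime (v1 ^ 2) (v2 ^ 2) := hc.pow 2 2
    simp only [Prod.mk.injEq] at h
    obtain ⟨⟨f1, f2⟩, f3, f4⟩ := h
    have key : ∀ a b : ℕ, a < (v1 * v2) ^ 2 → b < (v1 * v2) ^ 2 → a % v1 ^ 2 = b % v1 ^ 2 →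
        a % v2 ^ 2 = b % v2 ^ 2 → a = b := by
      intro a b ha hb g1 g2
      have g3 : a ≡ b [MOD v1 ^ 2 * v2 ^ 2] :=
        (Nat.modEq_and_modEq_iff_modEq_mul hc2).1 ⟨g1, g2⟩
      rw [← mul_pow] at g3
      exact Nat.ModEq.eq_of_lt_of_lt g3 ha hb
    exact Prod.ext (key _ _ e1 e3 f1 f3) (key _ _ e2 e4 f2 f4)

end RC91
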