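import Pool.Agent.LibLS91.LA1

/-!
# [LS91 LA2c] the sum of `rr v a` over a block of `v^2` consecutive integers
PLAN. `N = v^2`. The integers `a` of a block `[j N, (j+1) N)` have distinct residues `a % N`, so
`∑ rr v a ≤ ∑_{r < N} #{q ∈ RP v : q.1 = r} = #RP v ≤ 18 N` (LA1; `Finset.card_eq_sum_card_fiberwise`).
The two given sums are over `{a : j N ≤ |a| < (j+1) N, a ≠ 0}` = positive part and negative part (`a ↦ -a`: the block
`(-(j+1) N, -j N]` also consists of `N` consecutive integers).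
-/
set_option autoImplicit false
namespace RC91

theorem LA2c_blk (v : ℕ) (hv : 0 < v) (s : ℤ) :
    ∑ a ∈ Finset.Ico s (s + (v : ℤ) ^ 2), rr v a ≤ 18 * v ^ 2 := by
  classical
  refine le_trans ?_ (LA1 v hv)
  unfold rr
  rw [← Finset.card_biUnion]
  · refine Finset.card_le_card fun q hq => ?_
    rw [Finset.mem_biUnion] at hq
    obtain ⟨a, _, hq⟩ := hq
    exact (Finset.mem_filter.mp hq).1
  · intro a ha b hb hab
    refine Finset.disjoint_left.mpr ?_
    intro q hqa hqb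
    have h1 := (Finset.mem_filter.mp hqa).2
    have h2 := (Finset.mem_filter.mp hqb).2
    apply hab
    have h3 : b % (v : ℤ) ^ 2 = a % (v : ℤ) ^ 2 := h2.symm.trans h1
    have h4 : (v : ℤ) ^ 2 ∣ a - b := Int.ModEq.dvd h3
    rw [Finset.mem_coe, Finset.mem_Ico] at ha hb
    have h5 : |a - b| < (v : ℤ) ^ 2 := by
      rw [abs_lt]
      constructor <;> linarith [ha.1, ha.2, hb.1, hb.2]
    have h6 := Int.eq_zero_of_abs_lt_dvd h4 h5
    omega

theorem LA2c (v j : ℕ) (hv : 0 < v) (S : Finset ℤ)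
    (hS : ∀ a ∈ S, (j : ℤ) * (v : ℤ) ^ 2 ≤ |a| ∧ |a| < ((j : ℤ) + 1) * (v : ℤ) ^ 2) :
    ∑ a ∈ S, rr v a ≤ 36 * v ^ 2 := by
  classical
  rw [← Finset.sum_filter_add_sum_filter_not S (fun a => 0 ≤ a)]
  have h1 : ∑ a ∈ S.filter (fun a => 0 ≤ a), rr v a ≤ 18 * v ^ 2 := by
    refine le_trans (Finset.sum_le_sum_of_subset ?_) (LA2c_blk v hv ((j : ℤ) * (v : ℤ) ^ 2))
    intro a ha
    rw [Finset.mem_filter] at ha
    obtain ⟨h2, h3⟩ := hS a ha.1
    rw [abs_of_nonneg ha.2] at h2 h3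
    rw [Finset.mem_Ico]
    constructor <;> linarith
  have h2 : ∑ a ∈ S.filter (fun a => ¬ 0 ≤ a), rr v a ≤ 18 * v ^ 2 := by
    refine le_trans (Finset.sum_le_sum_of_subset ?_)
      (LA2c_blk v hv (-(((j : ℤ) + 1) * (v : ℤ) ^ 2) + 1))
    intro a ha
    rw [Finset.mem_filter] at ha
    obtain ⟨h2, h3⟩ := hS a ha.1
    rw [abs_of_neg (not_le.mp ha.2)] at h2 h3
    rw [Finset.mem_Ico]
    constructor <;> linarith
  omega

end RC91
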