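import Pool.Agent.LibLS91.LA2b
import Pool.Agent.LibLS91.LA2c

/-!
# [LS91 LA2] the count for one `v`
PLAN. `N = v^2`, `a` runs over `0 < |a|`, `a^2 ≤ 16 T`, i.e. `|a| ≤ Y = 4 √T` real. The set is the union over `a` of the sets of LA2b:
number `≤ 2 ∑_a rr v a (len T v a / N + 1)`. Group by `j = ⌊|a|/N⌋ ≤ J := Y/N`.
`j = 0`: `∑ rr len/N ≤ 36 N * 2 √T v/N = 72 √T v`. `j ≥ 1`: `len ≤ 2 T^(3/4) v^(3/2) (j N)^(-3/4) = 2 T^(3/4) j^(-3/4)`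
(`N^(-3/4) = v^(-3/2)`), so the block gives `36 N * 2 T^(3/4) j^(-3/4)/N = 72 T^(3/4) j^(-3/4)`; sum over `1 ≤ j ≤ J`:
`≤ 288 T^(3/4) J^(1/4) = 288 T^(3/4) (4 √T)^(1/4) v^(-1/2) ≤ 576 T^(7/8) v^(-1/2)`. The `+1`: `∑ rr ≤ 36 N (J + 1) = 36 (Y + N)
≤ 36 (4 √T + 256 √T) ≤ 10000 √T v` (`v^4 ≤ 65536 T` gives `N ≤ 256 √T`). (`∑_{j ≤ J} j^(-3/4) ≤ 4 J^(1/4)`: induction,
`(j+1)^(-3/4) ≤ 4 ((j+1)^(1/4) - j^(1/4))`.) All together with `C = 30000`.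
-/
set_option autoImplicit false
namespace RC91

private theorem LA2_step (n : ℕ) : ((n : ℝ) + 1) ^ (-(3 / 4) : ℝ) ≤
    4 * (((n : ℝ) + 1) ^ (1 / 4 : ℝ) - (n : ℝ) ^ (1 / 4 : ℝ)) := by
  have hn : (0 : ℝ) ≤ (n : ℝ) := Nat.cast_nonneg _
  have hn1 : (0 : ℝ) < (n : ℝ) + 1 := by linarith
  set y : ℝ := ((n : ℝ) + 1) ^ (1 / 4 : ℝ) with hy
  set x : ℝ := (n : ℝ) ^ (1 / 4 : ℝ) with hx
  have hy0 : 0 < y := Real.rpow_pos_of_pos hn1 _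
  have hx0 : 0 ≤ x := Real.rpow_nonneg hn _
  have hxy : x ≤ y := Real.rpow_le_rpow hn (by linarith) (by norm_num)
  have hy4 : y ^ 4 = (n : ℝ) + 1 := by
    rw [hy, ← Real.rpow_natCast, ← Real.rpow_mul hn1.le]
    norm_num
  have hx4 : x ^ 4 = (n : ℝ) := by
    rw [hx, ← Real.rpow_natCast, ← Real.rpow_mul hn]
    norm_num
  have hy3 : ((n : ℝ) + 1) ^ (-(3 / 4) : ℝ) = 1 / y ^ 3 := by
    rw [Real.rpow_neg hn1.le, one_div, hy, ← Real.rpow_natCast, ← Real.rpow_mul hn1.le]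
    norm_num
  rw [hy3, div_le_iff₀ (by positivity)]
  have h1 : (y - x) * (y ^ 3 + y ^ 2 * x + y * x ^ 2 + x ^ 3) = 1 := by
    have : (y - x) * (y ^ 3 + y ^ 2 * x + y * x ^ 2 + x ^ 3) = y ^ 4 - x ^ 4 := by ring
    rw [this, hy4, hx4]; ring
  have h2 : y ^ 3 + y ^ 2 * x + y * x ^ 2 + x ^ 3 ≤ 4 * y ^ 3 := by
    have a1 : y ^ 2 * x ≤ y ^ 2 * y := mul_le_mul_of_nonneg_left hxy (by positivity)
    have a2 : y * x ^ 2 ≤ y * y ^ 2 :=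
      mul_le_mul_of_nonneg_left (pow_le_pow_left₀ hx0 hxy 2) hy0.le
    have a3 : x ^ 3 ≤ y ^ 3 := pow_le_pow_left₀ hx0 hxy 3
    nlinarith
  have h3 := mul_le_mul_of_nonneg_left h2 (by linarith : 0 ≤ y - x)
  nlinarith

private theorem LA2_harm (n : ℕ) :
    ∑ j ∈ Finset.Icc 1 n, (j : ℝ) ^ (-(3 / 4) : ℝ) ≤ 4 * (n : ℝ) ^ (1 / 4 : ℝ) := by
  induction n with
  | zero =>
      simp only [Finset.Icc_eq_empty_of_lt zero_lt_one, Finset.sum_empty]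
      positivity
  | succ n ih =>
      rw [Finset.sum_Icc_succ_top (by omega)]
      have h := LA2_step n
      push_cast
      linarith

/-- the weight of a block -/
private theorem LA2_len0 (T v : ℕ) (a : ℤ) : len T v a ≤ 2 * (T : ℝ) ^ (1 / 2 : ℝ) * v :=
  min_le_left _ _

private theorem LA2_len1 (T v j : ℕ) (hv : 0 < v) (hj : 1 ≤ j) (a : ℤ)
    (ha : (j : ℤ) * (v : ℤ) ^ 2 ≤ |a|) :
    len T v a ≤ 2 * (T : ℝ) ^ (3 / 4 : ℝ) * (j : ℝ) ^ (-(3 / 4) : ℝ) := by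
  refine (min_le_right _ _).trans ?_
  have hv0 : (0 : ℝ) < (v : ℝ) := by exact_mod_cast hv
  have hj0 : (0 : ℝ) < (j : ℝ) := by exact_mod_cast hj
  have h1 : (j : ℝ) * (v : ℝ) ^ 2 ≤ ((|a| : ℤ) : ℝ) := by exact_mod_cast ha
  have h2 : ((|a| : ℤ) : ℝ) ^ (-(3 / 4) : ℝ) ≤ ((j : ℝ) * (v : ℝ) ^ 2) ^ (-(3 / 4) : ℝ) :=
    Real.rpow_le_rpow_of_nonpos (by positivity) h1 (by norm_num)
  have h3 : ((j : ℝ) * (v : ℝ) ^ 2) ^ (-(3 / 4) : ℝ) =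
      (j : ℝ) ^ (-(3 / 4) : ℝ) * (v : ℝ) ^ (-(3 / 2) : ℝ) := by
    rw [Real.mul_rpow hj0.le (by positivity), ← Real.rpow_natCast (v : ℝ) 2,
      ← Real.rpow_mul hv0.le]
    norm_num
  have h4 : (v : ℝ) ^ (3 / 2 : ℝ) * (v : ℝ) ^ (-(3 / 2) : ℝ) = 1 := by
    rw [← Real.rpow_add hv0]
    norm_num
  calc 2 * (T : ℝ) ^ (3 / 4 : ℝ) * (v : ℝ) ^ (3 / 2 : ℝ) * ((|a| : ℤ) : ℝ) ^ (-(3 / 4) : ℝ)
      ≤ 2 * (T : ℝ) ^ (3 / 4 : ℝ) * (v : ℝ) ^ (3 / 2 : ℝ) *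
        ((j : ℝ) ^ (-(3 / 4) : ℝ) * (v : ℝ) ^ (-(3 / 2) : ℝ)) := by
        rw [← h3]
        exact mul_le_mul_of_nonneg_left h2 (by positivity)
    _ = 2 * (T : ℝ) ^ (3 / 4 : ℝ) * (j : ℝ) ^ (-(3 / 4) : ℝ) *
        ((v : ℝ) ^ (3 / 2 : ℝ) * (v : ℝ) ^ (-(3 / 2) : ℝ)) := by ring
    _ = _ := by rw [h4, mul_one]

theorem LA2 : ∃ C : ℝ, 0 < C ∧ ∀ T v : ℕ, 1 ≤ T → 0 < v → v ^ 4 ≤ 65536 * T →
    {q : ℤ × ℤ | q.2 ≠ 0 ∧ (v : ℤ) ^ 2 ∣ q.1 ^ 2 - 4 * q.2 ^ 3 ∧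
      |q.1 ^ 2 - 4 * q.2 ^ 3| ≤ T * (v : ℤ) ^ 2 ∧ q.2 ^ 2 ≤ 16 * T ∧ Prm q.1 v q.2}.Finite ∧
    ({q : ℤ × ℤ | q.2 ≠ 0 ∧ (v : ℤ) ^ 2 ∣ q.1 ^ 2 - 4 * q.2 ^ 3 ∧
      |q.1 ^ 2 - 4 * q.2 ^ 3| ≤ T * (v : ℤ) ^ 2 ∧ q.2 ^ 2 ≤ 16 * T ∧ Prm q.1 v q.2}.ncard : ℝ) ≤
      C * ((T : ℝ) ^ (7 / 8 : ℝ) * (v : ℝ) ^ (-(1 / 2) : ℝ) + (T : ℝ) ^ (1 / 2 : ℝ) * v) := by
  classical
  refine ⟨30000, by norm_num, fun T v hT hv hv4 => ?_⟩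
  have hv0 : (0 : ℝ) < (v : ℝ) := by exact_mod_cast hv
  have hv1 : (1 : ℝ) ≤ (v : ℝ) := by exact_mod_cast hv
  have hT1 : (1 : ℝ) ≤ (T : ℝ) := by exact_mod_cast hT
  have hT0 : (0 : ℝ) < (T : ℝ) := by linarith
  have hN0 : 0 < v ^ 2 := by positivity
  set s : ℝ := (T : ℝ) ^ (1 / 2 : ℝ) with hs
  have hs0 : 0 < s := Real.rpow_pos_of_pos hT0 _
  have hs1 : 1 ≤ s := Real.one_le_rpow hT1 (by norm_num)
  have hss : s ^ 2 = T := by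
    rw [hs, ← Real.rpow_natCast, ← Real.rpow_mul hT0.le]
    norm_num
  let F : ℤ → Set ℤ := fun a => {u : ℤ | (v : ℤ) ^ 2 ∣ u ^ 2 - 4 * a ^ 3 ∧
    |u ^ 2 - 4 * a ^ 3| ≤ T * (v : ℤ) ^ 2 ∧ Prm u v a}
  let SA : Finset ℤ := (Finset.Icc (-(4 * (T : ℤ))) (4 * (T : ℤ))).filter
    (fun a => a ≠ 0 ∧ a ^ 2 ≤ 16 * T)
  have hSA : ∀ a ∈ SA, a ≠ 0 ∧ a ^ 2 ≤ 16 * T := fun a ha => (Finset.mem_filter.1 ha).2
  set Q : Set (ℤ × ℤ) := {q : ℤ × ℤ | q.2 ≠ 0 ∧ (v : ℤ) ^ 2 ∣ q.1 ^ 2 - 4 * q.2 ^ 3 ∧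
      |q.1 ^ 2 - 4 * q.2 ^ 3| ≤ T * (v : ℤ) ^ 2 ∧ q.2 ^ 2 ≤ 16 * T ∧ Prm q.1 v q.2} with hQ
  have hsub : Q ⊆ ⋃ a ∈ SA, (fun u : ℤ => (u, a)) '' F a := by
    rintro ⟨u, a⟩ ⟨h1, h2, h3, h4, h5⟩
    simp only at h1 h2 h3 h4 h5
    refine Set.mem_iUnion₂.2 ⟨a, ?_, u, ⟨h2, h3, h5⟩, rfl⟩
    refine Finset.mem_filter.2 ⟨Finset.mem_Icc.2 (abs_le.1 ?_), h1, h4⟩
    have hTz : (1 : ℤ) ≤ T := by exact_mod_cast hT
    apply abs_le_of_sq_le_sq _ (by positivity)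
    nlinarith
  have hF : ∀ a ∈ SA, (F a).Finite ∧ ((F a).ncard : ℝ) ≤
      rr v a * (2 * (len T v a / (v : ℝ) ^ 2 + 1)) := fun a ha =>
    LA2b T v hT hv a (hSA a ha).1
  have hUf : (⋃ a ∈ SA, (fun u : ℤ => (u, a)) '' F a).Finite :=
    SA.finite_toSet.biUnion fun a ha => (hF a ha).1.image _
  have hQf : Q.Finite := hUf.subset hsub
  refine ⟨hQf, ?_⟩
  have hcard : (Q.ncard : ℝ) ≤ ∑ a ∈ SA, rr v a * (2 * (len T v a / (v : ℝ) ^ 2 + 1)) := by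
    have a1 : Q.ncard ≤ ∑ a ∈ SA, ((fun u : ℤ => (u, a)) '' F a).ncard :=
      (Set.ncard_le_ncard hsub hUf).trans (Finset.set_ncard_biUnion_le SA _)
    have a2 : (Q.ncard : ℝ) ≤ ∑ a ∈ SA, ((((fun u : ℤ => (u, a)) '' F a).ncard : ℕ) : ℝ) := by
      exact_mod_cast a1
    refine a2.trans (Finset.sum_le_sum fun a ha => ?_)
    refine le_trans ?_ (hF a ha).2
    exact_mod_cast Set.ncard_image_le (hF a ha).1
  -- blocks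
  set J : ℕ := Nat.sqrt (16 * T) / v ^ 2 with hJ
  let bl : ℤ → ℕ := fun a => a.natAbs / v ^ 2
  have hbl : ∀ a ∈ SA, bl a ∈ Finset.range (J + 1) := by
    intro a ha
    rw [Finset.mem_range, Nat.lt_succ_iff]
    apply Nat.div_le_div_right
    rw [Nat.le_sqrt']
    have h1 := (hSA a ha).2
    have h2 : ((a.natAbs : ℤ)) ^ 2 ≤ 16 * T := by rw [Int.natAbs_sq]; exact h1
    exact_mod_cast h2
  have hblk : ∀ j : ℕ, ∑ a ∈ SA.filter (fun a => bl a = j), (rr v a : ℝ) ≤ 36 * (v : ℝ) ^ 2 := by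
    intro j
    have h := LA2c v j hv (SA.filter (fun a => bl a = j)) (by
      intro a ha
      have hj : a.natAbs / v ^ 2 = j := (Finset.mem_filter.1 ha).2
      have h1 : j * v ^ 2 ≤ a.natAbs := by rw [← hj]; exact Nat.div_mul_le_self _ _
      have h2 : a.natAbs < (j + 1) * v ^ 2 := by
        rw [← hj]
        exact (Nat.div_lt_iff_lt_mul hN0).1 (Nat.lt_succ_self _)
      rw [Int.abs_eq_natAbs]
      exact ⟨by exact_mod_cast h1, by exact_mod_cast h2⟩)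
    exact_mod_cast h
  let b : ℕ → ℝ := fun j => if j = 0 then 2 * (2 * s * v / (v : ℝ) ^ 2 + 1)
    else 2 * (2 * (T : ℝ) ^ (3 / 4 : ℝ) * (j : ℝ) ^ (-(3 / 4) : ℝ) / (v : ℝ) ^ 2 + 1)
  have hb0 : ∀ j, 0 ≤ b j := by
    intro j
    by_cases hj : j = 0
    · simp only [b, if_pos hj]; positivity
    · simp only [b, if_neg hj]; positivity
  have hw : ∀ a ∈ SA, 2 * (len T v a / (v : ℝ) ^ 2 + 1) ≤ b (bl a) := by
    intro a ha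
    by_cases hj : bl a = 0
    · simp only [b, if_pos hj]
      have := div_le_div_of_nonneg_right (LA2_len0 T v a) (by positivity : (0 : ℝ) ≤ (v : ℝ) ^ 2)
      linarith
    · simp only [b, if_neg hj]
      have h1 : bl a * v ^ 2 ≤ a.natAbs := Nat.div_mul_le_self _ _
      have h2 : ((bl a : ℕ) : ℤ) * (v : ℤ) ^ 2 ≤ |a| := by
        rw [Int.abs_eq_natAbs]; exact_mod_cast h1
      have h3 := LA2_len1 T v (bl a) hv (Nat.one_le_iff_ne_zero.2 hj) a h2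
      have := div_le_div_of_nonneg_right h3 (by positivity : (0 : ℝ) ≤ (v : ℝ) ^ 2)
      linarith
  have hsum1 : ∑ a ∈ SA, rr v a * (2 * (len T v a / (v : ℝ) ^ 2 + 1)) ≤
      ∑ j ∈ Finset.range (J + 1), b j * (36 * (v : ℝ) ^ 2) := by
    calc ∑ a ∈ SA, rr v a * (2 * (len T v a / (v : ℝ) ^ 2 + 1))
        ≤ ∑ a ∈ SA, rr v a * b (bl a) :=
          Finset.sum_le_sum fun a ha => mul_le_mul_of_nonneg_left (hw a ha) (Nat.cast_nonneg _)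
      _ = ∑ j ∈ Finset.range (J + 1), ∑ a ∈ SA.filter (fun a => bl a = j), rr v a * b (bl a) :=
          (Finset.sum_fiberwise_of_maps_to hbl _).symm
      _ ≤ ∑ j ∈ Finset.range (J + 1), b j * (36 * (v : ℝ) ^ 2) := by
          refine Finset.sum_le_sum fun j _ => ?_
          have e : ∑ a ∈ SA.filter (fun a => bl a = j), (rr v a : ℝ) * b (bl a) =
              b j * ∑ a ∈ SA.filter (fun a => bl a = j), (rr v a : ℝ) := by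
            rw [Finset.mul_sum]
            refine Finset.sum_congr rfl fun a ha => ?_
            rw [(Finset.mem_filter.1 ha).2, mul_comm]
          rw [e]
          exact mul_le_mul_of_nonneg_left (hblk j) (hb0 j)
  have hJs : (J : ℝ) * (v : ℝ) ^ 2 ≤ 4 * s := by
    have h1 : J * v ^ 2 ≤ Nat.sqrt (16 * T) := Nat.div_mul_le_self _ _
    have h2 : ((J * v ^ 2 : ℕ) : ℝ) ≤ ((Nat.sqrt (16 * T) : ℕ) : ℝ) := by exact_mod_cast h1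
    have h3 : ((Nat.sqrt (16 * T) : ℕ) : ℝ) ≤ 4 * s := by
      apply (pow_le_pow_iff_left₀ (by positivity) (by positivity) two_ne_zero).1
      have h4 : Nat.sqrt (16 * T) ^ 2 ≤ 16 * T := Nat.sqrt_le' _
      have h5 : ((Nat.sqrt (16 * T) : ℕ) : ℝ) ^ 2 ≤ 16 * T := by exact_mod_cast h4
      rw [mul_pow, hss]
      linarith
    push_cast at h2
    linarith
  have hv256 : (v : ℝ) ^ 2 ≤ 256 * s := by
    apply (pow_le_pow_iff_left₀ (by positivity) (by positivity) two_ne_zero).1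
    have h5 : (v : ℝ) ^ 4 ≤ 65536 * T := by exact_mod_cast hv4
    rw [mul_pow, hss]
    nlinarith
  have hJ4 : (T : ℝ) ^ (3 / 4 : ℝ) * (J : ℝ) ^ (1 / 4 : ℝ) ≤
      2 * ((T : ℝ) ^ (7 / 8 : ℝ) * (v : ℝ) ^ (-(1 / 2) : ℝ)) := by
    have h1 : (J : ℝ) ≤ 4 * s * ((v : ℝ) ^ 2)⁻¹ := by
      rw [← div_eq_mul_inv, le_div_iff₀ (by positivity)]
      exact hJs
    have h2 : (J : ℝ) ^ (1 / 4 : ℝ) ≤ (4 * s * ((v : ℝ) ^ 2)⁻¹) ^ (1 / 4 : ℝ) :=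
      Real.rpow_le_rpow (Nat.cast_nonneg _) h1 (by norm_num)
    have h3 : (4 * s * ((v : ℝ) ^ 2)⁻¹) ^ (1 / 4 : ℝ) =
        (4 : ℝ) ^ (1 / 4 : ℝ) * (T : ℝ) ^ (1 / 8 : ℝ) * (v : ℝ) ^ (-(1 / 2) : ℝ) := by
      rw [Real.mul_rpow (by positivity) (by positivity), Real.mul_rpow (by norm_num) hs0.le, hs,
        ← Real.rpow_mul hT0.le, Real.inv_rpow (by positivity), ← Real.rpow_natCast (v : ℝ) 2,
        ← Real.rpow_mul hv0.le, ← Real.rpow_neg hv0.le]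
      norm_num
    have h4 : (4 : ℝ) ^ (1 / 4 : ℝ) ≤ 2 := by
      have e : (4 : ℝ) ^ (1 / 4 : ℝ) ≤ (4 : ℝ) ^ (1 / 2 : ℝ) :=
        Real.rpow_le_rpow_of_exponent_le (by norm_num) (by norm_num)
      have e2 : (4 : ℝ) ^ (1 / 2 : ℝ) = 2 := by
        rw [← Real.sqrt_eq_rpow, show (4 : ℝ) = 2 ^ 2 by norm_num, Real.sqrt_sq (by norm_num)]
      linarith
    have h5 : (T : ℝ) ^ (3 / 4 : ℝ) * (T : ℝ) ^ (1 / 8 : ℝ) = (T : ℝ) ^ (7 / 8 : ℝ) := by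
      rw [← Real.rpow_add hT0]; norm_num
    calc (T : ℝ) ^ (3 / 4 : ℝ) * (J : ℝ) ^ (1 / 4 : ℝ)
        ≤ (T : ℝ) ^ (3 / 4 : ℝ) *
          ((4 : ℝ) ^ (1 / 4 : ℝ) * (T : ℝ) ^ (1 / 8 : ℝ) * (v : ℝ) ^ (-(1 / 2) : ℝ)) := by
          rw [← h3]
          exact mul_le_mul_of_nonneg_left h2 (by positivity)
      _ = (4 : ℝ) ^ (1 / 4 : ℝ) *
          (((T : ℝ) ^ (3 / 4 : ℝ) * (T : ℝ) ^ (1 / 8 : ℝ)) * (v : ℝ) ^ (-(1 / 2) : ℝ)) := by ring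
      _ ≤ 2 * (((T : ℝ) ^ (3 / 4 : ℝ) * (T : ℝ) ^ (1 / 8 : ℝ)) * (v : ℝ) ^ (-(1 / 2) : ℝ)) :=
          mul_le_mul_of_nonneg_right h4 (by positivity)
      _ = _ := by rw [h5]
  have hsum2 : ∑ j ∈ Finset.range (J + 1), b j * (36 * (v : ℝ) ^ 2) ≤
      144 * s * v + 72 * (v : ℝ) ^ 2 +
        (144 * (T : ℝ) ^ (3 / 4 : ℝ) * (4 * (J : ℝ) ^ (1 / 4 : ℝ)) + 72 * ((J : ℝ) * (v : ℝ) ^ 2)) := by
    rw [Finset.sum_range_succ', add_comm]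
    apply add_le_add
    · simp only [b, if_true]
      have : 2 * (2 * s * v / (v : ℝ) ^ 2 + 1) * (36 * (v : ℝ) ^ 2) =
          144 * s * v + 72 * (v : ℝ) ^ 2 := by
        field_simp
        ring
      rw [this]
    · have e1 : ∀ j : ℕ, b (j + 1) * (36 * (v : ℝ) ^ 2) =
          144 * (T : ℝ) ^ (3 / 4 : ℝ) * (((j + 1 : ℕ) : ℝ)) ^ (-(3 / 4) : ℝ) +
            72 * (v : ℝ) ^ 2 := by
        intro j
        simp only [b, if_neg (Nat.succ_ne_zero j)]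
        field_simp
        ring
      rw [Finset.sum_congr rfl fun j _ => e1 j, Finset.sum_add_distrib, ← Finset.mul_sum,
        Finset.sum_const, Finset.card_range, nsmul_eq_mul]
      have e2 : ∑ j ∈ Finset.range J, (((j + 1 : ℕ) : ℝ)) ^ (-(3 / 4) : ℝ) =
          ∑ j ∈ Finset.Icc 1 J, (j : ℝ) ^ (-(3 / 4) : ℝ) := by
        rw [Finset.range_eq_Ico, Finset.sum_Ico_add' (fun j : ℕ => (j : ℝ) ^ (-(3 / 4) : ℝ)) 0 J 1]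
        apply Finset.sum_congr _ fun _ _ => rfl
        ext i
        rw [Finset.mem_Ico, Finset.mem_Icc]
        omega
      rw [e2]
      have h := mul_le_mul_of_nonneg_left (LA2_harm J)
        (by positivity : (0 : ℝ) ≤ 144 * (T : ℝ) ^ (3 / 4 : ℝ))
      have e3 : (J : ℝ) * (72 * (v : ℝ) ^ 2) = 72 * ((J : ℝ) * (v : ℝ) ^ 2) := by ring
      rw [e3]
      linarith
  have hsv : s ≤ s * v := le_mul_of_one_le_right hs0.le hv1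
  have hpos : 0 ≤ (T : ℝ) ^ (7 / 8 : ℝ) * (v : ℝ) ^ (-(1 / 2) : ℝ) := by positivity
  calc (Q.ncard : ℝ) ≤ _ := hcard
    _ ≤ _ := hsum1
    _ ≤ _ := hsum2
    _ ≤ 30000 * ((T : ℝ) ^ (7 / 8 : ℝ) * (v : ℝ) ^ (-(1 / 2) : ℝ) + s * v) := by
        nlinarith

end RC91
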