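import Pool.Agent.LibLS91.Defs

/-!
# [LS91 LA2a] the intervals for `u`
PLAN. `P = max 0 (4a^3 - T v^2)`, `Q = 4a^3 + T v^2`. If `Q < 0` there is no `u` (`u^2 ≥ 0`): `X = Y = 0`. Otherwise `X = √P`,
`Y = √Q` (`P ≤ Q`). `√Q - √P ≤ √(Q - P) ≤ √(2 T v^2) ≤ 2 T^(1/2) v`. If `a > 0`: also
`√Q - √P = (Q - P)/(√Q + √P) ≤ 2 T v^2/√(4 a^3) = T v^2 a^(-3/2)`; `min (α, β) ≤ α^(1/2) β^(1/2)`: with `α = √2 T^(1/2) v`,
`β = T v^2 a^(-3/2)`: `≤ 2^(1/4) T^(3/4) v^(3/2) a^(-3/4)`. If `a < 0`: `P = 0`, `Q = T v^2 - 4|a|^3 ≥ 0`, so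
`s := T^(1/2) v ≥ |a|^(3/2)` and `√Q ≤ s = s^(3/2) s^(-1/2) ≤ T^(3/4) v^(3/2) |a|^(-3/4)`.
(Tip: write everything with `α = √T`, `v`, `b = |a|^(3/4)` real numbers, `T^(3/4) = α^(3/2)`; or compare 4th powers:
`(√Q - √P)^4 ≤ 16 T^3 v^6 / |a|^3`.)
-/
set_option autoImplicit false
namespace RC91

private theorem LA2a_pow (T v : ℝ) (hT : 0 ≤ T) (hv : 0 ≤ v) (b : ℝ) (hb : 0 < b) :
    (2 * T ^ (3 / 4 : ℝ) * v ^ (3 / 2 : ℝ) * b ^ (-(3 / 4) : ℝ)) ^ 4 * b ^ 3 =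
      16 * T ^ 3 * v ^ 6 := by
  have h1 : (T ^ (3 / 4 : ℝ)) ^ 4 = T ^ 3 := by
    rw [← Real.rpow_natCast (T ^ (3 / 4 : ℝ)) 4, ← Real.rpow_mul hT, ← Real.rpow_natCast T 3]
    norm_num
  have h2 : (v ^ (3 / 2 : ℝ)) ^ 4 = v ^ 6 := by
    rw [← Real.rpow_natCast (v ^ (3 / 2 : ℝ)) 4, ← Real.rpow_mul hv, ← Real.rpow_natCast v 6]
    norm_num
  have h3 : (b ^ (-(3 / 4) : ℝ)) ^ 4 * b ^ 3 = 1 := by
    rw [← Real.rpow_natCast (b ^ (-(3 / 4) : ℝ)) 4, ← Real.rpow_mul hb.le,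
      ← Real.rpow_natCast b 3, ← Real.rpow_add hb]
    norm_num
  calc (2 * T ^ (3 / 4 : ℝ) * v ^ (3 / 2 : ℝ) * b ^ (-(3 / 4) : ℝ)) ^ 4 * b ^ 3
      = 16 * (T ^ (3 / 4 : ℝ)) ^ 4 * (v ^ (3 / 2 : ℝ)) ^ 4 *
          ((b ^ (-(3 / 4) : ℝ)) ^ 4 * b ^ 3) := by ring
    _ = 16 * T ^ 3 * v ^ 6 := by rw [h1, h2, h3, mul_one]

private theorem LA2a_half (T : ℝ) (hT : 0 ≤ T) : (T ^ (1 / 2 : ℝ)) ^ 2 = T := by
  rw [← Real.rpow_natCast (T ^ (1 / 2 : ℝ)) 2, ← Real.rpow_mul hT]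
  norm_num

theorem LA2a (T v : ℕ) (hT : 1 ≤ T) (hv : 0 < v) (a : ℤ) (ha : a ≠ 0) :
    ∃ X Y : ℝ, 0 ≤ X ∧ X ≤ Y ∧ Y - X ≤ len T v a ∧
      ∀ u : ℤ, |u ^ 2 - 4 * a ^ 3| ≤ T * (v : ℤ) ^ 2 → X ≤ ((|u| : ℤ) : ℝ) ∧ ((|u| : ℤ) : ℝ) ≤ Y := by
  have hT0 : (0 : ℝ) ≤ T := Nat.cast_nonneg _
  have hv0 : (0 : ℝ) ≤ v := Nat.cast_nonneg _
  have hu : ∀ u : ℤ, |u ^ 2 - 4 * a ^ 3| ≤ T * (v : ℤ) ^ 2 →
      4 * (a : ℝ) ^ 3 - T * (v : ℝ) ^ 2 ≤ (u : ℝ) ^ 2 ∧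
        (u : ℝ) ^ 2 ≤ 4 * (a : ℝ) ^ 3 + T * (v : ℝ) ^ 2 := by
    intro u h
    have h1 : ((|u ^ 2 - 4 * a ^ 3| : ℤ) : ℝ) ≤ ((T * (v : ℤ) ^ 2 : ℤ) : ℝ) := by exact_mod_cast h
    push_cast at h1
    have h2 := abs_le.1 h1
    constructor
    · linarith [h2.1]
    · linarith [h2.2]
  have hb : (1 : ℝ) ≤ ((|a| : ℤ) : ℝ) := by
    exact_mod_cast Int.one_le_abs ha
  have hlen0 : 0 ≤ len T v a := by
    unfold len
    refine le_min (by positivity) ?_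
    have h0 : (0 : ℝ) ≤ ((|a| : ℤ) : ℝ) := by linarith
    have := Real.rpow_nonneg h0 (-(3 / 4) : ℝ)
    positivity
  rcases lt_or_ge (4 * (a : ℝ) ^ 3 + T * (v : ℝ) ^ 2) 0 with hQ | hQ
  · refine ⟨0, 0, le_rfl, le_rfl, by rw [sub_self]; exact hlen0, fun u h => ?_⟩
    have h1 := (hu u h).2
    have h2 : (0 : ℝ) ≤ (u : ℝ) ^ 2 := sq_nonneg _
    exact absurd (h2.trans h1) (not_le.2 hQ)
  · set Q : ℝ := 4 * (a : ℝ) ^ 3 + T * (v : ℝ) ^ 2 with hQd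
    set P : ℝ := max 0 (4 * (a : ℝ) ^ 3 - T * (v : ℝ) ^ 2) with hPd
    have hP0 : 0 ≤ P := le_max_left _ _
    have hTv : (0 : ℝ) ≤ T * (v : ℝ) ^ 2 := by positivity
    have hPQ : P ≤ Q := max_le hQ (by rw [hQd]; linarith)
    have hQP : Q - P ≤ 2 * (T * (v : ℝ) ^ 2) := by
      have : 4 * (a : ℝ) ^ 3 - T * (v : ℝ) ^ 2 ≤ P := le_max_right _ _
      rw [hQd]; linarith
    have hX0 : 0 ≤ Real.sqrt P := Real.sqrt_nonneg _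
    have hXY : Real.sqrt P ≤ Real.sqrt Q := Real.sqrt_le_sqrt hPQ
    have hX2 : Real.sqrt P ^ 2 = P := Real.sq_sqrt hP0
    have hY2 : Real.sqrt Q ^ 2 = Q := Real.sq_sqrt hQ
    set X := Real.sqrt P with hXd
    set Y := Real.sqrt Q with hYd
    have hD0 : 0 ≤ Y - X := sub_nonneg.2 hXY
    have hprod : (Y - X) * (Y + X) ≤ 2 * (T * (v : ℝ) ^ 2) := by
      have : (Y - X) * (Y + X) = Q - P := by rw [← hX2, ← hY2]; ring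
      rw [this]; exact hQP
    have hsq : (Y - X) ^ 2 ≤ 2 * (T * (v : ℝ) ^ 2) := by
      refine le_trans ?_ hprod
      rw [sq]
      exact mul_le_mul_of_nonneg_left (by linarith) hD0
    have hfour : (Y - X) ^ 4 * ((|a| : ℤ) : ℝ) ^ 3 ≤ 16 * (T : ℝ) ^ 3 * (v : ℝ) ^ 6 := by
      rcases lt_or_gt_of_ne ha with hneg | hpos
      · have hb' : ((|a| : ℤ) : ℝ) = -(a : ℝ) := by
          rw [abs_of_neg hneg]; push_cast; ring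
        rw [hb'] at hb ⊢
        have h1 : P = 0 := by
          rw [hPd]
          refine max_eq_left ?_
          have : (1 : ℝ) ≤ (-(a : ℝ)) ^ 3 := one_le_pow₀ hb
          nlinarith
        have hX : X = 0 := by rw [hXd, h1, Real.sqrt_zero]
        have h2 : (-(a : ℝ)) ^ 3 ≤ T * (v : ℝ) ^ 2 := by
          have : (1 : ℝ) ≤ (-(a : ℝ)) ^ 3 := one_le_pow₀ hb
          nlinarith
        have h3 : (Y - X) ^ 2 ≤ T * (v : ℝ) ^ 2 := by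
          rw [hX, sub_zero, hY2, hQd]
          have : (1 : ℝ) ≤ (-(a : ℝ)) ^ 3 := one_le_pow₀ hb
          nlinarith
        have h4 : (Y - X) ^ 4 ≤ (T * (v : ℝ) ^ 2) ^ 2 := by
          calc (Y - X) ^ 4 = ((Y - X) ^ 2) ^ 2 := by ring
            _ ≤ (T * (v : ℝ) ^ 2) ^ 2 := pow_le_pow_left₀ (sq_nonneg _) h3 2
        have h5 : (0 : ℝ) ≤ (-(a : ℝ)) ^ 3 := by positivity
        calc (Y - X) ^ 4 * (-(a : ℝ)) ^ 3 ≤ (T * (v : ℝ) ^ 2) ^ 2 * (T * (v : ℝ) ^ 2) :=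
              mul_le_mul h4 h2 h5 (by positivity)
          _ = 1 * (T : ℝ) ^ 3 * (v : ℝ) ^ 6 := by ring
          _ ≤ 16 * (T : ℝ) ^ 3 * (v : ℝ) ^ 6 := by gcongr; norm_num
      · have hb' : ((|a| : ℤ) : ℝ) = (a : ℝ) := by rw [abs_of_pos hpos]
        rw [hb'] at hb ⊢
        have ha3 : (0 : ℝ) ≤ (a : ℝ) ^ 3 := by positivity
        have h1 : (Y - X) * Y ≤ 2 * (T * (v : ℝ) ^ 2) := by
          refine le_trans (mul_le_mul_of_nonneg_left ?_ hD0) hprod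
          linarith
        have hY0 : 0 ≤ Y := hX0.trans hXY
        have h2 : ((Y - X) * Y) ^ 2 ≤ (2 * (T * (v : ℝ) ^ 2)) ^ 2 :=
          pow_le_pow_left₀ (mul_nonneg hD0 hY0) h1 2
        have h3 : 4 * (a : ℝ) ^ 3 ≤ Y ^ 2 := by rw [hY2, hQd]; linarith
        have h4 : (Y - X) ^ 2 * (4 * (a : ℝ) ^ 3) ≤ (2 * (T * (v : ℝ) ^ 2)) ^ 2 := by
          refine le_trans ?_ h2
          rw [mul_pow]
          exact mul_le_mul_of_nonneg_left h3 (sq_nonneg _)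
        have h5 : (Y - X) ^ 2 * (a : ℝ) ^ 3 ≤ (T * (v : ℝ) ^ 2) ^ 2 := by nlinarith
        calc (Y - X) ^ 4 * (a : ℝ) ^ 3 = (Y - X) ^ 2 * ((Y - X) ^ 2 * (a : ℝ) ^ 3) := by ring
          _ ≤ (2 * (T * (v : ℝ) ^ 2)) * (T * (v : ℝ) ^ 2) ^ 2 :=
              mul_le_mul hsq h5 (by positivity) (by positivity)
          _ = 2 * (T : ℝ) ^ 3 * (v : ℝ) ^ 6 := by ring
          _ ≤ 16 * (T : ℝ) ^ 3 * (v : ℝ) ^ 6 := by gcongr; norm_num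
    refine ⟨X, Y, hX0, hXY, ?_, fun u h => ?_⟩
    · unfold len
      refine le_min ?_ ?_
      · refine le_of_sq_le_sq ?_ (by positivity)
        have e : (2 * (T : ℝ) ^ (1 / 2 : ℝ) * (v : ℝ)) ^ 2 = 4 * (T * (v : ℝ) ^ 2) := by
          rw [mul_pow, mul_pow, LA2a_half _ hT0]; ring
        rw [e]
        linarith
      · have hb0 : (0 : ℝ) < ((|a| : ℤ) : ℝ) := by linarith
        have e := LA2a_pow T v hT0 hv0 _ hb0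
        have hR0 : 0 ≤ 2 * (T : ℝ) ^ (3 / 4 : ℝ) * (v : ℝ) ^ (3 / 2 : ℝ) *
            (((|a| : ℤ)) : ℝ) ^ (-(3 / 4) : ℝ) := by
          have := Real.rpow_nonneg hb0.le (-(3 / 4) : ℝ)
          positivity
        refine le_of_pow_le_pow_left₀ (n := 4) (by norm_num) hR0 ?_
        rw [← e] at hfour
        exact le_of_mul_le_mul_right hfour (by positivity)
    · obtain ⟨h1, h2⟩ := hu u h
      have e : ((|u| : ℤ) : ℝ) = Real.sqrt ((u : ℝ) ^ 2) := by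
        rw [Real.sqrt_sq_eq_abs]; push_cast; rfl
      rw [e]
      exact ⟨Real.sqrt_le_sqrt (max_le (sq_nonneg _) h1), Real.sqrt_le_sqrt h2⟩

end RC91
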