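import Pool.Agent.LibLS91.LA2a

/-!
# [LS91 LA2b] the number of `u` for given `a`
PLAN. `N = v^2`. By LA2a the set is contained in the union, over the `u0` with `(a % N, u0) ∈ RP v` (there are `rr v a` of them), of
`{u : u ≡ u0 mod N, u ∈ [X, Y] ∪ [-Y, -X]}`: indeed `(a % N, u % N) ∈ RP v` because `v^2 ∣ u^2 - 4a^3` and `Prm` only depend on residues
modulo `N` (see LA1a: for `p ∣ v`: `p ∣ a % N ↔ p ∣ a`, `p^2 ∣ u % N ↔ p^2 ∣ u`; if `v` is odd the 2-adic clause is empty, if `v` is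
even `2 ∣ a % N ↔ 2 ∣ a`). In an interval `[X, Y]` a class modulo `N` has at most `(Y - X)/N + 1` elements
(write `u = u0 + N t`: `t` in a real interval of length `(Y-X)/N`; e.g. `Int.card_Icc`, `⌊⌋ - ⌈⌉ + 1`).
-/
set_option autoImplicit false
namespace RC91

private lemma LA2b_dvd {d N a : ℤ} (h : d ∣ N) : d ∣ a % N ↔ d ∣ a := by
  have h1 : a % N + N * (a / N) = a := Int.emod_add_mul_ediv a N
  have h2 : d ∣ N * (a / N) := Dvd.dvd.mul_right h _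
  constructor
  · intro h3
    rw [← h1]
    exact dvd_add h3 h2
  · intro h3
    rw [← h1] at h3
    exact (dvd_add_left h2).mp h3

private lemma LA2b_prm (v : ℕ) (u a : ℤ) (h : Prm u v a) :
    Prm (u % ((v : ℤ) ^ 2)) v (a % ((v : ℤ) ^ 2)) := by
  obtain ⟨h1, h2⟩ := h
  refine ⟨?_, ?_⟩
  · intro p hp hp2 hpa hpv
    have hN : (p : ℤ) ∣ (v : ℤ) ^ 2 := Dvd.dvd.pow hpv (by norm_num)
    have hpa' : (p : ℤ) ∣ a := (LA2b_dvd hN).mp hpa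
    obtain ⟨h3, h4⟩ := h1 p hp hp2 hpa' hpv
    refine ⟨h3, ?_⟩
    have hN2 : (p : ℤ) ^ 2 ∣ (v : ℤ) ^ 2 := pow_dvd_pow_of_dvd hpv 2
    exact (LA2b_dvd hN2).mpr h4
  · intro h3 h8
    have h2v : (2 : ℤ) ∣ (v : ℤ) := dvd_trans (by norm_num) h8
    have hN : (2 : ℤ) ∣ (v : ℤ) ^ 2 := Dvd.dvd.pow h2v (by norm_num)
    exact h2 ((LA2b_dvd hN).mp h3) h8

private lemma LA2b_card (N r : ℤ) (hN : 0 < N) (X Y : ℝ) (hXY : X ≤ Y) :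
    (((Finset.Icc ⌈(X - r) / N⌉ ⌊(Y - r) / N⌋).image (fun t : ℤ => r + N * t)).card : ℝ) ≤
      (Y - X) / N + 1 := by
  have hNR : (0 : ℝ) < N := by exact_mod_cast hN
  have h0 : (0 : ℝ) ≤ (Y - X) / N + 1 := by
    have : 0 ≤ (Y - X) / N := div_nonneg (by linarith) hNR.le
    linarith
  have h1 : ((Finset.Icc ⌈(X - r) / N⌉ ⌊(Y - r) / N⌋).image (fun t : ℤ => r + N * t)).card ≤
      (⌊(Y - r) / N⌋ + 1 - ⌈(X - r) / N⌉).toNat := by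
    refine Finset.card_image_le.trans ?_
    rw [Int.card_Icc]
  have h2 : (((⌊(Y - r) / N⌋ + 1 - ⌈(X - r) / N⌉).toNat : ℕ) : ℝ) ≤ (Y - X) / N + 1 := by
    rcases le_total (⌊(Y - r) / N⌋ + 1 - ⌈(X - r) / N⌉) 0 with h | h
    · rw [Int.toNat_of_nonpos h]
      simpa using h0
    · have h3 : (((⌊(Y - r) / N⌋ + 1 - ⌈(X - r) / N⌉).toNat : ℕ) : ℝ) =
          (((⌊(Y - r) / N⌋ + 1 - ⌈(X - r) / N⌉ : ℤ)) : ℝ) := by
        have := Int.toNat_of_nonneg h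
        exact_mod_cast this
      rw [h3]
      push_cast
      have h4 := Int.floor_le ((Y - r) / (N : ℝ))
      have h5 := Int.le_ceil ((X - r) / (N : ℝ))
      have h6 : (Y - X) / (N : ℝ) = (Y - r) / N - (X - r) / N := by ring
      rw [h6]
      linarith
  calc _ ≤ (((⌊(Y - r) / N⌋ + 1 - ⌈(X - r) / N⌉).toNat : ℕ) : ℝ) := by exact_mod_cast h1
    _ ≤ _ := h2

private lemma LA2b_mem (N u : ℤ) (hN : 0 < N) (X Y : ℝ) (h1 : X ≤ u) (h2 : (u : ℝ) ≤ Y) :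
    u ∈ (Finset.Icc ⌈(X - ((u % N : ℤ) : ℝ)) / N⌉ ⌊(Y - ((u % N : ℤ) : ℝ)) / N⌋).image
      (fun t : ℤ => u % N + N * t) := by
  have hNR : (0 : ℝ) < N := by exact_mod_cast hN
  rw [Finset.mem_image]
  refine ⟨u / N, ?_, Int.emod_add_mul_ediv u N⟩
  have h3 : ((u % N : ℤ) : ℝ) + N * ((u / N : ℤ) : ℝ) = u := by
    exact_mod_cast Int.emod_add_mul_ediv u N
  rw [Finset.mem_Icc]
  constructor
  · rw [Int.ceil_le, div_le_iff₀ hNR]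
    nlinarith [h3, h1]
  · rw [Int.le_floor, le_div_iff₀ hNR]
    nlinarith [h3, h2]

theorem LA2b (T v : ℕ) (hT : 1 ≤ T) (hv : 0 < v) (a : ℤ) (ha : a ≠ 0) :
    {u : ℤ | (v : ℤ) ^ 2 ∣ u ^ 2 - 4 * a ^ 3 ∧ |u ^ 2 - 4 * a ^ 3| ≤ T * (v : ℤ) ^ 2 ∧ Prm u v a}.Finite ∧
    ({u : ℤ | (v : ℤ) ^ 2 ∣ u ^ 2 - 4 * a ^ 3 ∧ |u ^ 2 - 4 * a ^ 3| ≤ T * (v : ℤ) ^ 2 ∧
      Prm u v a}.ncard : ℝ) ≤ rr v a * (2 * (len T v a / (v : ℝ) ^ 2 + 1)) := by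
  classical
  obtain ⟨X, Y, hX0, hXY, hlen, hu⟩ := LA2a T v hT hv a ha
  have hvZ : (0 : ℤ) < v := by exact_mod_cast hv
  have hN : (0 : ℤ) < (v : ℤ) ^ 2 := by positivity
  have hvR : (0 : ℝ) < v := by exact_mod_cast hv
  have hNR : (0 : ℝ) < (v : ℝ) ^ 2 := by positivity
  set F : Finset (ℕ × ℕ) := (RP v).filter (fun q => (q.1 : ℤ) = a % ((v : ℤ) ^ 2)) with hF
  let C : ℝ → ℝ → ℤ → Finset ℤ := fun A B r =>
    (Finset.Icc ⌈(A - r) / (((v : ℤ) ^ 2 : ℤ) : ℝ)⌉ ⌊(B - r) / (((v : ℤ) ^ 2 : ℤ) : ℝ)⌋).image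
      (fun t : ℤ => r + (v : ℤ) ^ 2 * t)
  let G : Finset ℤ := F.biUnion (fun q => C X Y (q.2 : ℤ) ∪ C (-Y) (-X) (q.2 : ℤ))
  have hsub : {u : ℤ | (v : ℤ) ^ 2 ∣ u ^ 2 - 4 * a ^ 3 ∧ |u ^ 2 - 4 * a ^ 3| ≤ T * (v : ℤ) ^ 2 ∧
      Prm u v a} ⊆ (G : Set ℤ) := by
    rintro u ⟨h1, h2, h3⟩
    obtain ⟨h4, h5⟩ := hu u h2
    have hu0 : 0 ≤ u % ((v : ℤ) ^ 2) := Int.emod_nonneg _ hN.ne'
    have hu1 : u % ((v : ℤ) ^ 2) < (v : ℤ) ^ 2 := Int.emod_lt_of_pos _ hN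
    have ha0 : 0 ≤ a % ((v : ℤ) ^ 2) := Int.emod_nonneg _ hN.ne'
    have ha1 : a % ((v : ℤ) ^ 2) < (v : ℤ) ^ 2 := Int.emod_lt_of_pos _ hN
    obtain ⟨r, hr⟩ := Int.eq_ofNat_of_zero_le hu0
    obtain ⟨b, hb⟩ := Int.eq_ofNat_of_zero_le ha0
    have hbF : (b, r) ∈ F := by
      rw [hF, Finset.mem_filter]
      refine ⟨?_, hb.symm⟩
      rw [RP, Finset.mem_filter, Finset.mem_product, Finset.mem_range, Finset.mem_range]
      rw [hr] at hu1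
      rw [hb] at ha1
      refine ⟨⟨by exact_mod_cast ha1, by exact_mod_cast hu1⟩, ?_, ?_⟩
      · show (v : ℤ) ^ 2 ∣ (r : ℤ) ^ 2 - 4 * (b : ℤ) ^ 3
        have e1 : (r : ℤ) ≡ u [ZMOD (v : ℤ) ^ 2] := by
          have : ((r : ℕ) : ℤ) = u % ((v : ℤ) ^ 2) := hr.symm
          rw [this]
          exact Int.mod_modEq u _
        have e2 : (b : ℤ) ≡ a [ZMOD (v : ℤ) ^ 2] := by
          have : ((b : ℕ) : ℤ) = a % ((v : ℤ) ^ 2) := hb.symm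
          rw [this]
          exact Int.mod_modEq a _
        have e3 : (r : ℤ) ^ 2 - 4 * (b : ℤ) ^ 3 ≡ u ^ 2 - 4 * a ^ 3 [ZMOD (v : ℤ) ^ 2] :=
          (e1.pow 2).sub ((e2.pow 3).mul_left 4)
        exact (Int.ModEq.dvd_iff e3).mpr h1
      · show Prm (r : ℤ) (v : ℤ) (b : ℤ)
        have := LA2b_prm v u a h3
        rw [hr, hb] at this
        exact this
    rw [Finset.mem_coe, Finset.mem_biUnion]
    refine ⟨(b, r), hbF, ?_⟩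
    rw [Finset.mem_union]
    have hrr : ((r : ℕ) : ℤ) = u % ((v : ℤ) ^ 2) := hr.symm
    rcases le_total 0 u with h0 | h0
    · left
      rw [abs_of_nonneg h0] at h4 h5
      have := LA2b_mem ((v : ℤ) ^ 2) u hN X Y h4 h5
      rw [← hrr] at this
      exact this
    · right
      rw [abs_of_nonpos h0] at h4 h5
      push_cast at h4 h5
      have := LA2b_mem ((v : ℤ) ^ 2) u hN (-Y) (-X) (by linarith) (by linarith)
      rw [← hrr] at this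
      exact this
  refine ⟨(Finset.finite_toSet G).subset hsub, ?_⟩
  have h1 : ({u : ℤ | (v : ℤ) ^ 2 ∣ u ^ 2 - 4 * a ^ 3 ∧ |u ^ 2 - 4 * a ^ 3| ≤ T * (v : ℤ) ^ 2 ∧
      Prm u v a}.ncard : ℝ) ≤ G.card := by
    have := Set.ncard_le_ncard hsub (Finset.finite_toSet G)
    rw [Set.ncard_coe_finset] at this
    exact_mod_cast this
  have h2 : (G.card : ℝ) ≤ ∑ q ∈ F, (2 * (len T v a / (v : ℝ) ^ 2 + 1)) := by
    have h3 : (G.card : ℝ) ≤ ∑ q ∈ F, (((C X Y (q.2 : ℤ) ∪ C (-Y) (-X) (q.2 : ℤ)).card : ℕ) : ℝ) := by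
      have := Finset.card_biUnion_le (s := F)
        (t := fun q => C X Y (q.2 : ℤ) ∪ C (-Y) (-X) (q.2 : ℤ))
      exact_mod_cast this
    refine h3.trans (Finset.sum_le_sum ?_)
    intro q _
    have h4 : (((C X Y (q.2 : ℤ) ∪ C (-Y) (-X) (q.2 : ℤ)).card : ℕ) : ℝ) ≤
        (C X Y (q.2 : ℤ)).card + (C (-Y) (-X) (q.2 : ℤ)).card := by
      exact_mod_cast Finset.card_union_le _ _
    have h5 := LA2b_card ((v : ℤ) ^ 2) (q.2 : ℤ) hN X Y hXY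
    have h6 := LA2b_card ((v : ℤ) ^ 2) (q.2 : ℤ) hN (-Y) (-X) (by linarith)
    have h5' : ((C X Y (q.2 : ℤ)).card : ℝ) ≤ (Y - X) / (((v : ℤ) ^ 2 : ℤ) : ℝ) + 1 := h5
    have h6' : ((C (-Y) (-X) (q.2 : ℤ)).card : ℝ) ≤
        (-X - -Y) / (((v : ℤ) ^ 2 : ℤ) : ℝ) + 1 := h6
    have h7 : (((v : ℤ) ^ 2 : ℤ) : ℝ) = (v : ℝ) ^ 2 := by push_cast; ring
    rw [h7] at h5' h6'
    have h8 : (Y - X) / (v : ℝ) ^ 2 ≤ len T v a / (v : ℝ) ^ 2 :=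
      div_le_div_of_nonneg_right hlen hNR.le
    have h9 : (-X - -Y) / (v : ℝ) ^ 2 = (Y - X) / (v : ℝ) ^ 2 := by
      congr 1
      ring
    rw [h9] at h6'
    linarith
  have h3 : ∑ q ∈ F, (2 * (len T v a / (v : ℝ) ^ 2 + 1)) =
      rr v a * (2 * (len T v a / (v : ℝ) ^ 2 + 1)) := by
    rw [Finset.sum_const, nsmul_eq_mul]
    rfl
  linarith

end RC91
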