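import Pool.Agent.LibLS91.LA2
import Pool.Agent.LibRC91.Q7

/-!
# [LS91 LA3] Davenport-Heilbronn type upper bound without logarithm
PLAN. `QA A ⊆ {(u,v,a) : |A| ≤ T conditions}`: for `A` square free, `≠ 1`, `|A| ≤ T` a triple of `QA A` has `a ≠ 0` (else
`u^2 = A v^2`, `v ≠ 0`, so `A` is a square of an integer: `A = 1`, or `A = 0` not square free), `v^2 ∣ u^2 - 4a^3`,
`|u^2-4a^3| = |A| v^2 ≤ T v^2`, `v^4 ≤ 65536 T`, `a^2 ≤ 16 T`, `Prm u v a`; it determines `A`. So the sum is at most the number of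
such triples, `≤ 2 ∑_{1 ≤ v, v^4 ≤ 65536 T}` of LA2 (`Prm u (-v) a ↔ Prm u v a`). With `V = 16 T^(1/4)`:
`∑ v^(-1/2) ≤ 2 V^(1/2) = 8 T^(1/8)`, `∑ v ≤ V^2 = 256 T^(1/2)` (`V ≥ 16`, use `∑_{v ≤ V} v ≤ V^2`). Total `≤ C' T`.
-/
set_option autoImplicit false
namespace RC91

private lemma LA3_sum1 (V : ℕ) :
    ∑ v ∈ Finset.Icc 1 V, (v : ℝ) ^ (-(1 / 2) : ℝ) ≤ 2 * Real.sqrt V := by
  induction V with
  | zero => simp
  | succ n ih =>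
    rw [Finset.sum_Icc_succ_top (by omega)]
    have hn : (0 : ℝ) ≤ n := Nat.cast_nonneg n
    have h1 : (((n + 1 : ℕ) : ℝ)) ^ (-(1 / 2) : ℝ) = (Real.sqrt ((n : ℝ) + 1))⁻¹ := by
      rw [Real.rpow_neg (by positivity), Real.sqrt_eq_rpow]
      push_cast
      rfl
    have hs1 : 0 < Real.sqrt ((n : ℝ) + 1) := Real.sqrt_pos.mpr (by linarith)
    have hs0 : 0 ≤ Real.sqrt (n : ℝ) := Real.sqrt_nonneg _
    have hle : Real.sqrt (n : ℝ) ≤ Real.sqrt ((n : ℝ) + 1) := Real.sqrt_le_sqrt (by linarith)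
    have hsq1 : Real.sqrt ((n : ℝ) + 1) * Real.sqrt ((n : ℝ) + 1) = (n : ℝ) + 1 :=
      Real.mul_self_sqrt (by linarith)
    have hsq0 : Real.sqrt (n : ℝ) * Real.sqrt (n : ℝ) = (n : ℝ) := Real.mul_self_sqrt hn
    have h2 : (Real.sqrt ((n : ℝ) + 1))⁻¹ ≤ 2 * (Real.sqrt ((n : ℝ) + 1) - Real.sqrt n) := by
      rw [inv_le_iff_one_le_mul₀ hs1]
      nlinarith
    rw [h1]
    push_cast
    linarith

private lemma LA3_sum2 (V : ℕ) : ∑ v ∈ Finset.Icc 1 V, (v : ℝ) ≤ (V : ℝ) ^ 2 := by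
  have h := Finset.sum_le_card_nsmul (Finset.Icc 1 V) (fun v => (v : ℝ)) (V : ℝ) (by
    intro v hv
    exact_mod_cast (Finset.mem_Icc.mp hv).2)
  rw [Nat.card_Icc, nsmul_eq_mul] at h
  have h2 : ((V + 1 - 1 : ℕ) : ℝ) = V := by norm_num
  rw [h2] at h
  calc ∑ v ∈ Finset.Icc 1 V, (v : ℝ) ≤ (V : ℝ) * V := h
    _ = (V : ℝ) ^ 2 := by ring

private def LA3_W (T v : ℕ) : Set (ℤ × ℤ) :=
  {q : ℤ × ℤ | q.2 ≠ 0 ∧ (v : ℤ) ^ 2 ∣ q.1 ^ 2 - 4 * q.2 ^ 3 ∧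
      |q.1 ^ 2 - 4 * q.2 ^ 3| ≤ T * (v : ℤ) ^ 2 ∧ q.2 ^ 2 ≤ 16 * T ∧ Prm q.1 v q.2}

private lemma LA3_Prm_neg (u v a : ℤ) (h : Prm u (-v) a) : Prm u v a := by
  refine ⟨?_, ?_⟩
  · intro p hp hp2 hpa hpv
    have h1 := h.1 p hp hp2 hpa (by rwa [dvd_neg])
    rw [dvd_neg] at h1
    exact h1
  · intro h2
    have h3 := h.2 h2
    rw [dvd_neg] at h3
    exact h3

private lemma LA3_V (T v : ℕ) : v ≤ Nat.sqrt (Nat.sqrt (65536 * T)) ↔ v ^ 4 ≤ 65536 * T := by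
  rw [Nat.le_sqrt', Nat.le_sqrt', ← pow_mul]

private lemma LA3_sub (T : ℕ) :
    QS T ⊆ ⋃ v ∈ Finset.Icc 1 (Nat.sqrt (Nat.sqrt (65536 * T))),
      ((fun q : ℤ × ℤ => (q.1, (v : ℤ), q.2)) '' LA3_W T v ∪
        (fun q : ℤ × ℤ => (q.1, -(v : ℤ), q.2)) '' LA3_W T v) := by
  rintro ⟨u, v, a⟩ ⟨hv, ha, hd, hle, hv4, ha2, hP⟩
  simp only at hv ha hd hle hv4 ha2 hP
  have hvn : 1 ≤ v.natAbs := Nat.one_le_iff_ne_zero.mpr (Int.natAbs_ne_zero.mpr hv)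
  have hsq : ((v.natAbs : ℕ) : ℤ) ^ 2 = v ^ 2 := by
    rw [Int.natCast_natAbs, sq_abs]
  have hv4' : v.natAbs ^ 4 ≤ 65536 * T := by
    have h1 : ((v.natAbs : ℕ) : ℤ) ^ 4 = v ^ 4 := by
      calc ((v.natAbs : ℕ) : ℤ) ^ 4 = (((v.natAbs : ℕ) : ℤ) ^ 2) ^ 2 := by ring
        _ = v ^ 4 := by rw [hsq]; ring
    have h2 : ((v.natAbs ^ 4 : ℕ) : ℤ) ≤ ((65536 * T : ℕ) : ℤ) := by
      push_cast
      rw [← Int.natCast_natAbs, h1]
      exact hv4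
    exact_mod_cast h2
  simp only [Set.mem_iUnion, Finset.mem_Icc]
  refine ⟨v.natAbs, ⟨hvn, (LA3_V T _).mpr hv4'⟩, ?_⟩
  rcases Int.natAbs_eq v with h | h
  · left
    refine ⟨(u, a), ⟨ha, ?_, ?_, ha2, ?_⟩, ?_⟩
    · rw [hsq]; exact hd
    · rw [hsq]; exact hle
    · rw [← h]; exact hP
    · simp only
      rw [← h]
  · right
    refine ⟨(u, a), ⟨ha, ?_, ?_, ha2, ?_⟩, ?_⟩
    · rw [hsq]; exact hd
    · rw [hsq]; exact hle
    · apply LA3_Prm_neg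
      rw [← h]
      exact hP
    · simp only
      rw [← h]

private lemma LA3_sumQA (T : ℕ) (hfin : (QS T).Finite) (S : Finset ℤ)
    (hS : ∀ A ∈ S, Squarefree A ∧ A ≠ 1 ∧ |A| ≤ T) :
    ∑ A ∈ S, (QA A).ncard ≤ (QS T).ncard := by
  classical
  have hsub : ∀ A ∈ S, QA A ⊆ QS T := fun A hA => Q7_sub A (hS A hA).1 (hS A hA).2.1 T (hS A hA).2.2
  set F : ℤ → Finset (ℤ × ℤ × ℤ) := fun A => hfin.toFinset.filter (fun q => q ∈ QA A) with hF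
  have h1 : ∀ A ∈ S, (QA A).ncard = (F A).card := by
    intro A hA
    rw [← Set.ncard_coe_finset]
    congr 1
    ext q
    rw [hF, Finset.mem_coe, Finset.mem_filter, Set.Finite.mem_toFinset]
    exact ⟨fun h => ⟨hsub A hA h, h⟩, fun h => h.2⟩
  have hdisj : (S : Set ℤ).PairwiseDisjoint F := by
    intro A _ B _ hAB
    change Disjoint (F A) (F B)
    rw [Finset.disjoint_left]
    intro q hqA hqB
    apply hAB
    have h2 : q ∈ QA A := (Finset.mem_filter.mp hqA).2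
    have h3 : q ∈ QA B := (Finset.mem_filter.mp hqB).2
    have h4 := h2.2.1
    have h5 := h3.2.1
    have h6 : q.2.1 ^ 2 * A = q.2.1 ^ 2 * B := by linarith
    exact mul_left_cancel₀ (pow_ne_zero 2 h2.1) h6
  rw [Finset.sum_congr rfl h1, ← Finset.card_biUnion hdisj, Set.ncard_eq_toFinset_card _ hfin]
  apply Finset.card_le_card
  intro q hq
  obtain ⟨A, _, hqA⟩ := Finset.mem_biUnion.mp hq
  exact (Finset.mem_filter.mp hqA).1

theorem LA3 : ∃ C : ℝ, 0 < C ∧ ∀ T : ℕ, 1 ≤ T → ∀ S : Finset ℤ,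
    (∀ A ∈ S, Squarefree A ∧ A ≠ 1 ∧ |A| ≤ T) →
    ∑ A ∈ S, ((QA A).ncard : ℝ) ≤ C * T := by
  obtain ⟨C, hC, hLA2⟩ := LA2
  refine ⟨528 * C, by positivity, ?_⟩
  intro T hT S hS
  set V : ℕ := Nat.sqrt (Nat.sqrt (65536 * T)) with hV
  have hW : ∀ v ∈ Finset.Icc 1 V, (LA3_W T v).Finite ∧
      ((LA3_W T v).ncard : ℝ) ≤
        C * ((T : ℝ) ^ (7 / 8 : ℝ) * (v : ℝ) ^ (-(1 / 2) : ℝ) + (T : ℝ) ^ (1 / 2 : ℝ) * v) := by
    intro v hv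
    obtain ⟨h1, h2⟩ := Finset.mem_Icc.mp hv
    exact hLA2 T v hT h1 ((LA3_V T v).mp h2)
  have hfinU : (⋃ v ∈ Finset.Icc 1 V,
      ((fun q : ℤ × ℤ => (q.1, (v : ℤ), q.2)) '' LA3_W T v ∪
        (fun q : ℤ × ℤ => (q.1, -(v : ℤ), q.2)) '' LA3_W T v)).Finite := by
    apply Set.Finite.biUnion (Finset.finite_toSet _)
    intro v hv
    exact ((hW v hv).1.image _).union ((hW v hv).1.image _)
  have hfin : (QS T).Finite := hfinU.subset (LA3_sub T)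
  have hcard : (QS T).ncard ≤ ∑ v ∈ Finset.Icc 1 V, 2 * (LA3_W T v).ncard := by
    calc (QS T).ncard ≤ (⋃ v ∈ Finset.Icc 1 V,
      ((fun q : ℤ × ℤ => (q.1, (v : ℤ), q.2)) '' LA3_W T v ∪
        (fun q : ℤ × ℤ => (q.1, -(v : ℤ), q.2)) '' LA3_W T v)).ncard :=
          Set.ncard_le_ncard (LA3_sub T) hfinU
      _ ≤ ∑ v ∈ Finset.Icc 1 V, ((fun q : ℤ × ℤ => (q.1, (v : ℤ), q.2)) '' LA3_W T v ∪
        (fun q : ℤ × ℤ => (q.1, -(v : ℤ), q.2)) '' LA3_W T v).ncard :=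
          Finset.set_ncard_biUnion_le _ _
      _ ≤ ∑ v ∈ Finset.Icc 1 V, 2 * (LA3_W T v).ncard := by
          apply Finset.sum_le_sum
          intro v hv
          refine (Set.ncard_union_le _ _).trans ?_
          have h1 := Set.ncard_image_le (f := fun q : ℤ × ℤ => (q.1, (v : ℤ), q.2)) (hW v hv).1
          have h2 := Set.ncard_image_le (f := fun q : ℤ × ℤ => (q.1, -(v : ℤ), q.2)) (hW v hv).1
          omega
  -- real estimates with `t = T^(1/8)`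
  set t : ℝ := (T : ℝ) ^ (1 / 8 : ℝ) with ht
  have hT0 : (0 : ℝ) ≤ T := Nat.cast_nonneg T
  have ht0 : 0 ≤ t := Real.rpow_nonneg hT0 _
  have ht8 : t ^ 8 = (T : ℝ) := by
    rw [ht, ← Real.rpow_natCast, ← Real.rpow_mul hT0]
    norm_num
  have ht7 : (T : ℝ) ^ (7 / 8 : ℝ) = t ^ 7 := by
    rw [ht, ← Real.rpow_natCast, ← Real.rpow_mul hT0]
    norm_num
  have ht4 : (T : ℝ) ^ (1 / 2 : ℝ) = t ^ 4 := by
    rw [ht, ← Real.rpow_natCast, ← Real.rpow_mul hT0]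
    norm_num
  have hV4 : (V : ℝ) ^ 4 ≤ (16 * t ^ 2) ^ 4 := by
    have h1 : V ^ 4 ≤ 65536 * T := (LA3_V T V).mp le_rfl
    have h2 : (V : ℝ) ^ 4 ≤ 65536 * (T : ℝ) := by exact_mod_cast h1
    calc (V : ℝ) ^ 4 ≤ 65536 * (T : ℝ) := h2
      _ = (16 * t ^ 2) ^ 4 := by rw [← ht8]; ring
  have hVle : (V : ℝ) ≤ 16 * t ^ 2 :=
    (pow_le_pow_iff_left₀ (Nat.cast_nonneg V) (by positivity) (by norm_num)).mp hV4
  have hsV : Real.sqrt V ≤ 4 * t := by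
    apply Real.sqrt_le_iff.mpr
    refine ⟨by positivity, ?_⟩
    calc (V : ℝ) ≤ 16 * t ^ 2 := hVle
      _ = (4 * t) ^ 2 := by ring
  have hV2 : (V : ℝ) ^ 2 ≤ 256 * t ^ 4 := by
    calc (V : ℝ) ^ 2 ≤ (16 * t ^ 2) ^ 2 := pow_le_pow_left₀ (Nat.cast_nonneg V) hVle 2
      _ = 256 * t ^ 4 := by ring
  have hs1 := LA3_sum1 V
  have hs2 := LA3_sum2 V
  calc ∑ A ∈ S, ((QA A).ncard : ℝ) ≤ ((QS T).ncard : ℝ) := by
        exact_mod_cast LA3_sumQA T hfin S hS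
    _ ≤ ∑ v ∈ Finset.Icc 1 V, 2 * ((LA3_W T v).ncard : ℝ) := by exact_mod_cast hcard
    _ ≤ ∑ v ∈ Finset.Icc 1 V,
          2 * (C * (t ^ 7 * (v : ℝ) ^ (-(1 / 2) : ℝ) + t ^ 4 * v)) := by
        apply Finset.sum_le_sum
        intro v hv
        have := (hW v hv).2
        rw [ht7, ht4] at this
        linarith
    _ = 2 * C * (t ^ 7 * ∑ v ∈ Finset.Icc 1 V, (v : ℝ) ^ (-(1 / 2) : ℝ) +
          t ^ 4 * ∑ v ∈ Finset.Icc 1 V, (v : ℝ)) := by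
        rw [Finset.mul_sum, Finset.mul_sum, ← Finset.sum_add_distrib, Finset.mul_sum]
        apply Finset.sum_congr rfl
        intro v _
        ring
    _ ≤ 2 * C * (t ^ 7 * (2 * (4 * t)) + t ^ 4 * (256 * t ^ 4)) := by
        apply mul_le_mul_of_nonneg_left _ (by positivity)
        apply add_le_add
        · apply mul_le_mul_of_nonneg_left _ (by positivity)
          linarith
        · apply mul_le_mul_of_nonneg_left _ (by positivity)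
          linarith
    _ = 528 * C * t ^ 8 := by ring
    _ = 528 * C * T := by rw [ht8]

end RC91
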