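import Pool.Agent.LibLS91.Defs
import Pool.Agent.LibRC91.L2

/-!
# [LS91 LB1] elementary facts on `cc` and `nn`
PLAN. `LB1_mul`: `cc` and `nn` are products over disjoint sets of prime divisors of `m`. `LB1_dvd`: if `p ∤ x` then `p` is a
factor of the product `nn`, so `p ≤ nn`. `LB1_sq`: L2_arith of LibRC91 gives `y1^2 - A m1^2 = p^j x1^3`, `j ≥ 1`, `p ∤ m1`:
in `ZMod p`: `A = (y1/m1)^2`.
-/
set_option autoImplicit false
namespace RC91

private theorem LB1_nnpos (A m x : ℤ) : 0 < nn A m x := by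
  refine Finset.prod_pos fun p hp => ?_
  exact (Nat.prime_of_mem_primeFactors (Finset.mem_filter.1 hp).1).pos

theorem LB1_mul (A m x : ℤ) (hm : m ≠ 0) : cc A m x * nn A m x ≤ m.natAbs := by
  have hm' : 0 < m.natAbs := Int.natAbs_pos.2 hm
  unfold cc nn
  rw [← Finset.prod_union]
  · refine Nat.le_of_dvd hm' (dvd_trans (Finset.prod_dvd_prod_of_subset _ _ _ ?_)
      (Nat.prod_primeFactors_dvd m.natAbs))
    exact Finset.union_subset (Finset.filter_subset _ _) (Finset.filter_subset _ _)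
  · rw [Finset.disjoint_filter]
    rintro p - ⟨-, -, h1⟩ ⟨-, -, h2⟩
    exact h2 h1

theorem LB1_ccpos (A m x : ℤ) : 1 ≤ cc A m x := by
  have h : 0 < cc A m x := by
    refine Finset.prod_pos fun p hp => ?_
    exact (Nat.prime_of_mem_primeFactors (Finset.mem_filter.1 hp).1).pos
  exact h

theorem LB1_dvd (A m x : ℤ) (hm : m ≠ 0) (p : ℕ) (hp : p.Prime) (hp3 : 3 < p)
    (hpm : (p : ℤ) ∣ m) (hpA : ¬ ((p : ℤ) ∣ A)) (hn : nn A m x < p) : (p : ℤ) ∣ x := by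
  by_contra hx
  have h1 : p ∈ m.natAbs.primeFactors.filter
      (fun p : ℕ => 3 < p ∧ ¬ ((p : ℤ) ∣ A) ∧ ¬ ((p : ℤ) ∣ x)) := by
    rw [Finset.mem_filter, Nat.mem_primeFactors]
    exact ⟨⟨hp, Int.natCast_dvd.1 hpm, Int.natAbs_ne_zero.2 hm⟩, hp3, hpA, hx⟩
  have h2 : p ∣ nn A m x := Finset.dvd_prod_of_mem (fun p : ℕ => p) h1
  have h3 := Nat.le_of_dvd (LB1_nnpos A m x) h2
  omega

theorem LB1_sq (A : ℤ) (hA : Squarefree A) (p : ℕ) (hp : p.Prime) (x y m : ℤ)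
    (e : y ^ 2 - A * m ^ 2 = x ^ 3) (h6 : ¬ ((p : ℤ) ^ 6 ∣ A * m ^ 2)) (hA' : A * m ^ 2 ≠ 0)
    (hpm : (p : ℤ) ∣ m) (hpx : (p : ℤ) ∣ x ∨ (p : ℤ) ∣ A) : IsSquare ((A : ℤ) : ZMod p) := by
  have := Fact.mk hp
  by_cases hpA : (p : ℤ) ∣ A
  · rw [(ZMod.intCast_zmod_eq_zero_iff_dvd A p).2 hpA]
    exact IsSquare.zero
  · have hx : (p : ℤ) ∣ x := by
      rcases hpx with h | h
      · exact h
      · exact absurd h hpA
    obtain ⟨j, hj, x1, y1, m1, -, -, -, hm1, -, e1⟩ := L2_arith A hA p hp x y m e h6 hA' hpm hpA hx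
    have hm1' : ((m1 : ℤ) : ZMod p) ≠ 0 := by
      rw [Ne, ZMod.intCast_zmod_eq_zero_iff_dvd]
      exact hm1
    have h1 : ((y1 ^ 2 - A * m1 ^ 2 : ℤ) : ZMod p) = (((p : ℤ) ^ j * x1 ^ 3 : ℤ) : ZMod p) := by
      rw [e1]
    have hj0 : j ≠ 0 := by rcases hj with rfl | rfl <;> norm_num
    have h2 : ((y1 : ℤ) : ZMod p) ^ 2 = ((A : ℤ) : ZMod p) * ((m1 : ℤ) : ZMod p) ^ 2 := by
      push_cast at h1
      rw [ZMod.natCast_self, zero_pow hj0, zero_mul, sub_eq_zero] at h1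
      exact h1
    refine ⟨((y1 : ℤ) : ZMod p) / ((m1 : ℤ) : ZMod p), ?_⟩
    field_simp
    rw [← h2]

end RC91
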