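import Pool.Agent.LibLS91.LB2a

/-!
# [LS91 LB2] integers which are squares modulo all primes of `d`
PLAN. `A ↦ A % d` (natural residue) maps the set to the set of LB2a, and a residue class has at most `(2T)/d + 1` elements in
`[-T, T]`: total `≤ (3 T/d) ∏ (p+1)/2 = 3 T 2^(-ω) ∏ (1 + 1/p)` (`d = ∏ p`, `d ≤ T`). With `ω = d.primeFactors.card ≤ p` for all
`p ∣ d`: `∏ (1 + 1/p) ≤ (1 + 1/ω)^ω ≤ e < 3` (`Real.add_one_le_exp`: `∏ (1+1/p) ≤ exp (∑ 1/p) ≤ exp 1`; `Real.exp_one_lt_d9`). `ω = 0` trivial.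
-/
set_option autoImplicit false
namespace RC91

private theorem LB2_fib {d T : ℕ} (hd : 0 < d) (s : Finset ℤ) (hs : ∀ A ∈ s, |A| ≤ (T : ℤ))
    (r : ℕ) : (s.filter (fun A : ℤ => (A % (d : ℤ)).toNat = r)).card ≤ 2 * T / d + 1 := by
  have hd' : (0 : ℤ) < (d : ℤ) := by exact_mod_cast hd
  have h1 : (s.filter (fun A : ℤ => (A % (d : ℤ)).toNat = r)).card ≤
      (Finset.Icc (-(((T : ℤ) + r) / d)) (((T : ℤ) - r) / d)).card := by
    refine Finset.card_le_card_of_injOn (fun A => A / (d : ℤ)) ?_ ?_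
    · intro A hA
      rw [Finset.mem_coe, Finset.mem_filter] at hA
      have h2 := abs_le.mp (hs A hA.1)
      have h3 := Int.emod_nonneg A hd'.ne'
      have h4 : A % (d : ℤ) = r := by
        have := Int.toNat_of_nonneg h3
        rw [hA.2] at this
        exact this.symm
      have h5 := Int.mul_ediv_add_emod A (d : ℤ)
      rw [h4] at h5
      rw [Finset.mem_coe, Finset.mem_Icc]
      constructor
      · rw [neg_le, Int.le_ediv_iff_mul_le hd']
        linarith [h2.1, mul_comm (d : ℤ) (A / d)]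
      · rw [Int.le_ediv_iff_mul_le hd']
        linarith [h2.2, mul_comm (d : ℤ) (A / d)]
    · intro A hA A' hA' h
      rw [Finset.mem_coe, Finset.mem_filter] at hA hA'
      have h3 := Int.emod_nonneg A hd'.ne'
      have h3' := Int.emod_nonneg A' hd'.ne'
      have h4 : A % (d : ℤ) = A' % (d : ℤ) := by omega
      have h5 := Int.mul_ediv_add_emod A (d : ℤ)
      have h5' := Int.mul_ediv_add_emod A' (d : ℤ)
      simp only at h
      rw [← h5, ← h5', h, h4]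
  refine h1.trans ?_
  rw [Int.card_Icc]
  have h2 : ((T : ℤ) - r) / d + ((T : ℤ) + r) / d ≤ (2 * (T : ℤ)) / d := by
    rw [Int.le_ediv_iff_mul_le hd', add_mul]
    have e1 := Int.ediv_mul_le ((T : ℤ) - r) hd'.ne'
    have e2 := Int.ediv_mul_le ((T : ℤ) + r) hd'.ne'
    linarith
  have h3 : (2 * (T : ℤ)) / d = ((2 * T / d : ℕ) : ℤ) := by push_cast; rfl
  have h4 : (0 : ℤ) ≤ (2 * (T : ℤ)) / d := by positivity
  rw [h3] at h2 h4
  generalize ((T : ℤ) - r) / d = x at h2 ⊢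
  generalize ((T : ℤ) + r) / d = y at h2 ⊢
  generalize 2 * T / d = z at h2 h4 ⊢
  omega

private theorem LB2_prod (s : Finset ℕ) (hp : ∀ p ∈ s, 0 < p) (hw : ∀ p ∈ s, s.card ≤ p) :
    ∏ p ∈ s, (((p : ℝ) + 1) / 2) ≤ (∏ p ∈ s, (p : ℝ)) * ((1 / 2 : ℝ) ^ s.card * 3) := by
  have h1 : ∏ p ∈ s, (((p : ℝ) + 1) / 2) =
      (∏ p ∈ s, (p : ℝ)) * ((1 / 2 : ℝ) ^ s.card * ∏ p ∈ s, ((p : ℝ)⁻¹ + 1)) := by
    rw [← Finset.prod_const, ← Finset.prod_mul_distrib, ← Finset.prod_mul_distrib]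
    refine Finset.prod_congr rfl fun p hps => ?_
    have : (p : ℝ) ≠ 0 := by exact_mod_cast (hp p hps).ne'
    field_simp
    ring
  rw [h1]
  have h2 : ∏ p ∈ s, ((p : ℝ)⁻¹ + 1) ≤ 3 := by
    have h3 : ∏ p ∈ s, ((p : ℝ)⁻¹ + 1) ≤ Real.exp (∑ p ∈ s, (p : ℝ)⁻¹) := by
      rw [Real.exp_sum]
      exact Finset.prod_le_prod (fun p _ => by positivity) fun p _ => Real.add_one_le_exp _
    have h4 : ∑ p ∈ s, (p : ℝ)⁻¹ ≤ 1 := by
      rcases s.eq_empty_or_nonempty with rfl | hne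
      · simp
      have hc : (0 : ℝ) < s.card := by exact_mod_cast hne.card_pos
      have h5 : ∑ p ∈ s, (p : ℝ)⁻¹ ≤ ∑ p ∈ s, (s.card : ℝ)⁻¹ := by
        refine Finset.sum_le_sum fun p hps => ?_
        exact inv_anti₀ hc (by exact_mod_cast hw p hps)
      refine h5.trans (le_of_eq ?_)
      rw [Finset.sum_const, nsmul_eq_mul, mul_inv_cancel₀ hc.ne']
    have h5 : Real.exp (∑ p ∈ s, (p : ℝ)⁻¹) ≤ Real.exp 1 := Real.exp_le_exp.mpr h4
    linarith [Real.exp_one_lt_d9]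
  gcongr

theorem LB2 (d T : ℕ) (hd : Squarefree d) (h2 : ∀ p ∈ d.primeFactors, p ≠ 2)
    (hw : ∀ p ∈ d.primeFactors, d.primeFactors.card ≤ p) (hT : d ≤ T) :
    {A : ℤ | |A| ≤ T ∧ ∀ p ∈ d.primeFactors, IsSquare ((A : ℤ) : ZMod p)}.Finite ∧
    ({A : ℤ | |A| ≤ T ∧ ∀ p ∈ d.primeFactors, IsSquare ((A : ℤ) : ZMod p)}.ncard : ℝ) ≤
      9 * T * (1 / 2 : ℝ) ^ d.primeFactors.card := by
  have hd0 : 0 < d := Nat.pos_of_ne_zero hd.ne_zero
  have hd0' : (0 : ℤ) < (d : ℤ) := by exact_mod_cast hd0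
  set S : Set ℤ := {A : ℤ | |A| ≤ T ∧ ∀ p ∈ d.primeFactors, IsSquare ((A : ℤ) : ZMod p)} with hS
  have hfin : S.Finite := by
    refine (Set.finite_Icc (-(T : ℤ)) T).subset fun A hA => ?_
    exact Set.mem_Icc.mpr (abs_le.mp hA.1)
  refine ⟨hfin, ?_⟩
  set R : Set ℕ := {r : ℕ | r < d ∧ ∀ p ∈ d.primeFactors, IsSquare ((r : ℕ) : ZMod p)} with hR
  have hRfin : R.Finite := (Set.finite_lt_nat d).subset fun r hr => hr.1
  have hcard : S.ncard ≤ (2 * T / d + 1) * R.ncard := by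
    rw [Set.ncard_eq_toFinset_card S hfin, Set.ncard_eq_toFinset_card R hRfin]
    refine (Finset.card_le_mul_card_image (f := fun A : ℤ => (A % (d : ℤ)).toNat) hfin.toFinset
      (2 * T / d + 1) fun r _ => ?_).trans ?_
    · exact LB2_fib hd0 _ (fun A hA => ((Set.Finite.mem_toFinset hfin).mp hA).1) r
    · refine Nat.mul_le_mul_left _ (Finset.card_le_card ?_)
      intro r hr
      obtain ⟨A, hA, rfl⟩ := Finset.mem_image.mp hr
      rw [Set.Finite.mem_toFinset] at hA ⊢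
      have h3 := Int.emod_nonneg A hd0'.ne'
      have h4 := Int.emod_lt_of_pos A hd0'
      refine ⟨by omega, fun p hp => ?_⟩
      have h5 : (((A % (d : ℤ)).toNat : ℕ) : ZMod p) = ((A : ℤ) : ZMod p) := by
        have h6 : (((A % (d : ℤ)).toNat : ℕ) : ℤ) = A % (d : ℤ) := Int.toNat_of_nonneg h3
        have h7 : (((A % (d : ℤ)).toNat : ℕ) : ZMod p) =
            ((((A % (d : ℤ)).toNat : ℕ) : ℤ) : ZMod p) := by push_cast; rfl
        rw [h7, h6, ZMod.intCast_eq_intCast_iff]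
        have h8 : (p : ℤ) ∣ (d : ℤ) := by exact_mod_cast Nat.dvd_of_mem_primeFactors hp
        exact (Int.mod_modEq A d).of_dvd h8
      rw [h5]
      exact hA.2 p hp
  have hRc : (R.ncard : ℝ) ≤ ∏ p ∈ d.primeFactors, (((p : ℝ) + 1) / 2) := LB2a d hd h2
  have hprod : (∏ p ∈ d.primeFactors, (p : ℝ)) = (d : ℝ) := by
    rw [← Nat.cast_prod, Nat.prod_primeFactors_of_squarefree hd]
  have hRc2 : (R.ncard : ℝ) ≤ (d : ℝ) * ((1 / 2 : ℝ) ^ d.primeFactors.card * 3) := by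
    refine hRc.trans ?_
    rw [← hprod]
    exact LB2_prod _ (fun p hp => (Nat.prime_of_mem_primeFactors hp).pos) hw
  have hdr : (0 : ℝ) < (d : ℝ) := by exact_mod_cast hd0
  have h3 : ((2 * T / d + 1 : ℕ) : ℝ) ≤ 3 * T / d := by
    have e1 : ((2 * T / d : ℕ) : ℝ) ≤ ((2 * T : ℕ) : ℝ) / (d : ℝ) := Nat.cast_div_le
    have e2 : (1 : ℝ) ≤ (T : ℝ) / d := by
      rw [le_div_iff₀ hdr, one_mul]
      exact_mod_cast hT
    push_cast at e1 ⊢
    have e3 : 3 * (T : ℝ) / d = 2 * T / d + T / d := by ring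
    rw [e3]
    linarith
  have h4 : (S.ncard : ℝ) ≤ ((2 * T / d + 1 : ℕ) : ℝ) * R.ncard := by exact_mod_cast hcard
  refine h4.trans ((mul_le_mul h3 hRc2 (Nat.cast_nonneg _) (by positivity)).trans (le_of_eq ?_))
  field_simp
  ring

end RC91
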