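import Pool.Agent.LibLS91.Defs

/-!
# [LS91 LB2a] residues modulo `d` which are squares modulo all primes of `d`
PLAN. Induction on `d` (`Nat.recOnPosPrimePosCoprime` or induction over the set of primes; `d` square free, `d = p d'`, `p ∤ d'`):
`r ↦ (r % p, r % d')` is injective on `{r < d}` (CRT), the number for `p` is the number of squares of `ZMod p`, which is
`≤ (p+1)/2` for odd `p` (the squares are the image of `0..(p-1)/2` under `x ↦ x^2`, since `x^2 = (p-x)^2`).
-/
set_option autoImplicit false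
namespace RC91

private lemma LB2a_card (p : ℕ) (hp : p.Prime) (h2 : p ≠ 2) (S : Finset ℕ)
    (hS : ∀ r ∈ S, r < p ∧ IsSquare ((r : ℕ) : ZMod p)) :
    (S.card : ℝ) ≤ ((p : ℝ) + 1) / 2 := by
  have : Fact p.Prime := ⟨hp⟩
  have : NeZero p := ⟨hp.ne_zero⟩
  have hsub : S ⊆ (Finset.range (p / 2 + 1)).image (fun n => n ^ 2 % p) := by
    intro r hr
    obtain ⟨hrp, x, hx⟩ := hS r hr
    rw [Finset.mem_image]
    refine ⟨x.valMinAbs.natAbs, ?_, ?_⟩
    · rw [Finset.mem_range]
      have := ZMod.natAbs_valMinAbs_le x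
      omega
    · have h1 : ((x.valMinAbs.natAbs ^ 2 : ℕ) : ZMod p) = ((r : ℕ) : ZMod p) := by
        rw [hx]
        have h3 : ((x.valMinAbs.natAbs ^ 2 : ℕ) : ℤ) = x.valMinAbs ^ 2 := by
          rw [Nat.cast_pow, Int.natAbs_sq]
        have h4 : ((x.valMinAbs.natAbs ^ 2 : ℕ) : ZMod p) = ((x.valMinAbs ^ 2 : ℤ) : ZMod p) := by
          rw [← h3, Int.cast_natCast]
        rw [h4, Int.cast_pow, ZMod.coe_valMinAbs, sq]
      have h5 := (ZMod.natCast_eq_natCast_iff' _ _ _).mp h1
      rw [Nat.mod_eq_of_lt hrp] at h5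
      exact h5
  have h6 : S.card ≤ p / 2 + 1 := by
    calc S.card ≤ ((Finset.range (p / 2 + 1)).image (fun n => n ^ 2 % p)).card :=
          Finset.card_le_card hsub
      _ ≤ (Finset.range (p / 2 + 1)).card := Finset.card_image_le
      _ = p / 2 + 1 := Finset.card_range _
  have hodd : p % 2 = 1 := by
    rcases hp.eq_two_or_odd with h | h
    · exact absurd h h2
    · exact h
  have h7 : 2 * S.card ≤ p + 1 := by omega
  have h8 : (2 : ℝ) * (S.card : ℝ) ≤ (p : ℝ) + 1 := by exact_mod_cast h7
  linarith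

theorem LB2a (d : ℕ) (hd : Squarefree d) (h2 : ∀ p ∈ d.primeFactors, p ≠ 2) :
    (({r : ℕ | r < d ∧ ∀ p ∈ d.primeFactors, IsSquare ((r : ℕ) : ZMod p)}.ncard : ℕ) : ℝ) ≤
      ∏ p ∈ d.primeFactors, (((p : ℝ) + 1) / 2) := by
  classical
  obtain ⟨F, hF⟩ : ∃ F : Finset ℕ, F = (Finset.range d).filter
    (fun r => ∀ p ∈ d.primeFactors, IsSquare ((r : ℕ) : ZMod p)) := ⟨_, rfl⟩
  have hset : {r : ℕ | r < d ∧ ∀ p ∈ d.primeFactors, IsSquare ((r : ℕ) : ZMod p)} = (F : Set ℕ) := by
    ext r
    rw [hF]
    simp only [Finset.coe_filter, Finset.mem_range]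
  rw [hset, Set.ncard_coe_finset]
  obtain ⟨S, hS⟩ : ∃ S : ℕ → Finset ℕ, ∀ p, S p = (Finset.range p).filter
    (fun r => IsSquare ((r : ℕ) : ZMod p)) := ⟨_, fun p => rfl⟩
  have hcard : F.card ≤ (d.primeFactors.pi S).card := by
    apply Finset.card_le_card_of_injOn (fun r => (fun p _ => r % p))
    · intro r hr
      have hr' : r ∈ F := hr
      rw [hF, Finset.mem_filter, Finset.mem_range] at hr'
      show (fun p _ => r % p) ∈ (d.primeFactors.pi S : Finset _)
      rw [Finset.mem_pi]
      intro p hp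
      rw [hS, Finset.mem_filter, Finset.mem_range]
      have hpp := Nat.prime_of_mem_primeFactors hp
      refine ⟨Nat.mod_lt _ hpp.pos, ?_⟩
      have := hr'.2 p hp
      rwa [ZMod.natCast_mod]
    · intro r hr r' hr' heq
      have h1 : r ∈ F := hr
      have h1' : r' ∈ F := hr'
      rw [hF, Finset.mem_filter, Finset.mem_range] at h1 h1'
      have hmod : ∀ p ∈ d.primeFactors, r % p = r' % p := by
        intro p hp
        exact congrFun (congrFun heq p) hp
      have key : ∀ a b : ℕ, a < d → b < d → a ≤ b → (∀ p ∈ d.primeFactors, a % p = b % p) →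
          a = b := by
        intro a b ha hb hab hm
        have hdvd : (∏ p ∈ d.primeFactors, p) ∣ b - a := by
          apply Finset.prod_primes_dvd
          · intro p hp
            exact (Nat.prime_of_mem_primeFactors hp).prime
          · intro p hp
            exact (Nat.modEq_iff_dvd' hab).mp (hm p hp)
        rw [Nat.prod_primeFactors_of_squarefree hd] at hdvd
        have := Nat.eq_zero_of_dvd_of_lt hdvd (by omega)
        omega
      rcases le_total r r' with h | h
      · exact key r r' h1.1 h1'.1 h hmod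
      · exact (key r' r h1'.1 h1.1 h (fun p hp => (hmod p hp).symm)).symm
  have h9 : (F.card : ℝ) ≤ ((d.primeFactors.pi S).card : ℝ) := by exact_mod_cast hcard
  refine le_trans h9 ?_
  rw [Finset.card_pi, Nat.cast_prod]
  apply Finset.prod_le_prod
  · intro p _
    positivity
  · intro p hp
    apply LB2a_card p (Nat.prime_of_mem_primeFactors hp) (h2 p hp)
    intro r hr
    rw [hS, Finset.mem_filter, Finset.mem_range] at hr
    exact hr

end RC91
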