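import Pool.Agent.LibLS91.Defs
import Pool.Agent.LibMaier.Mertens2

/-!
# [LS91 LB3b] Euler product for the logarithmic mean
PLAN. `f n = (1/2)^(wbig W n)` depends on the set of prime factors. `∑_{n ≤ x} f(n)/n ≤ ∏_{p ≤ x} (1 + f(p)/(p-1))`, i.e.
`∏_{p ≤ W} (1 + 1/(p-1)) ∏_{W < p ≤ x} (1 + 1/(2(p-1)))` (finite version: induction over the primes, or
`EulerProduct`/ `Nat.factoredNumbers` summability: `∑_{n ∈ factoredNumbers s} f(n)/n = ∏_{p ∈ s} (1 + ∑_{k ≥ 1} f(p)/p^k)`; the library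
RC91 has a similar Euler product in U5.lean / QP.lean / QM.lean). Take logarithms: `log ≤ ∑_{p ≤ W} 1/(p-1) + (1/2) ∑_{W < p ≤ x} 1/(p-1)
≤ ∑_{p ≤ W} 1/p + (1/2) ∑_{W < p ≤ x} 1/p + 2` (`1/(p-1) - 1/p = 1/(p(p-1))`, sum `≤ 1`) `= (1/2) ∑_{p ≤ W} 1/p + (1/2) ∑_{p ≤ x} 1/p + 2
≤ (1/2) log log W + (1/2) log log x + C` by `mertens_second` (LibMaier.Mertens2; read its statement: `DR t = RN ⌊t⌋ - log log t`
converges, so `|∑_{p ≤ n} 1/p - log log n| ≤ C` for all `n ≥ 2`). Exponentiate.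
-/
set_option autoImplicit false
namespace RC91

open Pool.Agent.LibMaier

private noncomputable def LB3b_f (W n : ℕ) : ℝ := (1 / 2 : ℝ) ^ wbig W n / (n : ℝ)

private theorem LB3b_one (W : ℕ) : LB3b_f W 1 = 1 := by simp [LB3b_f, wbig]

private theorem LB3b_nonneg (W n : ℕ) : 0 ≤ LB3b_f W n := by unfold LB3b_f; positivity

private theorem LB3b_mul (W : ℕ) {m n : ℕ} (h : m.Coprime n) :
    LB3b_f W (m * n) = LB3b_f W m * LB3b_f W n := by
  unfold LB3b_f
  have h1 : wbig W (m * n) = wbig W m + wbig W n := by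
    unfold wbig
    rw [h.primeFactors_mul, Finset.filter_union, Finset.card_union_of_disjoint]
    exact Finset.disjoint_filter_filter h.disjoint_primeFactors
  rw [h1, pow_add, Nat.cast_mul, mul_div_mul_comm]

private noncomputable def LB3b_c (W p : ℕ) : ℝ := if W < p then 1 / 2 else 1

private theorem LB3b_c_nonneg (W p : ℕ) : 0 ≤ LB3b_c W p := by
  unfold LB3b_c; split_ifs <;> norm_num

private theorem LB3b_c_le (W p : ℕ) : LB3b_c W p ≤ 1 := by
  unfold LB3b_c; split_ifs <;> norm_num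

private theorem LB3b_pow (W : ℕ) {p : ℕ} (hp : p.Prime) (k : ℕ) :
    LB3b_f W (p ^ (k + 1)) = LB3b_c W p * (1 / (p : ℝ)) * (1 / (p : ℝ)) ^ k := by
  unfold LB3b_f LB3b_c wbig
  rw [Nat.primeFactors_prime_pow (Nat.succ_ne_zero k) hp, Finset.filter_singleton, Nat.cast_pow]
  have hp0 : (p : ℝ) ≠ 0 := by exact_mod_cast hp.ne_zero
  by_cases h : W < p
  · rw [if_pos h, if_pos h, Finset.card_singleton, pow_one, pow_succ, one_div_pow]
    field_simp
  · rw [if_neg h, if_neg h, Finset.card_empty, pow_zero, pow_succ, one_div_pow]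
    field_simp

private theorem LB3b_hasSum (W : ℕ) {p : ℕ} (hp : p.Prime) :
    HasSum (fun k : ℕ => LB3b_f W (p ^ k)) (1 + LB3b_c W p / ((p : ℝ) - 1)) := by
  have hp1 : (1 : ℝ) < p := by exact_mod_cast hp.one_lt
  have hp0 : (p : ℝ) ≠ 0 := by positivity
  have hpm : (p : ℝ) - 1 ≠ 0 := by linarith
  have h1 : HasSum (fun k : ℕ => (1 / (p : ℝ)) ^ k) (1 - 1 / (p : ℝ))⁻¹ :=
    hasSum_geometric_of_lt_one (by positivity) (by rw [div_lt_one (by positivity)]; exact hp1)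
  have h2 := h1.mul_left (LB3b_c W p * (1 / (p : ℝ)))
  have h3 : HasSum (fun k : ℕ => LB3b_f W (p ^ (k + 1)))
      (LB3b_c W p * (1 / (p : ℝ)) * (1 - 1 / (p : ℝ))⁻¹) := by
    have e : (fun k : ℕ => LB3b_f W (p ^ (k + 1))) =
        fun k : ℕ => LB3b_c W p * (1 / (p : ℝ)) * (1 / (p : ℝ)) ^ k :=
      funext fun k => LB3b_pow W hp k
    rw [e]
    exact h2
  have h4 := HasSum.zero_add (f := fun k : ℕ => LB3b_f W (p ^ k)) h3
  have e1 : LB3b_f W (p ^ 0) = 1 := by rw [pow_zero, LB3b_one]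
  have e2 : LB3b_c W p * (1 / (p : ℝ)) * (1 - 1 / (p : ℝ))⁻¹ = LB3b_c W p / ((p : ℝ) - 1) := by
    have e3 : 1 - 1 / (p : ℝ) = ((p : ℝ) - 1) / p := by field_simp
    rw [e3, inv_div]
    field_simp
  rw [e2] at h4
  simpa only [e1] using h4

private theorem LB3b_RN : ∃ C : ℝ, 0 < C ∧ ∀ N : ℕ, 2 ≤ N →
    RN N ≤ Real.log (Real.log N) + C := by
  obtain ⟨M, hM⟩ := mertens_second
  have h1 : ∀ᶠ t in Filter.atTop, DR t < |M| + 1 :=
    hM.eventually (Iio_mem_nhds (by have := le_abs_self M; linarith))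
  obtain ⟨T, hT⟩ := Filter.eventually_atTop.1 h1
  refine ⟨max (|M| + 1) (RN ⌈T⌉₊ - Real.log (Real.log 2)), ?_, fun N hN => ?_⟩
  · exact lt_of_lt_of_le (by positivity) (le_max_left _ _)
  · rcases le_or_gt ⌈T⌉₊ N with h | h
    · have h2 : T ≤ (N : ℝ) := (Nat.le_ceil T).trans (by exact_mod_cast h)
      have h3 := hT N h2
      rw [DR, Nat.floor_natCast] at h3
      have h4 := le_max_left (|M| + 1) (RN ⌈T⌉₊ - Real.log (Real.log 2))
      linarith
    · have h2 : RN N ≤ RN ⌈T⌉₊ := by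
        unfold RN
        refine Finset.sum_le_sum_of_subset_of_nonneg ?_ fun _ _ _ => by positivity
        intro p hp
        rw [mem_PN] at hp ⊢
        exact ⟨hp.1.trans h.le, hp.2⟩
      have h3 : Real.log 2 ≤ Real.log N :=
        Real.log_le_log (by norm_num) (by exact_mod_cast hN)
      have h4 : Real.log (Real.log 2) ≤ Real.log (Real.log N) :=
        Real.log_le_log (Real.log_pos (by norm_num)) h3
      have h5 := le_max_right (|M| + 1) (RN ⌈T⌉₊ - Real.log (Real.log 2))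
      linarith

private theorem LB3b_tail (x : ℕ) : ∑ p ∈ PN x, 1 / ((p : ℝ) * ((p : ℝ) - 1)) ≤ 1 := by
  have h0 : ∀ N : ℕ, ∑ n ∈ Finset.Icc 2 (N + 1), 1 / ((n : ℝ) * ((n : ℝ) - 1)) =
      1 - 1 / ((N : ℝ) + 1) := by
    intro N
    induction N with
    | zero => simp
    | succ N ih =>
      rw [Finset.sum_Icc_succ_top (by omega), ih]
      push_cast
      have h1 : (N : ℝ) + 1 ≠ 0 := by positivity
      have h2 : (N : ℝ) + 1 + 1 ≠ 0 := by positivity
      have h3 : (N : ℝ) + 1 + 1 - 1 = (N : ℝ) + 1 := by ring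
      rw [h3]
      field_simp
      ring
  calc ∑ p ∈ PN x, 1 / ((p : ℝ) * ((p : ℝ) - 1))
      ≤ ∑ n ∈ Finset.Icc 2 (x + 1), 1 / ((n : ℝ) * ((n : ℝ) - 1)) := by
        refine Finset.sum_le_sum_of_subset_of_nonneg ?_ fun n hn _ => ?_
        · intro p hp
          rw [mem_PN] at hp
          exact Finset.mem_Icc.2 ⟨hp.2.two_le, by omega⟩
        · have h1 : (2 : ℝ) ≤ n := by exact_mod_cast (Finset.mem_Icc.1 hn).1
          have h2 : (0 : ℝ) ≤ (n : ℝ) - 1 := by linarith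
          positivity
    _ = 1 - 1 / ((x : ℝ) + 1) := h0 x
    _ ≤ 1 := by
        have : (0 : ℝ) ≤ 1 / ((x : ℝ) + 1) := by positivity
        linarith

theorem LB3b : ∃ C : ℝ, 0 < C ∧ ∀ W x : ℕ, 2 ≤ W → W ≤ x →
    ∑ n ∈ Finset.Icc 1 x, (1 / 2 : ℝ) ^ wbig W n / (n : ℝ) ≤
      C * Real.sqrt (Real.log W) * Real.sqrt (Real.log x) := by
  obtain ⟨C, hC0, hC⟩ := LB3b_RN
  refine ⟨Real.exp (C + 1), Real.exp_pos _, fun W x hW hWx => ?_⟩
  have hlogW : 0 < Real.log W := Real.log_pos (by exact_mod_cast hW)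
  have hlogx : 0 < Real.log x := Real.log_pos (by exact_mod_cast (hW.trans hWx))
  -- the Euler product
  have h1 := EulerProduct.summable_and_hasSum_factoredNumbers_prod_filter_prime_tsum
    (f := LB3b_f W) (LB3b_one W) (fun {m n} h => LB3b_mul W h)
    (fun {p} hp => (LB3b_hasSum W hp).summable.norm) (PN x)
  have h2 : HasSum ((Nat.factoredNumbers (PN x)).indicator (LB3b_f W))
      (∏ p ∈ PN x with Nat.Prime p, ∑' (n : ℕ), LB3b_f W (p ^ n)) :=
    hasSum_subtype_iff_indicator.1 h1.2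
  have h3 : ∑ n ∈ Finset.Icc 1 x, (1 / 2 : ℝ) ^ wbig W n / (n : ℝ) ≤
      ∏ p ∈ PN x with Nat.Prime p, ∑' (n : ℕ), LB3b_f W (p ^ n) := by
    refine le_trans (le_of_eq ?_) (sum_le_hasSum (Finset.Icc 1 x) (fun i _ => ?_) h2)
    · refine Finset.sum_congr rfl fun n hn => ?_
      rw [Set.indicator_of_mem]
      · rfl
      · rw [Nat.mem_factoredNumbers]
        rw [Finset.mem_Icc] at hn
        refine ⟨by omega, fun p hp => ?_⟩
        have hpp := Nat.prime_of_mem_primeFactorsList hp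
        have hpd := Nat.dvd_of_mem_primeFactorsList hp
        rw [mem_PN]
        exact ⟨(Nat.le_of_dvd (by omega) hpd).trans hn.2, hpp⟩
    · exact Set.indicator_nonneg (fun n _ => LB3b_nonneg W n) i
  have hfil : (PN x).filter Nat.Prime = PN x := by
    refine Finset.filter_true_of_mem fun p hp => (mem_PN.1 hp).2
  rw [hfil] at h3
  have h4 : ∏ p ∈ PN x, ∑' (n : ℕ), LB3b_f W (p ^ n) ≤
      ∏ p ∈ PN x, Real.exp (LB3b_c W p * (1 / (p : ℝ)) + 1 / ((p : ℝ) * ((p : ℝ) - 1))) := by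
    refine Finset.prod_le_prod (fun p hp => tsum_nonneg fun n => LB3b_nonneg W _) fun p hp => ?_
    have hpp := (mem_PN.1 hp).2
    have hp1 : (1 : ℝ) < p := by exact_mod_cast hpp.one_lt
    have hp0 : (0 : ℝ) < p := by linarith
    have hpm : (0 : ℝ) < (p : ℝ) - 1 := by linarith
    rw [(LB3b_hasSum W hpp).tsum_eq]
    refine le_trans (by rw [add_comm]; exact Real.add_one_le_exp _) (Real.exp_le_exp.2 ?_)
    have e : LB3b_c W p / ((p : ℝ) - 1) =
        LB3b_c W p * (1 / (p : ℝ)) + LB3b_c W p * (1 / ((p : ℝ) * ((p : ℝ) - 1))) := by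
      field_simp
      ring
    rw [e]
    have h5 : LB3b_c W p * (1 / ((p : ℝ) * ((p : ℝ) - 1))) ≤ 1 * (1 / ((p : ℝ) * ((p : ℝ) - 1))) :=
      mul_le_mul_of_nonneg_right (LB3b_c_le W p) (by positivity)
    linarith
  have h5 : ∑ p ∈ PN x, LB3b_c W p * (1 / (p : ℝ)) = (RN W + RN x) / 2 := by
    have e1 : ∀ p ∈ PN x, LB3b_c W p * (1 / (p : ℝ)) =
        (1 / 2) * (1 / (p : ℝ)) + (1 / 2) * (if p ∈ PN W then 1 / (p : ℝ) else 0) := by
      intro p hp
      have hpp := (mem_PN.1 hp).2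
      unfold LB3b_c
      by_cases h : W < p
      · have h' : p ∉ PN W := fun h' => by have := (mem_PN.1 h').1; omega
        rw [if_pos h, if_neg h']
        ring
      · have h' : p ∈ PN W := mem_PN.2 ⟨by omega, hpp⟩
        rw [if_neg h, if_pos h']
        ring
    rw [Finset.sum_congr rfl e1, Finset.sum_add_distrib, ← Finset.mul_sum, ← Finset.mul_sum,
      ← Finset.sum_filter]
    have e2 : (PN x).filter (fun p => p ∈ PN W) = PN W := by
      ext p
      rw [Finset.mem_filter, mem_PN, mem_PN]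
      constructor
      · exact fun h => h.2
      · exact fun h => ⟨⟨h.1.trans hWx, h.2⟩, h⟩
    rw [e2]
    unfold RN
    ring
  calc ∑ n ∈ Finset.Icc 1 x, (1 / 2 : ℝ) ^ wbig W n / (n : ℝ)
      ≤ ∏ p ∈ PN x, Real.exp (LB3b_c W p * (1 / (p : ℝ)) + 1 / ((p : ℝ) * ((p : ℝ) - 1))) :=
        h3.trans h4
    _ = Real.exp (∑ p ∈ PN x, (LB3b_c W p * (1 / (p : ℝ)) + 1 / ((p : ℝ) * ((p : ℝ) - 1)))) :=
        (Real.exp_sum _ _).symm
    _ ≤ Real.exp ((C + 1) + (Real.log (Real.log W) / 2 + Real.log (Real.log x) / 2)) := by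
        refine Real.exp_le_exp.2 ?_
        rw [Finset.sum_add_distrib, h5]
        have h6 := LB3b_tail x
        have h7 := hC W hW
        have h8 := hC x (hW.trans hWx)
        linarith
    _ = Real.exp (C + 1) * Real.sqrt (Real.log W) * Real.sqrt (Real.log x) := by
        rw [Real.exp_add (C + 1), Real.exp_add (Real.log (Real.log W) / 2), Real.exp_half, Real.exp_half, Real.exp_log hlogW,
          Real.exp_log hlogx, mul_assoc]

end RC91
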