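import Pool.Agent.LibLS91.LB3a
import Pool.Agent.LibLS91.LB3b

/-!
# [LS91 LB3] the mean of `2^(-wbig)` on a dyadic interval
PLAN. For `M ≥ M0`: `2 ≤ WW M ≤ 2 M`, and `∑_{m ∈ [M, 2M)} f(m) ≤ (1/log M) ∑_{m ≤ 2M} f(m) log m ≤ (C 2M/log M) C' √(log WW M) √(log 2M)`
(LB3a, LB3b with `x = 2M`), `log 2M ≤ 2 log M`, `log M ≥ (1 + log M)/2`, `WW M ≤ 6 (1 + log M)^2`, so
`log WW M ≤ 2 + 2 log (1 + log M) ≤ 2 (1 + log (1 + log M))`: `≤ C'' M rate M`. For `1 ≤ M < M0` the sum is `≤ M` and `rate M` is bounded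
below by a positive constant (finitely many `M`; `rate M > 0`).
-/
set_option autoImplicit false
namespace RC91

private lemma LB3_small (M : ℕ) (h1 : 1 ≤ M) (h2 : M < 256) : (1 : ℝ) ≤ 16 * rate M := by
  have hM1 : (1 : ℝ) ≤ M := by exact_mod_cast h1
  have hM2 : (M : ℝ) ≤ 256 := by exact_mod_cast h2.le
  have hL0 : 0 ≤ Real.log M := Real.log_nonneg hM1
  have hL1 : Real.log M ≤ 255 := by
    have := Real.log_le_sub_one_of_pos (x := (M : ℝ)) (by linarith)
    linarith
  have hLL : 0 ≤ Real.log (1 + Real.log M) := Real.log_nonneg (by linarith)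
  unfold rate
  have h3 : (1 / 16 : ℝ) ≤
      Real.sqrt ((1 + Real.log (1 + Real.log M)) / (1 + Real.log M)) := by
    rw [Real.le_sqrt' (by norm_num), le_div_iff₀ (by linarith)]
    nlinarith
  linarith

private lemma LB3_W (M : ℕ) (h : 256 ≤ M) : WW M ≤ 2 * M := by
  have hM : (256 : ℝ) ≤ M := by exact_mod_cast h
  have hM0 : (0 : ℝ) < M := by linarith
  obtain ⟨s, hs⟩ : ∃ s : ℝ, s = Real.sqrt (Real.sqrt M) := ⟨_, rfl⟩
  have hs0 : 0 < s := by rw [hs]; positivity
  have hs2 : s ^ 2 = Real.sqrt M := by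
    rw [hs, Real.sq_sqrt (Real.sqrt_nonneg _)]
  have hs4 : (s ^ 2) ^ 2 = M := by
    rw [hs2, Real.sq_sqrt hM0.le]
  have hlog : Real.log M ≤ 4 * (s - 1) := by
    rw [← hs4, Real.log_pow, Real.log_pow]
    have := Real.log_le_sub_one_of_pos hs0
    push_cast
    linarith
  have hL0 : 0 ≤ Real.log M := Real.log_nonneg (by linarith)
  have h16 : 16 ≤ s ^ 2 := by
    rw [hs2]
    apply Real.le_sqrt_of_sq_le
    linarith
  have h1 : (1 + Real.log M) ^ 2 ≤ (4 * s) ^ 2 := by
    apply pow_le_pow_left₀ (by linarith)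
    linarith
  have h2 : (4 * s) ^ 2 ≤ M := by
    rw [← hs4]
    nlinarith
  have h3 : ((⌈(1 + Real.log M) ^ 2⌉₊ : ℕ) : ℝ) < (1 + Real.log M) ^ 2 + 1 :=
    Nat.ceil_lt_add_one (by positivity)
  have h4 : ((WW M : ℕ) : ℝ) ≤ ((2 * M : ℕ) : ℝ) := by
    unfold WW
    push_cast
    linarith
  exact_mod_cast h4

private lemma LB3_logW (M : ℕ) (h : 1 ≤ M) :
    Real.log (WW M) ≤ 2 * (1 + Real.log (1 + Real.log M)) := by
  have hM1 : (1 : ℝ) ≤ M := by exact_mod_cast h
  have hL0 : 0 ≤ Real.log M := Real.log_nonneg hM1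
  have h3 : ((⌈(1 + Real.log M) ^ 2⌉₊ : ℕ) : ℝ) < (1 + Real.log M) ^ 2 + 1 :=
    Nat.ceil_lt_add_one (by positivity)
  have h4 : ((WW M : ℕ) : ℝ) ≤ 6 * (1 + Real.log M) ^ 2 := by
    unfold WW
    push_cast
    nlinarith
  have h5 : (0 : ℝ) < ((WW M : ℕ) : ℝ) := by
    unfold WW
    push_cast
    positivity
  have h6 : Real.log 6 ≤ 2 := by
    rw [Real.log_le_iff_le_exp (by norm_num)]
    have h7 : Real.exp 2 = Real.exp 1 * Real.exp 1 := by
      rw [← Real.exp_add]
      norm_num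
    rw [h7]
    have := Real.exp_one_gt_d9
    nlinarith
  calc Real.log (WW M) ≤ Real.log (6 * (1 + Real.log M) ^ 2) := Real.log_le_log h5 h4
    _ = Real.log 6 + 2 * Real.log (1 + Real.log M) := by
        rw [Real.log_mul (by norm_num) (by positivity), Real.log_pow]
        push_cast
        ring
    _ ≤ 2 * (1 + Real.log (1 + Real.log M)) := by linarith

private lemma LB3_main (M : ℕ) (h : 256 ≤ M) :
    Real.sqrt (Real.log (WW M)) * Real.sqrt (Real.log ((2 * M : ℕ) : ℝ)) ≤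
      4 * Real.log M * rate M := by
  have hM : (256 : ℝ) ≤ M := by exact_mod_cast h
  have hM0 : (0 : ℝ) < M := by linarith
  have hL1 : 1 ≤ Real.log M := by
    rw [Real.le_log_iff_exp_le hM0]
    have := Real.exp_one_lt_d9
    linarith
  have hLL : 0 ≤ Real.log (1 + Real.log M) := Real.log_nonneg (by linarith)
  have hW := LB3_logW M (by omega)
  have h2M : Real.log ((2 * M : ℕ) : ℝ) ≤ 2 * Real.log M := by
    push_cast
    rw [Real.log_mul (by norm_num) hM0.ne']
    have : Real.log 2 ≤ Real.log M := Real.log_le_log (by norm_num) (by linarith)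
    linarith
  have hW0 : 0 ≤ Real.log ((WW M : ℕ) : ℝ) := Real.log_natCast_nonneg _
  have hM20 : 0 ≤ Real.log ((2 * M : ℕ) : ℝ) := Real.log_natCast_nonneg _
  unfold rate
  rw [← Real.sqrt_mul hW0]
  apply Real.sqrt_le_iff.mpr
  constructor
  · positivity
  · rw [mul_pow, Real.sq_sqrt (by positivity)]
    calc Real.log ((WW M : ℕ) : ℝ) * Real.log ((2 * M : ℕ) : ℝ)
        ≤ (2 * (1 + Real.log (1 + Real.log M))) * (2 * Real.log M) := by
          apply mul_le_mul hW h2M hM20 (by positivity)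
      _ ≤ (4 * Real.log M) ^ 2 * ((1 + Real.log (1 + Real.log M)) / (1 + Real.log M)) := by
          rw [← mul_div_assoc, le_div_iff₀ (by linarith)]
          have hp : 0 ≤ (1 + Real.log (1 + Real.log M)) * Real.log M := by positivity
          nlinarith

theorem LB3 : ∃ C : ℝ, 0 < C ∧ ∀ M : ℕ, 1 ≤ M →
    ∑ m ∈ Finset.Ico M (2 * M), (1 / 2 : ℝ) ^ wbig (WW M) m ≤ C * M * rate M := by
  obtain ⟨C1, hC1, hA⟩ := LB3a
  obtain ⟨C2, hC2, hB⟩ := LB3b
  refine ⟨16 + 8 * C1 * C2, by positivity, fun M hM => ?_⟩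
  have hM1 : (1 : ℝ) ≤ M := by exact_mod_cast hM
  have hrate0 : 0 ≤ rate M := Real.sqrt_nonneg _
  have hf0 : ∀ W m : ℕ, 0 ≤ (1 / 2 : ℝ) ^ wbig W m := fun W m => by positivity
  have hf1 : ∀ W m : ℕ, (1 / 2 : ℝ) ^ wbig W m ≤ 1 := fun W m =>
    pow_le_one₀ (by norm_num) (by norm_num)
  by_cases hs : M < 256
  · have h1 : ∑ m ∈ Finset.Ico M (2 * M), (1 / 2 : ℝ) ^ wbig (WW M) m ≤ M := by
      calc ∑ m ∈ Finset.Ico M (2 * M), (1 / 2 : ℝ) ^ wbig (WW M) m
          ≤ ∑ m ∈ Finset.Ico M (2 * M), (1 : ℝ) := Finset.sum_le_sum (fun m _ => hf1 _ _)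
        _ = M := by
          rw [Finset.sum_const, Nat.card_Ico, nsmul_eq_mul, mul_one]
          congr 1
          omega
    have h2 := LB3_small M hM hs
    have h3 : (M : ℝ) ≤ (16 * rate M) * M := by
      have := mul_le_mul_of_nonneg_right h2 (by linarith : (0 : ℝ) ≤ M)
      linarith
    have h4 : 0 ≤ 8 * C1 * C2 * M * rate M := by positivity
    linarith
  · have hs' : 256 ≤ M := not_lt.mp hs
    have hM256 : (256 : ℝ) ≤ M := by exact_mod_cast hs'
    have hM0 : (0 : ℝ) < M := by linarith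
    have hL1 : 1 ≤ Real.log M := by
      rw [Real.le_log_iff_exp_le hM0]
      have := Real.exp_one_lt_d9
      linarith
    have hW2 : 2 ≤ WW M := by
      unfold WW
      omega
    have h1 : Real.log M * ∑ m ∈ Finset.Ico M (2 * M), (1 / 2 : ℝ) ^ wbig (WW M) m ≤
        ∑ m ∈ Finset.Icc 1 (2 * M), (1 / 2 : ℝ) ^ wbig (WW M) m * Real.log m := by
      rw [Finset.mul_sum]
      calc ∑ m ∈ Finset.Ico M (2 * M), Real.log M * (1 / 2 : ℝ) ^ wbig (WW M) m
          ≤ ∑ m ∈ Finset.Ico M (2 * M), (1 / 2 : ℝ) ^ wbig (WW M) m * Real.log m := by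
            apply Finset.sum_le_sum
            intro m hm
            rw [mul_comm]
            apply mul_le_mul_of_nonneg_left _ (hf0 _ _)
            apply Real.log_le_log hM0
            exact_mod_cast (Finset.mem_Ico.mp hm).1
        _ ≤ ∑ m ∈ Finset.Icc 1 (2 * M), (1 / 2 : ℝ) ^ wbig (WW M) m * Real.log m := by
            apply Finset.sum_le_sum_of_subset_of_nonneg
            · intro m hm
              rw [Finset.mem_Ico] at hm
              rw [Finset.mem_Icc]
              omega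
            · intro m _ _
              exact mul_nonneg (hf0 _ _) (Real.log_natCast_nonneg m)
    have h2 := hA (WW M) (2 * M) (by omega)
    have h3 := hB (WW M) (2 * M) hW2 (LB3_W M hs')
    have h4 := LB3_main M hs'
    have h5 : Real.log M * ∑ m ∈ Finset.Ico M (2 * M), (1 / 2 : ℝ) ^ wbig (WW M) m ≤
        Real.log M * (8 * C1 * C2 * M * rate M) := by
      refine le_trans h1 (le_trans h2 ?_)
      calc C1 * ((2 * M : ℕ) : ℝ) * ∑ n ∈ Finset.Icc 1 (2 * M), (1 / 2 : ℝ) ^ wbig (WW M) n / (n : ℝ)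
          ≤ C1 * ((2 * M : ℕ) : ℝ) *
            (C2 * Real.sqrt (Real.log (WW M)) * Real.sqrt (Real.log ((2 * M : ℕ) : ℝ))) := by
            apply mul_le_mul_of_nonneg_left h3 (by positivity)
        _ = C1 * ((2 * M : ℕ) : ℝ) * C2 *
            (Real.sqrt (Real.log (WW M)) * Real.sqrt (Real.log ((2 * M : ℕ) : ℝ))) := by ring
        _ ≤ C1 * ((2 * M : ℕ) : ℝ) * C2 * (4 * Real.log M * rate M) := by
            apply mul_le_mul_of_nonneg_left h4 (by positivity)
        _ = Real.log M * (8 * C1 * C2 * M * rate M) := by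
            push_cast
            ring
    have h6 := le_of_mul_le_mul_left h5 (by linarith)
    have h7 : 0 ≤ 16 * M * rate M := by positivity
    linarith

end RC91
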