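import Pool.Agent.LibLS91.Defs

/-!
# [LS91 LB3a] from the mean to the logarithmic mean
-/
set_option autoImplicit false
namespace RC91

private theorem LB3a_mono (W m n : ℕ) (hm : m ≠ 0) (h : n ∣ m) : wbig W n ≤ wbig W m := by
  unfold wbig
  apply Finset.card_le_card
  apply Finset.filter_subset_filter
  exact Nat.primeFactors_mono h hm

private theorem LB3a_f (W m n : ℕ) (hm : m ≠ 0) (h : n ∣ m) :
    (1 / 2 : ℝ) ^ wbig W m ≤ (1 / 2 : ℝ) ^ wbig W n :=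
  pow_le_pow_of_le_one (by norm_num) (by norm_num) (LB3a_mono W m n hm h)

private theorem LB3a_reindex (x : ℕ) (F : ℕ → ℕ → ℝ) :
    ∑ m ∈ Finset.Icc 1 x, ∑ d ∈ m.divisors, F (m / d) d =
      ∑ n ∈ Finset.Icc 1 x, ∑ d ∈ Finset.Ioc 0 (x / n), F n d := by
  rw [Finset.sum_sigma', Finset.sum_sigma']
  refine Finset.sum_nbij' (fun q => ⟨q.1 / q.2, q.2⟩) (fun q => ⟨q.1 * q.2, q.2⟩) ?_ ?_ ?_ ?_ ?_
  · rintro ⟨m, d⟩ h
    simp only [Finset.mem_sigma, Finset.mem_Icc, Nat.mem_divisors, Finset.mem_Ioc] at h ⊢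
    obtain ⟨⟨h1, h2⟩, h3, h4⟩ := h
    have hd : 0 < d := Nat.pos_of_dvd_of_pos h3 (by omega)
    obtain ⟨n, rfl⟩ := h3
    rw [Nat.mul_div_cancel_left n hd]
    have hn : 0 < n := by
      rcases Nat.eq_zero_or_pos n with rfl | h
      · simp at h4
      · exact h
    refine ⟨⟨hn, le_trans (Nat.le_mul_of_pos_left n hd) h2⟩, hd, ?_⟩
    exact (Nat.le_div_iff_mul_le hn).2 h2
  · rintro ⟨n, d⟩ h
    simp only [Finset.mem_sigma, Finset.mem_Icc, Nat.mem_divisors, Finset.mem_Ioc] at h ⊢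
    obtain ⟨⟨h1, h2⟩, h3, h4⟩ := h
    have h5 := (Nat.le_div_iff_mul_le (by omega : 0 < n)).1 h4
    have h6 : 0 < n * d := Nat.mul_pos (by omega) h3
    refine ⟨⟨h6, ?_⟩, Dvd.intro_left n rfl, h6.ne'⟩
    rw [Nat.mul_comm]
    exact h5
  · rintro ⟨m, d⟩ h
    simp only [Finset.mem_sigma, Finset.mem_Icc, Nat.mem_divisors] at h
    obtain ⟨⟨h1, h2⟩, h3, h4⟩ := h
    simp only [Nat.div_mul_cancel h3]
  · rintro ⟨n, d⟩ h
    simp only [Finset.mem_sigma, Finset.mem_Icc, Finset.mem_Ioc] at h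
    obtain ⟨⟨h1, h2⟩, h3, h4⟩ := h
    simp only [Nat.mul_div_cancel n h3]
  · rintro ⟨m, d⟩ h
    rfl

theorem LB3a : ∃ C : ℝ, 0 < C ∧ ∀ W x : ℕ, 1 ≤ x →
    ∑ m ∈ Finset.Icc 1 x, (1 / 2 : ℝ) ^ wbig W m * Real.log m ≤
      C * x * ∑ n ∈ Finset.Icc 1 x, (1 / 2 : ℝ) ^ wbig W n / (n : ℝ) := by
  refine ⟨Real.log 4 + 4, ?_, ?_⟩
  · have : 0 ≤ Real.log 4 := Real.log_nonneg (by norm_num)
    linarith
  intro W x hx
  have key : ∑ m ∈ Finset.Icc 1 x, (1 / 2 : ℝ) ^ wbig W m * Real.log m ≤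
      ∑ m ∈ Finset.Icc 1 x, ∑ d ∈ m.divisors,
        (1 / 2 : ℝ) ^ wbig W (m / d) * ArithmeticFunction.vonMangoldt d := by
    apply Finset.sum_le_sum
    intro m hm
    rw [Finset.mem_Icc] at hm
    rw [← ArithmeticFunction.vonMangoldt_sum, Finset.mul_sum]
    apply Finset.sum_le_sum
    intro d hd
    rw [Nat.mem_divisors] at hd
    apply mul_le_mul_of_nonneg_right _ ArithmeticFunction.vonMangoldt_nonneg
    exact LB3a_f W m (m / d) (by omega) (Nat.div_dvd_of_dvd hd.1)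
  refine key.trans ?_
  rw [LB3a_reindex x (fun n d => (1 / 2 : ℝ) ^ wbig W n * ArithmeticFunction.vonMangoldt d)]
  rw [Finset.mul_sum]
  apply Finset.sum_le_sum
  intro n hn
  rw [Finset.mem_Icc] at hn
  rw [← Finset.mul_sum]
  have hn0 : (0 : ℝ) < n := by
    have : 0 < n := by omega
    exact_mod_cast this
  have h1 : ∑ d ∈ Finset.Ioc 0 (x / n), ArithmeticFunction.vonMangoldt d =
      Chebyshev.psi ((x : ℝ) / n) := by
    unfold Chebyshev.psi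
    rw [Nat.floor_div_eq_div]
  rw [h1]
  have h2 : Chebyshev.psi ((x : ℝ) / n) ≤ (Real.log 4 + 4) * ((x : ℝ) / n) :=
    Chebyshev.psi_le_const_mul_self (by positivity)
  calc (1 / 2 : ℝ) ^ wbig W n * Chebyshev.psi ((x : ℝ) / n)
      ≤ (1 / 2 : ℝ) ^ wbig W n * ((Real.log 4 + 4) * ((x : ℝ) / n)) :=
        mul_le_mul_of_nonneg_left h2 (by positivity)
    _ = (Real.log 4 + 4) * x * ((1 / 2 : ℝ) ^ wbig W n / (n : ℝ)) := by
        ring

end RC91
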