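import Pool.Agent.LibLS91.LB4a

/-!
# [LS91 LB4] lower bound for the family
PLAN. `LB4_fin`: subset of `[-K, K]`. For square free `m ∈ [M, 2M)` and square free `A ∈ [1, K/m^2]` the number `k = A m^2` is in
`LSF M K` (`v_p(k) ≤ 3 < 6`), and `(A, m) ↦ A m^2` is injective on square free positive `A`, `m > 0` (`A m^2 = A' m'^2` with `A, A'`
square free gives `A = A'`: e.g. `Nat.sq_mul_squarefree` uniqueness, or parity of all valuations). LB4a: the number is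
`≥ ∑_{m ∈ [M,2M) square free} ⌊K/m^2⌋/2 ≥ (M/4) (K/(4 M^2))/4 = K/(64 M)` (`⌊K/m^2⌋ ≥ K/(2 m^2)` since `K ≥ M^3 ≥ m^2`, `M ≥ 4`).
-/
set_option autoImplicit false
namespace RC91

theorem LB4_fin (M K : ℕ) : (LSF M K).Finite := by
  refine (Set.finite_Icc (-(K : ℤ)) (K : ℤ)).subset ?_
  rintro k ⟨_, hk, _⟩
  exact abs_le.1 hk

private theorem LB4_cop {A m A' m' a b g : ℕ} (hA : Squarefree A) (hA' : Squarefree A')
    (hg : 0 < g) (hab : Nat.Coprime a b) (ha : m = a * g) (hb : m' = b * g)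
    (h : A * m ^ 2 = A' * m' ^ 2) : m = m' ∧ A = A' := by
  subst ha
  subst hb
  have h1 : A * a ^ 2 = A' * b ^ 2 := by
    have h2 : (A * a ^ 2) * g ^ 2 = (A' * b ^ 2) * g ^ 2 := by
      calc (A * a ^ 2) * g ^ 2 = A * (a * g) ^ 2 := by ring
        _ = A' * (b * g) ^ 2 := h
        _ = (A' * b ^ 2) * g ^ 2 := by ring
    exact Nat.eq_of_mul_eq_mul_right (by positivity) h2
  have ha1 : a = 1 := by
    have h2 : a ^ 2 ∣ A' * b ^ 2 := ⟨A, by rw [← h1]; ring⟩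
    have h3 : a ^ 2 ∣ A' := (Nat.Coprime.pow 2 2 hab).dvd_of_dvd_mul_right h2
    rw [sq] at h3
    exact Nat.isUnit_iff.1 (hA' a h3)
  have hb1 : b = 1 := by
    have h2 : b ^ 2 ∣ A * a ^ 2 := ⟨A', by rw [h1]; ring⟩
    have h3 : b ^ 2 ∣ A := (Nat.Coprime.pow 2 2 hab.symm).dvd_of_dvd_mul_right h2
    rw [sq] at h3
    exact Nat.isUnit_iff.1 (hA b h3)
  subst ha1
  subst hb1
  refine ⟨rfl, ?_⟩
  simpa using h1

private theorem LB4_inj {A m A' m' : ℕ} (hA : Squarefree A) (hA' : Squarefree A') (hm : 0 < m)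
    (h : A * m ^ 2 = A' * m' ^ 2) : m = m' ∧ A = A' := by
  obtain ⟨a, b, hab, ha, hb⟩ := Nat.exists_coprime m m'
  exact LB4_cop hA hA' (Nat.gcd_pos_of_pos_left m' hm) hab ha hb h

private theorem LB4_mem {M K m A : ℕ} (hm : Squarefree m) (hA : Squarefree A) (hMm : M ≤ m)
    (hK : A * m ^ 2 ≤ K) : ((A * m ^ 2 : ℕ) : ℤ) ∈ LSF M K := by
  have hm0 : m ≠ 0 := hm.ne_zero
  have hA0 : A ≠ 0 := hA.ne_zero
  have h0 : A * m ^ 2 ≠ 0 := mul_ne_zero hA0 (pow_ne_zero 2 hm0)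
  refine ⟨by exact_mod_cast h0, ?_, ?_, m, hMm, ?_⟩
  · rw [abs_of_nonneg (Int.natCast_nonneg _)]
    exact_mod_cast hK
  · intro p hp hd
    have h1 : p ^ 6 ∣ A * m ^ 2 := by exact_mod_cast hd
    rw [hp.pow_dvd_iff_le_factorization h0, Nat.factorization_mul hA0 (pow_ne_zero 2 hm0),
      Nat.factorization_pow] at h1
    have h2 := hA.natFactorization_le_one p
    have h3 := hm.natFactorization_le_one p
    simp only [Finsupp.coe_add, Finsupp.coe_smul, Pi.add_apply, Pi.smul_apply, smul_eq_mul] at h1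
    omega
  · exact ⟨(A : ℤ), by push_cast; ring⟩

theorem LB4 : ∃ c : ℝ, ∃ M0 : ℕ, 0 < c ∧ ∀ M K : ℕ, M0 ≤ M → M ^ 3 ≤ K →
    c * K / M ≤ ((LSF M K).ncard : ℝ) := by
  classical
  obtain ⟨M1, hM1⟩ := LB4a_blk
  refine ⟨1 / 64, M1 + 8, by norm_num, fun M K hM hK => ?_⟩
  have hblk := hM1 M (by omega)
  have hM8 : 8 ≤ M := by omega
  set S : Finset ℕ := (Finset.Ico M (2 * M)).filter Squarefree with hS
  set T : ℕ → Finset ℕ := fun m => (Finset.Icc 1 (K / m ^ 2)).filter Squarefree with hT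
  have hinj : Set.InjOn (fun q : (_ : ℕ) × ℕ => ((q.2 * q.1 ^ 2 : ℕ) : ℤ)) ((S.sigma T : Finset _) : Set ((_ : ℕ) × ℕ)) := by
    rintro ⟨m, A⟩ hq ⟨m', A'⟩ hq' he
    rw [Finset.mem_coe, Finset.mem_sigma] at hq hq'
    have h1 := Finset.mem_filter.1 hq.1
    have h2 := Finset.mem_filter.1 hq.2
    have h3 := Finset.mem_filter.1 hq'.2
    have he' : A * m ^ 2 = A' * m' ^ 2 := by
      have he2 : ((A * m ^ 2 : ℕ) : ℤ) = ((A' * m' ^ 2 : ℕ) : ℤ) := he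
      exact_mod_cast he2
    have hm0 : 0 < m := lt_of_lt_of_le (by omega) (Finset.mem_Ico.1 h1.1).1
    obtain ⟨e1, e2⟩ := LB4_inj h2.2 h3.2 hm0 he'
    subst e1
    subst e2
    rfl
  have hsub : (((S.sigma T).image (fun q : (_ : ℕ) × ℕ => ((q.2 * q.1 ^ 2 : ℕ) : ℤ)) : Finset ℤ) : Set ℤ) ⊆
      LSF M K := by
    intro k hk
    rw [Finset.mem_coe, Finset.mem_image] at hk
    obtain ⟨⟨m, A⟩, hq, rfl⟩ := hk
    rw [Finset.mem_sigma] at hq
    have h1 := Finset.mem_filter.1 hq.1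
    have h2 := Finset.mem_filter.1 hq.2
    refine LB4_mem h1.2 h2.2 (Finset.mem_Ico.1 h1.1).1 ?_
    have h3 : A ≤ K / m ^ 2 := (Finset.mem_Icc.1 h2.1).2
    calc A * m ^ 2 ≤ K / m ^ 2 * m ^ 2 := Nat.mul_le_mul_right _ h3
      _ ≤ K := Nat.div_mul_le_self _ _
  have hcard : ∑ m ∈ S, (T m).card ≤ (LSF M K).ncard := by
    rw [← Finset.card_sigma, ← Finset.card_image_of_injOn hinj, ← Set.ncard_coe_finset]
    exact Set.ncard_le_ncard hsub (LB4_fin M K)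
  have hMR : (8 : ℝ) ≤ M := by exact_mod_cast hM8
  have hKR : (M : ℝ) ^ 3 ≤ K := by exact_mod_cast hK
  have hT' : ∀ m ∈ S, (K : ℝ) / (16 * (M : ℝ) ^ 2) ≤ ((T m).card : ℝ) := by
    intro m hm
    have h1 := Finset.mem_Ico.1 (Finset.mem_filter.1 hm).1
    have h2 : ((K / m ^ 2 : ℕ) : ℝ) / 2 ≤ ((T m).card : ℝ) := LB4a_one (K / m ^ 2)
    have h3 : (K : ℝ) / (8 * (M : ℝ) ^ 2) ≤ ((K / m ^ 2 : ℕ) : ℝ) := by
      have h4 : (m : ℝ) ≤ 2 * M := by exact_mod_cast h1.2.le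
      have h5 : (M : ℝ) ≤ m := by exact_mod_cast h1.1
      have hm0 : (0 : ℝ) < m := by linarith
      have h6 : (K : ℝ) / (m : ℝ) ^ 2 < ((K / m ^ 2 : ℕ) : ℝ) + 1 := by
        have h7 : K < m ^ 2 * (K / m ^ 2 + 1) := Nat.lt_mul_div_succ K (by
          have : 0 < m := by omega
          positivity)
        have h8 : (K : ℝ) < (m : ℝ) ^ 2 * (((K / m ^ 2 : ℕ) : ℝ) + 1) := by exact_mod_cast h7
        rw [div_lt_iff₀ (by positivity)]
        linarith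
      have h7 : (m : ℝ) ^ 2 ≤ 4 * (M : ℝ) ^ 2 := by nlinarith
      have h8 : (K : ℝ) / (4 * (M : ℝ) ^ 2) ≤ (K : ℝ) / (m : ℝ) ^ 2 :=
        div_le_div_of_nonneg_left (by positivity) (by positivity) h7
      have h9 : (1 : ℝ) ≤ (K : ℝ) / (8 * (M : ℝ) ^ 2) := by
        rw [le_div_iff₀ (by positivity)]
        nlinarith [sq_nonneg (M : ℝ)]
      have h10 : (K : ℝ) / (4 * (M : ℝ) ^ 2) = 2 * ((K : ℝ) / (8 * (M : ℝ) ^ 2)) := by
        field_simp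
        ring
      linarith
    have h4 : (K : ℝ) / (16 * (M : ℝ) ^ 2) = (K : ℝ) / (8 * (M : ℝ) ^ 2) / 2 := by
      rw [div_div]
      ring
    rw [h4]
    linarith
  have hfin : (S.card : ℝ) * ((K : ℝ) / (16 * (M : ℝ) ^ 2)) ≤ ((∑ m ∈ S, (T m).card : ℕ) : ℝ) := by
    push_cast
    rw [← nsmul_eq_mul]
    exact Finset.card_nsmul_le_sum S _ _ hT'
  calc 1 / 64 * (K : ℝ) / M = (M : ℝ) / 4 * ((K : ℝ) / (16 * (M : ℝ) ^ 2)) := by
        field_simp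
        ring
    _ ≤ (S.card : ℝ) * ((K : ℝ) / (16 * (M : ℝ) ^ 2)) :=
        mul_le_mul_of_nonneg_right hblk (by positivity)
    _ ≤ ((∑ m ∈ S, (T m).card : ℕ) : ℝ) := hfin
    _ ≤ ((LSF M K).ncard : ℝ) := by exact_mod_cast hcard

end RC91
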