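import Pool.Agent.LibLS91.Defs

/-!
# [LS91 LB4a] many square free integers
PLAN. An integer which is not square free is divisible by `p^2`, `p` prime. `∑_{p prime} 1/p^2 ≤ 1/4 + 1/9 + ∑_{n ≥ 5, odd} 1/n^2
≤ 1/4 + 1/9 + 1/8 < 49/100` (`1/n^2 ≤ (1/(n-1) - 1/(n+1))/2`; finite sums suffice: `p ≤ N`).
`[1, N]`: `N - ∑_{p ≤ N} N/p^2 ≥ N/2`. `[M, 2M)`: at most `M/p^2 + 1` multiples of `p^2`, and `p^2 < 2M`:
`≥ M - 49 M/100 - √(2M) ≥ M/4` for `M ≥ M0`.
-/
set_option autoImplicit false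
namespace RC91

/-- a positive integer which is not square free is divisible by `4` or by an odd square `(2k+1)^2`. -/
private theorem LB4a_odd (n : ℕ) (hn : 0 < n) (h : ¬ Squarefree n) :
    4 ∣ n ∨ ∃ k : ℕ, 1 ≤ k ∧ (2 * k + 1) * (2 * k + 1) ∣ n := by
  rw [Nat.squarefree_iff_prime_squarefree] at h
  push_neg at h
  obtain ⟨p, hp, hpn⟩ := h
  rcases hp.eq_two_or_odd' with rfl | ho
  · left
    simpa using hpn
  · right
    obtain ⟨k, hk⟩ := ho
    refine ⟨k, ?_, by rw [← hk]; exact hpn⟩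
    rcases Nat.eq_zero_or_pos k with h0 | h0
    · subst h0
      exact absurd hk hp.one_lt.ne'
    · exact h0

/-- the telescoping bound. -/
private theorem LB4a_sum (K : ℕ) :
    ∑ k ∈ Finset.Icc 1 K, (1 : ℝ) / ((2 * (k : ℝ) + 1) * (2 * (k : ℝ) + 1)) ≤ 1 / 9 + 1 / 8 := by
  have key : ∀ K : ℕ, 1 ≤ K →
      ∑ k ∈ Finset.Icc 1 K, (1 : ℝ) / ((2 * (k : ℝ) + 1) * (2 * (k : ℝ) + 1))
        ≤ 1 / 9 + 1 / 8 - 1 / (4 * ((K : ℝ) + 1)) := by
    intro K hK
    induction K, hK using Nat.le_induction with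
    | base => norm_num
    | succ K hK ih =>
      rw [Finset.sum_Icc_succ_top (by omega)]
      have hK0 : (0 : ℝ) ≤ (K : ℝ) := Nat.cast_nonneg K
      have h1 : (1 : ℝ) / ((2 * ((K + 1 : ℕ) : ℝ) + 1) * (2 * ((K + 1 : ℕ) : ℝ) + 1))
          ≤ 1 / (4 * ((K : ℝ) + 1)) - 1 / (4 * (((K + 1 : ℕ) : ℝ) + 1)) := by
        push_cast
        rw [div_sub_div _ _ (by positivity) (by positivity), div_le_div_iff₀ (by positivity)
          (by positivity)]
        nlinarith
      linarith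
  rcases Nat.eq_zero_or_pos K with h | h
  · subst h
    norm_num
  · have := key K h
    have h2 : (0 : ℝ) ≤ 1 / (4 * ((K : ℝ) + 1)) := by positivity
    linarith

theorem LB4a_one (N : ℕ) : (N : ℝ) / 2 ≤ (((Finset.Icc 1 N).filter Squarefree).card : ℝ) := by
  classical
  have hsplit : ((Finset.Icc 1 N).filter Squarefree).card
      + ((Finset.Icc 1 N).filter (fun n => ¬ Squarefree n)).card = N := by
    rw [Finset.card_filter_add_card_filter_not]
    simp
  have hsub : (Finset.Icc 1 N).filter (fun n => ¬ Squarefree n) ⊆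
      (Finset.Ioc 0 N).filter (fun n => 4 ∣ n) ∪
        (Finset.Icc 1 N).biUnion (fun k => (Finset.Ioc 0 N).filter
          (fun n => (2 * k + 1) * (2 * k + 1) ∣ n)) := by
    intro n hn
    rw [Finset.mem_filter, Finset.mem_Icc] at hn
    rw [Finset.mem_union, Finset.mem_biUnion]
    rcases LB4a_odd n (by omega) hn.2 with h | ⟨k, hk, h⟩
    · left
      rw [Finset.mem_filter, Finset.mem_Ioc]
      exact ⟨by omega, h⟩
    · right
      have hle := Nat.le_of_dvd (by omega) h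
      refine ⟨k, ?_, ?_⟩
      · rw [Finset.mem_Icc]
        refine ⟨hk, ?_⟩
        nlinarith
      · rw [Finset.mem_filter, Finset.mem_Ioc]
        exact ⟨by omega, h⟩
  have hcard : (((Finset.Icc 1 N).filter (fun n => ¬ Squarefree n)).card : ℝ) ≤
      (N : ℝ) / 4 + ∑ k ∈ Finset.Icc 1 N, (N : ℝ) * (1 / ((2 * (k : ℝ) + 1) * (2 * (k : ℝ) + 1))) := by
    have h1 := (Finset.card_le_card hsub).trans (Finset.card_union_le _ _)
    have h2 : ((Finset.Icc 1 N).biUnion (fun k => (Finset.Ioc 0 N).filter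
          (fun n => (2 * k + 1) * (2 * k + 1) ∣ n))).card ≤
        ∑ k ∈ Finset.Icc 1 N, ((Finset.Ioc 0 N).filter
          (fun n => (2 * k + 1) * (2 * k + 1) ∣ n)).card := Finset.card_biUnion_le
    have h3 : (((Finset.Icc 1 N).filter (fun n => ¬ Squarefree n)).card : ℝ) ≤
        (((Finset.Ioc 0 N).filter (fun n => 4 ∣ n)).card : ℝ) +
          ∑ k ∈ Finset.Icc 1 N, (((Finset.Ioc 0 N).filter
          (fun n => (2 * k + 1) * (2 * k + 1) ∣ n)).card : ℝ) := by
      have := h1.trans (Nat.add_le_add_left h2 _)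
      exact_mod_cast this
    refine h3.trans (add_le_add ?_ (Finset.sum_le_sum ?_))
    · rw [Nat.Ioc_filter_dvd_card_eq_div]
      exact Nat.cast_div_le
    · intro k _
      rw [Nat.Ioc_filter_dvd_card_eq_div]
      refine (Nat.cast_div_le (α := ℝ)).trans (le_of_eq ?_)
      push_cast
      ring
  rw [← Finset.mul_sum] at hcard
  have hs := mul_le_mul_of_nonneg_left (LB4a_sum N) (Nat.cast_nonneg (α := ℝ) N)
  have hsR : (((Finset.Icc 1 N).filter Squarefree).card : ℝ)
      + (((Finset.Icc 1 N).filter (fun n => ¬ Squarefree n)).card : ℝ) = (N : ℝ) := by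
    exact_mod_cast hsplit
  have hN : (0 : ℝ) ≤ (N : ℝ) := Nat.cast_nonneg N
  linarith

/-- multiples of `d` in `[M, 2M)`. -/
private theorem LB4a_mult (M d : ℕ) (hd : 0 < d) (hM : 0 < M) :
    (((Finset.Ico M (2 * M)).filter (fun n => d ∣ n)).card : ℝ) ≤ (M : ℝ) / d + 1 := by
  classical
  have h1 : ((Finset.Ico M (2 * M)).filter (fun n => d ∣ n)).card
      + ((Finset.Ioc 0 (M - 1)).filter (fun n => d ∣ n)).card
      = ((Finset.Ioc 0 (2 * M - 1)).filter (fun n => d ∣ n)).card := by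
    rw [← Finset.card_union_of_disjoint]
    · congr 1
      ext n
      simp only [Finset.mem_union, Finset.mem_filter, Finset.mem_Ico, Finset.mem_Ioc]
      constructor
      · rintro (h | h)
        · exact ⟨by omega, h.2⟩
        · exact ⟨by omega, h.2⟩
      · rintro ⟨h, h'⟩
        by_cases hc : M ≤ n
        · left
          exact ⟨by omega, h'⟩
        · right
          exact ⟨by omega, h'⟩
    · rw [Finset.disjoint_left]
      intro n hn hn'
      simp only [Finset.mem_filter, Finset.mem_Ico, Finset.mem_Ioc] at hn hn'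
      omega
  rw [Nat.Ioc_filter_dvd_card_eq_div, Nat.Ioc_filter_dvd_card_eq_div] at h1
  have h2 : (((2 * M - 1) / d : ℕ) : ℝ) ≤ (2 * (M : ℝ) - 1) / d := by
    refine (Nat.cast_div_le (α := ℝ)).trans (le_of_eq ?_)
    rw [Nat.cast_sub (by omega)]
    push_cast
    ring
  have h3 : ((M : ℝ) - 1) / d - 1 < (((M - 1) / d : ℕ) : ℝ) := by
    have := Nat.lt_div_mul_add (a := M - 1) hd
    have hdR : (0 : ℝ) < (d : ℝ) := Nat.cast_pos.mpr hd
    have hR : (((M - 1 : ℕ) : ℝ)) < (((M - 1) / d : ℕ) : ℝ) * d + d := by exact_mod_cast this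
    rw [Nat.cast_sub (by omega)] at hR
    rw [sub_lt_iff_lt_add, div_lt_iff₀ hdR]
    push_cast at hR
    nlinarith
  have h4 : (((Finset.Ico M (2 * M)).filter (fun n => d ∣ n)).card : ℝ)
      + (((M - 1) / d : ℕ) : ℝ) = (((2 * M - 1) / d : ℕ) : ℝ) := by exact_mod_cast h1
  have h5 : (2 * (M : ℝ) - 1) / d = (M : ℝ) / d + ((M : ℝ) - 1) / d := by ring
  linarith

theorem LB4a_blk : ∃ M0 : ℕ, ∀ M : ℕ, M0 ≤ M →
    (M : ℝ) / 4 ≤ (((Finset.Ico M (2 * M)).filter Squarefree).card : ℝ) := by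
  classical
  refine ⟨1000, fun M hM => ?_⟩
  have hsplit : ((Finset.Ico M (2 * M)).filter Squarefree).card
      + ((Finset.Ico M (2 * M)).filter (fun n => ¬ Squarefree n)).card = M := by
    rw [Finset.card_filter_add_card_filter_not, Nat.card_Ico]
    omega
  have hsub : (Finset.Ico M (2 * M)).filter (fun n => ¬ Squarefree n) ⊆
      (Finset.Ico M (2 * M)).filter (fun n => 4 ∣ n) ∪
        (Finset.Icc 1 (Nat.sqrt (2 * M))).biUnion (fun k => (Finset.Ico M (2 * M)).filter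
          (fun n => (2 * k + 1) * (2 * k + 1) ∣ n)) := by
    intro n hn
    rw [Finset.mem_filter, Finset.mem_Ico] at hn
    rw [Finset.mem_union, Finset.mem_biUnion]
    rcases LB4a_odd n (by omega) hn.2 with h | ⟨k, hk, h⟩
    · left
      rw [Finset.mem_filter, Finset.mem_Ico]
      exact ⟨hn.1, h⟩
    · right
      have hle := Nat.le_of_dvd (by omega) h
      refine ⟨k, ?_, ?_⟩
      · rw [Finset.mem_Icc]
        refine ⟨hk, ?_⟩
        rw [Nat.le_sqrt]
        nlinarith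
      · rw [Finset.mem_filter, Finset.mem_Ico]
        exact ⟨hn.1, h⟩
  have hcard : (((Finset.Ico M (2 * M)).filter (fun n => ¬ Squarefree n)).card : ℝ) ≤
      ((M : ℝ) / 4 + 1) + ∑ k ∈ Finset.Icc 1 (Nat.sqrt (2 * M)),
        ((M : ℝ) * (1 / ((2 * (k : ℝ) + 1) * (2 * (k : ℝ) + 1))) + 1) := by
    have h1 := (Finset.card_le_card hsub).trans (Finset.card_union_le _ _)
    have h2 : ((Finset.Icc 1 (Nat.sqrt (2 * M))).biUnion (fun k => (Finset.Ico M (2 * M)).filter
          (fun n => (2 * k + 1) * (2 * k + 1) ∣ n))).card ≤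
        ∑ k ∈ Finset.Icc 1 (Nat.sqrt (2 * M)), ((Finset.Ico M (2 * M)).filter
          (fun n => (2 * k + 1) * (2 * k + 1) ∣ n)).card := Finset.card_biUnion_le
    have h3 : (((Finset.Ico M (2 * M)).filter (fun n => ¬ Squarefree n)).card : ℝ) ≤
        (((Finset.Ico M (2 * M)).filter (fun n => 4 ∣ n)).card : ℝ) +
          ∑ k ∈ Finset.Icc 1 (Nat.sqrt (2 * M)), (((Finset.Ico M (2 * M)).filter
          (fun n => (2 * k + 1) * (2 * k + 1) ∣ n)).card : ℝ) := by
      have := h1.trans (Nat.add_le_add_left h2 _)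
      exact_mod_cast this
    refine h3.trans (add_le_add ?_ (Finset.sum_le_sum ?_))
    · simpa using LB4a_mult M 4 (by norm_num) (by omega)
    · intro k _
      refine (LB4a_mult M ((2 * k + 1) * (2 * k + 1)) (by positivity) (by omega)).trans
        (le_of_eq ?_)
      push_cast
      ring
  rw [Finset.sum_add_distrib, ← Finset.mul_sum, Finset.sum_const, Nat.card_Icc,
    Nat.add_sub_cancel, nsmul_eq_mul, mul_one] at hcard
  have hs := mul_le_mul_of_nonneg_left (LB4a_sum (Nat.sqrt (2 * M))) (Nat.cast_nonneg (α := ℝ) M)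
  have hsR : (((Finset.Ico M (2 * M)).filter Squarefree).card : ℝ)
      + (((Finset.Ico M (2 * M)).filter (fun n => ¬ Squarefree n)).card : ℝ) = (M : ℝ) := by
    exact_mod_cast hsplit
  have hMR : (1000 : ℝ) ≤ (M : ℝ) := by exact_mod_cast hM
  have hK : ((Nat.sqrt (2 * M) : ℕ) : ℝ) * ((Nat.sqrt (2 * M) : ℕ) : ℝ) ≤ 2 * (M : ℝ) := by
    exact_mod_cast Nat.sqrt_le (2 * M)
  have hK0 : (0 : ℝ) ≤ ((Nat.sqrt (2 * M) : ℕ) : ℝ) := Nat.cast_nonneg _
  have hK1 : ((Nat.sqrt (2 * M) : ℕ) : ℝ) ≤ (M : ℝ) / 10 := by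
    by_contra hc
    push_neg at hc
    nlinarith
  linarith

end RC91
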