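import Pool.Agent.LibLS91.Defs

/-!
# [LS91 LB5] sum of `2^ω`
PLAN: `2^ω(c) ≤ τ(c)` (square free divisors) and `∑_{c ≤ X} τ(c) = ∑_{d ≤ X} ⌊X/d⌋ ≤ X (1 + log X)`
(`harmonic_le_one_add_log`). Empty sum for `X = 0`.
-/
set_option autoImplicit false
namespace RC91

private theorem LB5_two_pow {c : ℕ} (hc : c ≠ 0) : 2 ^ c.primeFactors.card ≤ c.divisors.card := by
  rw [← Finset.card_powerset]
  refine Finset.card_le_card_of_injOn (fun s => ∏ p ∈ s, p) ?_ ?_
  · intro s hs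
    rw [Finset.mem_coe, Finset.mem_powerset] at hs
    rw [Finset.mem_coe, Nat.mem_divisors]
    exact ⟨(Finset.prod_dvd_prod_of_subset _ _ _ hs).trans (Nat.prod_primeFactors_dvd c), hc⟩
  · intro s hs t ht hst
    rw [Finset.mem_coe, Finset.mem_powerset] at hs ht
    have h1 : (∏ p ∈ s, p).primeFactors = s :=
      Nat.primeFactors_prod fun p hp => Nat.prime_of_mem_primeFactors (hs hp)
    have h2 : (∏ p ∈ t, p).primeFactors = t :=
      Nat.primeFactors_prod fun p hp => Nat.prime_of_mem_primeFactors (ht hp)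
    simp only at hst
    rw [← h1, hst, h2]

private theorem LB5_sum (X : ℕ) :
    ∑ c ∈ Finset.Icc 1 X, c.divisors.card = ∑ d ∈ Finset.Icc 1 X, X / d := by
  have h1 : ∀ c ∈ Finset.Icc 1 X, c.divisors.card =
      ∑ d ∈ Finset.Icc 1 X, if d ∣ c then 1 else 0 := by
    intro c hc
    rw [Finset.mem_Icc] at hc
    rw [← Finset.sum_filter, Finset.sum_const, smul_eq_mul, mul_one]
    congr 1
    ext d
    rw [Nat.mem_divisors, Finset.mem_filter, Finset.mem_Icc]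
    constructor
    · rintro ⟨h, h0⟩
      exact ⟨⟨Nat.pos_of_dvd_of_pos h (by omega), (Nat.le_of_dvd (by omega) h).trans hc.2⟩, h⟩
    · rintro ⟨-, h⟩
      exact ⟨h, by omega⟩
  rw [Finset.sum_congr rfl h1, Finset.sum_comm]
  refine Finset.sum_congr rfl fun d _ => ?_
  rw [← Finset.sum_filter, Finset.sum_const, smul_eq_mul, mul_one]
  have h2 := Nat.Ioc_filter_dvd_card_eq_div X d
  rw [← h2]
  congr 1

theorem LB5 (X : ℕ) :
    ∑ c ∈ Finset.Icc 1 X, (2 : ℝ) ^ c.primeFactors.card ≤ X * (1 + Real.log X) := by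
  have h1 : ∑ c ∈ Finset.Icc 1 X, (2 : ℝ) ^ c.primeFactors.card ≤
      ∑ c ∈ Finset.Icc 1 X, (c.divisors.card : ℝ) := by
    refine Finset.sum_le_sum fun c hc => ?_
    rw [Finset.mem_Icc] at hc
    exact_mod_cast LB5_two_pow (c := c) (by omega)
  have h2 : ∑ c ∈ Finset.Icc 1 X, (c.divisors.card : ℝ) =
      ∑ d ∈ Finset.Icc 1 X, ((X / d : ℕ) : ℝ) := by exact_mod_cast LB5_sum X
  have h3 : ∑ d ∈ Finset.Icc 1 X, ((X / d : ℕ) : ℝ) ≤ ∑ d ∈ Finset.Icc 1 X, (X : ℝ) * (d : ℝ)⁻¹ :=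
    Finset.sum_le_sum fun d _ => Nat.cast_div_le
  have h4 : ∑ d ∈ Finset.Icc 1 X, (X : ℝ) * (d : ℝ)⁻¹ = X * ((harmonic X : ℚ) : ℝ) := by
    rw [← Finset.mul_sum, harmonic_eq_sum_Icc]
    push_cast
    rfl
  rw [h2] at h1
  rw [h4] at h3
  exact (h1.trans h3).trans (mul_le_mul_of_nonneg_left (harmonic_le_one_add_log X)
    (Nat.cast_nonneg X))

end RC91
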