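import Pool.Agent.LibLS91.Defs

/-!
# [LS91 LB6] the rate
PLAN. With `t = 1 + log M ≥ 1`, `rate M = √((1 + log t)/t)`; `(1 + log t)/t` is antitone on `t ≥ 1` (derivative `-log t/t^2`, or
directly: `(1 + log t)/t ≥ (1 + log s)/s` for `1 ≤ t ≤ s`: `log (s/t) ≤ s/t - 1` and `1 ≤ 1 + log t`), `≤ 1`, `> 0`, and
`1/t ≤ √((1 + log t)/t)` since `t (1 + log t) ≥ 1`.
-/
set_option autoImplicit false
namespace RC91

private theorem LB6_t (M : ℕ) (hM : 1 ≤ M) : 1 ≤ 1 + Real.log M := by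
  have : (0 : ℝ) ≤ Real.log M := Real.log_nonneg (by exact_mod_cast hM)
  linarith

private theorem LB6_q {t s : ℝ} (ht : 1 ≤ t) (hs : t ≤ s) :
    (1 + Real.log s) / s ≤ (1 + Real.log t) / t := by
  have ht0 : 0 < t := by linarith
  have hs0 : 0 < s := by linarith
  have hl : 0 ≤ Real.log t := Real.log_nonneg ht
  rw [div_le_div_iff₀ hs0 ht0]
  have h1 : Real.log s = Real.log t + Real.log (s / t) := by
    rw [Real.log_div hs0.ne' ht0.ne']; ring
  have h2 : Real.log (s / t) ≤ s / t - 1 := Real.log_le_sub_one_of_pos (by positivity)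
  have h3 : Real.log (s / t) * t ≤ s - t := by
    have := mul_le_mul_of_nonneg_right h2 ht0.le
    have e : (s / t - 1) * t = s - t := by field_simp
    linarith
  rw [h1]
  nlinarith

theorem LB6_pos (M : ℕ) (hM : 1 ≤ M) : 0 < rate M := by
  have h := LB6_t M hM
  have h2 : 0 ≤ Real.log (1 + Real.log M) := Real.log_nonneg h
  exact Real.sqrt_pos.2 (by positivity)

theorem LB6_le_one (M : ℕ) (hM : 1 ≤ M) : rate M ≤ 1 := by
  have h := LB6_t M hM
  have h2 := LB6_q le_rfl h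
  rw [Real.log_one] at h2
  unfold rate
  rw [Real.sqrt_le_left zero_le_one]
  linarith

theorem LB6_anti (M M' : ℕ) (hM : 1 ≤ M) (h : M ≤ M') : rate M' ≤ rate M := by
  have h1 := LB6_t M hM
  have h2 : Real.log M ≤ Real.log M' :=
    Real.log_le_log (by exact_mod_cast hM) (by exact_mod_cast h)
  exact Real.sqrt_le_sqrt (LB6_q h1 (by linarith))

theorem LB6_log (M : ℕ) (hM : 1 ≤ M) : 1 / (1 + Real.log M) ≤ rate M := by
  have h := LB6_t M hM
  have h2 : 0 ≤ Real.log (1 + Real.log M) := Real.log_nonneg h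
  unfold rate
  apply Real.le_sqrt_of_sq_le
  rw [div_pow, one_pow, div_le_div_iff₀ (by positivity) (by positivity)]
  nlinarith

/-- `M rate M` is unbounded -/
theorem LB6_big (B : ℝ) : ∃ M0 : ℕ, ∀ M : ℕ, M0 ≤ M → B ≤ M * rate M := by
  refine ⟨⌈(2 * |B| + 2) ^ 2⌉₊ + 1, fun M hM => ?_⟩
  have hM1 : 1 ≤ M := by omega
  have hMr : (2 * |B| + 2) ^ 2 ≤ (M : ℝ) := by
    have h1 : (⌈(2 * |B| + 2) ^ 2⌉₊ : ℝ) ≤ (M : ℝ) := by exact_mod_cast (by omega)
    exact (Nat.le_ceil _).trans h1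
  have hM0 : (0 : ℝ) < (M : ℝ) := by exact_mod_cast hM1
  have h := LB6_t M hM1
  have h1 := LB6_log M hM1
  -- `log M ≤ 2 √M`
  have hs : 0 < Real.sqrt M := Real.sqrt_pos.2 hM0
  have hlog : Real.log M ≤ 2 * (Real.sqrt M - 1) := by
    have e : Real.log M = 2 * Real.log (Real.sqrt M) := by
      rw [Real.log_sqrt hM0.le]; ring
    rw [e]
    have := Real.log_le_sub_one_of_pos hs
    linarith
  have h2 : 1 + Real.log M ≤ 2 * Real.sqrt M := by linarith
  have h3 : 2 * |B| + 2 ≤ Real.sqrt M := by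
    rw [← Real.sqrt_sq (show 0 ≤ 2 * |B| + 2 by positivity)]
    exact Real.sqrt_le_sqrt hMr
  have h4 : (M : ℝ) * (1 / (2 * Real.sqrt M)) ≤ M * rate M := by
    apply mul_le_mul_of_nonneg_left _ hM0.le
    refine le_trans ?_ h1
    exact one_div_le_one_div_of_le (by positivity) h2
  have h5 : (M : ℝ) * (1 / (2 * Real.sqrt M)) = Real.sqrt M / 2 := by
    have e : (M : ℝ) = Real.sqrt M * Real.sqrt M := (Real.mul_self_sqrt hM0.le).symm
    field_simp
    rw [sq, ← e]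
  have h6 : B ≤ |B| := le_abs_self B
  have h7 : 0 ≤ |B| := abs_nonneg B
  linarith

end RC91
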