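import Pool.Agent.LibLS91.LB4

/-!
# [LS91 LB7] lower bound for the family, all `M ≥ 1`
-/
set_option autoImplicit false
namespace RC91

theorem LB7_ne (M K : ℕ) (hM : 1 ≤ M) (hK : M ^ 2000 ≤ K) : 1 ≤ (LSF M K).ncard := by
  have hfin := LB4_fin M K
  have hne : (LSF M K).Nonempty := by
    rcases Nat.eq_or_lt_of_le hM with h1 | h2
    · subst h1
      refine ⟨1, one_ne_zero, ?_, ?_, 1, le_rfl, by norm_num⟩
      · have : 1 ≤ K := by simpa using hK
        simpa using this
      · intro p hp h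
        have h3 : (p : ℤ) ∣ 1 := (dvd_pow_self (p : ℤ) (by norm_num)).trans h
        have h4 : p ∣ 1 := by exact_mod_cast h3
        exact hp.one_lt.ne' (Nat.dvd_one.1 h4)
    · obtain ⟨p, hp, hp1, hp2⟩ := Nat.exists_prime_lt_and_le_two_mul M (by omega)
      refine ⟨(p : ℤ) ^ 2, pow_ne_zero _ (by exact_mod_cast hp.ne_zero), ?_, ?_, p, hp1.le, dvd_rfl⟩
      · have h5 : p ^ 2 ≤ K := by
          calc p ^ 2 ≤ (2 * M) ^ 2 := Nat.pow_le_pow_left hp2 2
            _ = 4 * M ^ 2 := by ring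
            _ ≤ M ^ 2 * M ^ 2 := by nlinarith [Nat.pow_le_pow_left (show 2 ≤ M by omega) 2]
            _ = M ^ 4 := by ring
            _ ≤ M ^ 2000 := Nat.pow_le_pow_right (by omega) (by norm_num)
            _ ≤ K := hK
        rw [abs_of_nonneg (by positivity)]
        exact_mod_cast h5
      · intro q hq h
        have h6 : q ^ 6 ∣ p ^ 2 := by exact_mod_cast h
        have h7 : q ∣ p := hq.dvd_of_dvd_pow ((dvd_pow_self q (by norm_num)).trans h6)
        have h8 : q = p := (Nat.prime_dvd_prime_iff_eq hq hp).1 h7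
        subst h8
        have h9 := (Nat.pow_dvd_pow_iff_le_right hq.one_lt).1 h6
        omega
  exact (Set.ncard_pos hfin).2 hne

theorem LB7 : ∃ c : ℝ, 0 < c ∧ ∀ M K : ℕ, 1 ≤ M → M ^ 2000 ≤ K →
    c * K / M ≤ ((LSF M K).ncard : ℝ) := by
  obtain ⟨c, M0, hc, h⟩ := LB4
  set N : ℕ := M0 + 1 with hN
  have hN1 : 1 ≤ N := by omega
  have hNr : (1 : ℝ) ≤ (N : ℝ) := by exact_mod_cast hN1
  have hNp : (0 : ℝ) < (N : ℝ) := by linarith
  refine ⟨min (c / N) (1 / (N : ℝ) ^ 3), by positivity, fun M K hM hK => ?_⟩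
  have hM1 : (1 : ℝ) ≤ (M : ℝ) := by exact_mod_cast hM
  have hK0 : (0 : ℝ) ≤ (K : ℝ) := Nat.cast_nonneg _
  have hmin1 := min_le_left (c / N) (1 / (N : ℝ) ^ 3)
  have hmin2 := min_le_right (c / N) (1 / (N : ℝ) ^ 3)
  have hmin0 : 0 < min (c / N) (1 / (N : ℝ) ^ 3) := by positivity
  have hcN : c / N ≤ c := by
    rw [div_le_iff₀ hNp]
    nlinarith
  by_cases hMN : N ≤ M
  · have h3 : M ^ 3 ≤ K := (Nat.pow_le_pow_right hM (by norm_num)).trans hK
    refine le_trans ?_ (h M K (by omega) h3)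
    apply div_le_div_of_nonneg_right _ (by linarith)
    exact mul_le_mul_of_nonneg_right (hmin1.trans hcN) hK0
  · have hMN' : M ≤ N := by omega
    by_cases hKN : N ^ 3 ≤ K
    · have hsub : LSF N K ⊆ LSF M K := by
        rintro k ⟨a, b, d, m, hm, e⟩
        exact ⟨a, b, d, m, hMN'.trans hm, e⟩
      have h1 := h N K (by omega) hKN
      have h2 : ((LSF N K).ncard : ℝ) ≤ ((LSF M K).ncard : ℝ) := by
        exact_mod_cast Set.ncard_le_ncard hsub (LB4_fin M K)
      refine le_trans ?_ (h1.trans h2)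
      have e1 : c * K / N = (c / N) * K := by ring
      rw [e1]
      calc min (c / N) (1 / (N : ℝ) ^ 3) * K / M ≤ min (c / N) (1 / (N : ℝ) ^ 3) * K := by
            apply div_le_self _ hM1
            positivity
        _ ≤ (c / N) * K := mul_le_mul_of_nonneg_right hmin1 hK0
    · have h1 : (1 : ℝ) ≤ ((LSF M K).ncard : ℝ) := by exact_mod_cast LB7_ne M K hM hK
      refine le_trans ?_ h1
      have hKr : (K : ℝ) ≤ (N : ℝ) ^ 3 := by exact_mod_cast (not_le.1 hKN).le
      calc min (c / N) (1 / (N : ℝ) ^ 3) * K / M ≤ min (c / N) (1 / (N : ℝ) ^ 3) * K := by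
            apply div_le_self _ hM1
            positivity
        _ ≤ (1 / (N : ℝ) ^ 3) * (N : ℝ) ^ 3 :=
            mul_le_mul hmin2 hKr hK0 (by positivity)
        _ = 1 := by field_simp

end RC91
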