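import Pool.Agent.LibLS91.LG1
import Pool.Agent.LibRC91.C1
import Pool.Agent.LibRC91.K1

/-!
# [LS91 LG2] the `k` with given `(A, c)` which have a far point
Same proof as F2 of LibRC91 (copy it) with LG1 instead of G11. `x > 0` because `x < 0` gives `y^2 = x^3 + k < 0`
(`|x|^3 > K ≥ |k|`, `K ≥ 2`). Take `B = K` (real), `X1 ≤ K`.
-/
set_option autoImplicit false
namespace RC91

private theorem LG2_refl {K : Type} [Field K] (a : K) : Eqv a a :=
  ⟨1, one_ne_zero, by ring⟩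

private theorem LG2_symm {K : Type} [Field K] {a b : K} (hab : Eqv a b) : Eqv b a := by
  obtain ⟨g, hg, e⟩ := hab
  refine ⟨g⁻¹, inv_ne_zero hg, ?_⟩
  rw [e]; field_simp

private theorem LG2_trans {K : Type} [Field K] {a b c : K} (hab : Eqv a b) (hbc : Eqv b c) :
    Eqv a c := by
  obtain ⟨g, hg, e⟩ := hab
  obtain ⟨g', hg', e'⟩ := hbc
  exact ⟨g * g', mul_ne_zero hg hg', by rw [e', e]; ring⟩

/-- counting with classes: if every class of a finite set has at most `M` elements and every set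
of pairwise inequivalent elements has at most `N` elements then the set has at most `N * M` -/
private theorem LG2_classes {α : Type} [DecidableEq α] (r : Setoid α) (T : Finset α) (N : ℕ)
    (M : ℝ) (hM : 0 ≤ M)
    (hcl : ∀ F : Finset α, F ⊆ T → (∀ a ∈ F, ∀ b ∈ F, r a b) → (F.card : ℝ) ≤ M)
    (hin : ∀ F : Finset α, F ⊆ T → (∀ a ∈ F, ∀ b ∈ F, a ≠ b → ¬ r a b) → F.card ≤ N) :
    (T.card : ℝ) ≤ N * M := by
  classical
  set π : α → Quotient r := fun a => Quotient.mk r a with hπ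
  have hU : (T.image π).card ≤ N := by
    have hrep : ∀ u : Quotient r, ∃ a : α, u ∈ T.image π → a ∈ T ∧ π a = u := by
      intro u
      by_cases hu : u ∈ T.image π
      · obtain ⟨a, ha, hau⟩ := Finset.mem_image.mp hu
        exact ⟨a, fun _ => ⟨ha, hau⟩⟩
      · exact ⟨Quotient.out u, fun hh => absurd hh hu⟩
    choose rep hrep using hrep
    have hinj : Set.InjOn rep (T.image π : Finset (Quotient r)) := by
      intro u hu v hv huv
      have h1 := (hrep u (by exact_mod_cast hu)).2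
      have h2 := (hrep v (by exact_mod_cast hv)).2
      rw [← h1, ← h2, huv]
    rw [← Finset.card_image_of_injOn hinj]
    apply hin
    · intro a ha
      obtain ⟨u, hu, rfl⟩ := Finset.mem_image.mp ha
      exact (hrep u hu).1
    · intro a ha b hb hab hr
      obtain ⟨u, hu, rfl⟩ := Finset.mem_image.mp ha
      obtain ⟨v, hv, rfl⟩ := Finset.mem_image.mp hb
      apply hab
      have h1 : π (rep u) = π (rep v) := Quotient.sound hr
      rw [(hrep u hu).2, (hrep v hv).2] at h1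
      rw [h1]
  have hcard : (T.card : ℝ) = ∑ u ∈ T.image π, ((T.filter (fun a => π a = u)).card : ℝ) := by
    rw [Finset.card_eq_sum_card_image π T]
    push_cast
    rfl
  rw [hcard]
  calc ∑ u ∈ T.image π, ((T.filter (fun a => π a = u)).card : ℝ)
      ≤ ∑ _u ∈ T.image π, M := by
        apply Finset.sum_le_sum
        intro u _
        apply hcl
        · exact Finset.filter_subset _ _
        · intro a ha b hb
          have h1 := (Finset.mem_filter.mp ha).2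
          have h2 := (Finset.mem_filter.mp hb).2
          exact Quotient.exact (h1.trans h2.symm)
    _ = ((T.image π).card : ℝ) * M := by rw [Finset.sum_const, nsmul_eq_mul]
    _ ≤ N * M := mul_le_mul_of_nonneg_right (by exact_mod_cast hU) hM

theorem LG2 : ∃ C : ℝ, ∃ K0 : ℕ, 0 < C ∧ 2 ≤ K0 ∧ ∀ A : ℤ, Squarefree A → A ≠ 1 → ∀ K : ℕ, K0 ≤ K →
    ∀ c : ℕ, ∀ S : Finset ℤ,
    (∀ k ∈ S, (∀ p : ℕ, p.Prime → ¬ ((p : ℤ) ^ 6 ∣ k)) ∧ |k| ≤ K ∧
      ∃ m x y : ℤ, 0 < m ∧ k = A * m ^ 2 ∧ y ^ 2 - x ^ 3 = k ∧ (K : ℤ) ^ 8 ≤ |x| ∧ cc A m x = c) →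
    (S.card : ℝ) ≤ C * 2 ^ c.primeFactors.card * (1 + ((QA A).ncard : ℝ)) := by
  classical
  obtain ⟨C, X1, hC, hX1, hG⟩ := LG1
  refine ⟨81 * C, max 2 ⌈X1⌉₊, by positivity, le_max_left _ _, ?_⟩
  intro A hA hA1 K0 hK0 c S hS
  have hK2 : 2 ≤ K0 := (le_max_left _ _).trans hK0
  have hKX : X1 ≤ (K0 : ℝ) := by
    have h1 : (⌈X1⌉₊ : ℝ) ≤ (K0 : ℝ) := by exact_mod_cast (le_max_right 2 ⌈X1⌉₊).trans hK0
    exact (Nat.le_ceil X1).trans h1
  obtain ⟨K, iK, iN, ⟨h⟩⟩ := K1 A hA hA1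
  -- choose the triples
  have hq : ∀ k : ℤ, ∃ q : ℤ × ℤ × ℤ, k ∈ S →
      (0 < q.2.2 ∧ k = A * q.2.2 ^ 2 ∧ q.2.1 ^ 2 - q.1 ^ 3 = k ∧ (K0 : ℤ) ^ 8 ≤ |q.1| ∧
        cc A q.2.2 q.1 = c) := by
    intro k
    by_cases hk : k ∈ S
    · obtain ⟨_, _, m, x, y, hm, hkm, hb, hx, hc⟩ := hS k hk
      exact ⟨(x, y, m), fun _ => ⟨hm, hkm, hb, hx, hc⟩⟩
    · exact ⟨(0, 0, 0), fun hh => absurd hh hk⟩
  choose f hf using hq
  have hinj : Set.InjOn f (S : Set ℤ) := by
    intro k hk k' hk' e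
    have h1 := (hf k (by exact_mod_cast hk)).2.1
    have h2 := (hf k' (by exact_mod_cast hk')).2.1
    rw [h1, h2, e]
  have hcard : (S.image f).card = S.card := Finset.card_image_of_injOn hinj
  -- properties of the triples
  have hT : ∀ q ∈ S.image f, ((K0 : ℝ)) ^ 8 ≤ (q.1 : ℝ) ∧ 0 < q.2.2 ∧
      q.2.1 ^ 2 - A * q.2.2 ^ 2 = q.1 ^ 3 ∧
      (∀ p : ℕ, p.Prime → ¬ ((p : ℤ) ^ 6 ∣ A * q.2.2 ^ 2)) ∧
      ((|A * q.2.2 ^ 2| : ℤ) : ℝ) ≤ (K0 : ℝ) ∧
      0 < q.1 ∧ cc A q.2.2 q.1 = c := by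
    intro q hq
    obtain ⟨k, hk, rfl⟩ := Finset.mem_image.mp hq
    obtain ⟨hm, hkm, hb, hx, hc⟩ := hf k hk
    obtain ⟨h6, hkB, _⟩ := hS k hk
    have hK8 : (K0 : ℤ) < (K0 : ℤ) ^ 8 := by
      have : K0 < K0 ^ 8 := by
        calc K0 = K0 ^ 1 := (pow_one _).symm
          _ < K0 ^ 8 := Nat.pow_lt_pow_right (by omega) (by norm_num)
      exact_mod_cast this
    have hxpos : 0 < (f k).1 := by
      by_contra hcon
      have h1 : |(f k).1| = -(f k).1 := abs_of_nonpos (not_lt.mp hcon)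
      rw [h1] at hx
      have hkk : k ≤ |k| := le_abs_self k
      have h2 : (-(f k).1) ^ 3 ≤ k := by
        have h3 : (-(f k).1) ^ 3 = k - (f k).2.1 ^ 2 := by
          have h3' : (f k).2.1 ^ 2 - (f k).1 ^ 3 = k := hb
          linear_combination h3'
        rw [h3]
        nlinarith [sq_nonneg (f k).2.1]
      have h4 : (K0 : ℤ) < -(f k).1 := hK8.trans_le hx
      have h5 : 1 ≤ -(f k).1 := by omega
      have h6 : -(f k).1 ≤ (-(f k).1) ^ 3 := by nlinarith [sq_nonneg (f k).1]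
      omega
    rw [abs_of_pos hxpos] at hx
    refine ⟨by exact_mod_cast hx, hm, ?_, ?_, ?_, hxpos, hc⟩
    · rw [← hkm]; linarith
    · rw [← hkm]; exact h6
    · rw [← hkm]; exact_mod_cast hkB
  let r : Setoid (ℤ × ℤ × ℤ) :=
    { r := fun q q' => Eqv (al h q.2.1 q.2.2) (al h q'.2.1 q'.2.2)
      iseqv := ⟨fun _ => LG2_refl _, fun hab => LG2_symm hab, fun hab hbc => LG2_trans hab hbc⟩ }
  have hmain := LG2_classes r (S.image f) (81 * 2 ^ c.primeFactors.card * (1 + (QA A).ncard))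
    C hC.le ?_ ?_
  · rw [hcard] at hmain
    refine hmain.trans (le_of_eq ?_)
    push_cast
    ring
  · intro F hF hFr
    apply hG A K h K0 hKX F
    · intro q hq
      obtain ⟨a1, a2, a3, a4, a5, _, _⟩ := hT q (hF hq)
      exact ⟨a1, a2, a3, a4, a5⟩
    · intro q hq q' hq'
      exact hFr q hq q' hq'
  · intro F hF hFr
    apply C1 h hA hA1 c F
    · intro q hq
      obtain ⟨a1, a2, a3, a4, a5, a7, a8⟩ := hT q (hF hq)
      exact ⟨a7.ne', a2.ne', a3, a4, a8⟩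
    · intro q hq q' hq' hne
      exact hFr q hq q' hq' hne

end RC91
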