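import Pool.Agent.LibLS91.LA3
import Pool.Agent.LibLS91.LG2
import Pool.Agent.LibLS91.LB1
import Pool.Agent.LibLS91.LB5

/-!
# [LS91 LC1] levels with a large part prime to `x`
PLAN. `k ∈ Lev M1 K True`: `k = A m^2`, `M1 ≤ m < 2 M1`, `|A| ≤ K/M1^2 =: T` (natural division, `T ≥ 1`), `WW M1 ≤ nn A m x`, so
`c = cc A m x ≤ m/nn ≤ X := 2 M1 / WW M1` (LB1_mul), `c ≥ 1`. For given `(A, c)` LG2: at most `C 2^ω(c) (1 + #QA A)` values `k`.
`∑_{A square free, A ≠ 1, 1 ≤ |A| ≤ T} (1 + #QA A) ≤ 3 T + C' T` (LA3), `∑_{c ≤ X} 2^ω(c) ≤ X (1 + log X)` (LB5),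
`X ≤ 2 M1/(1 + log M1)^2`, `1 + log X ≤ 2 (1 + log M1)`. Total `≤ C'' (K/M1^2) (M1/(1 + log M1))`.
-/
set_option autoImplicit false
namespace RC91

theorem LC1 : ∃ C : ℝ, ∃ K0 : ℕ, 0 < C ∧ ∀ M1 K : ℕ, 1 ≤ M1 → K0 ≤ K → M1 ^ 2 ≤ K →
    (Lev M1 K True).Finite ∧
    ((Lev M1 K True).ncard : ℝ) ≤ C * K / (M1 * (1 + Real.log M1)) := by
  classical
  obtain ⟨C, K0, hC, hK0, hLG⟩ := LG2
  obtain ⟨C', hC', hLA⟩ := LA3
  refine ⟨2 * C * (3 + C'), K0, by positivity, fun M1 K hM hK hMK => ?_⟩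
  have hfinK : (Set.Icc (-(K : ℤ)) (K : ℤ)).Finite := Set.finite_Icc _ _
  have hLfin : (Lev M1 K True).Finite :=
    hfinK.subset (by rintro k ⟨_, h, _⟩; exact Set.mem_Icc.2 (abs_le.1 h))
  refine ⟨hLfin, ?_⟩
  have hM0 : 0 < M1 := hM
  set T : ℕ := K / M1 ^ 2 with hTdef
  have hT : 1 ≤ T := Nat.div_pos hMK (by positivity)
  have hWpos : 0 < WW M1 := by unfold WW; omega
  set X : ℕ := 2 * M1 / WW M1 with hXdef
  let SA : Finset ℤ := (Finset.Icc (-(T : ℤ)) (T : ℤ)).filter (fun A => Squarefree A ∧ A ≠ 1)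
  let G : ℤ → ℕ → Set ℤ := fun A c => {k : ℤ | (∀ p : ℕ, p.Prime → ¬ ((p : ℤ) ^ 6 ∣ k)) ∧
    |k| ≤ K ∧ ∃ m x y : ℤ, 0 < m ∧ k = A * m ^ 2 ∧ y ^ 2 - x ^ 3 = k ∧ (K : ℤ) ^ 8 ≤ |x| ∧
      cc A m x = c}
  have hGfin : ∀ A c, (G A c).Finite := fun A c =>
    hfinK.subset (by rintro k ⟨_, h, _⟩; exact Set.mem_Icc.2 (abs_le.1 h))
  have hGle : ∀ A ∈ SA, ∀ c : ℕ, ((G A c).ncard : ℝ) ≤
      C * 2 ^ c.primeFactors.card * (1 + ((QA A).ncard : ℝ)) := by
    intro A hA c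
    have hA' := (Finset.mem_filter.1 hA).2
    have h1 := hLG A hA'.1 hA'.2 K hK c (hGfin A c).toFinset (by
      intro k hk
      rw [Set.Finite.mem_toFinset] at hk
      exact hk)
    rwa [← Set.ncard_eq_toFinset_card _ (hGfin A c)] at h1
  have hsub : Lev M1 K True ⊆ ⋃ A ∈ SA, ⋃ c ∈ Finset.Icc 1 X, G A c := by
    rintro k ⟨hk0, hkK, h6, A, m, x, y, hA, hA1, hm1, hm2, hk, he, hx, hb⟩
    have hnn : WW M1 ≤ nn A m x := hb.2 trivial
    have hm0 : 0 < m := by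
      have : (1 : ℤ) ≤ (M1 : ℤ) := by exact_mod_cast hM
      linarith
    have hAT : |A| ≤ (T : ℤ) := by
      have h1 : |A| * (M1 : ℤ) ^ 2 ≤ K := by
        have h2 : |k| = |A| * m ^ 2 := by
          rw [hk, abs_mul, abs_of_nonneg (sq_nonneg m)]
        have h3 : (M1 : ℤ) ^ 2 ≤ m ^ 2 := by
          have : (0 : ℤ) ≤ (M1 : ℤ) := Int.natCast_nonneg _
          gcongr
        calc |A| * (M1 : ℤ) ^ 2 ≤ |A| * m ^ 2 := mul_le_mul_of_nonneg_left h3 (abs_nonneg A)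
          _ = |k| := h2.symm
          _ ≤ K := hkK
      rw [Int.abs_eq_natAbs] at h1 ⊢
      have h4 : A.natAbs * M1 ^ 2 ≤ K := by exact_mod_cast h1
      have h5 : A.natAbs ≤ T := (Nat.le_div_iff_mul_le (by positivity)).2 h4
      exact_mod_cast h5
    have hc1 : 1 ≤ cc A m x := LB1_ccpos A m x
    have hcX : cc A m x ≤ X := by
      rw [hXdef, Nat.le_div_iff_mul_le hWpos]
      have h1 := LB1_mul A m x hm0.ne'
      have h2 : cc A m x * WW M1 ≤ cc A m x * nn A m x := Nat.mul_le_mul_left _ hnn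
      have h3 : m.natAbs ≤ 2 * M1 := by omega
      omega
    simp only [Set.mem_iUnion]
    refine ⟨A, ?_, cc A m x, Finset.mem_Icc.2 ⟨hc1, hcX⟩, h6, hkK, m, x, y, hm0, hk, he, hx, rfl⟩
    exact Finset.mem_filter.2 ⟨Finset.mem_Icc.2 (abs_le.1 hAT), hA, hA1⟩
  have hUfin : (⋃ A ∈ SA, ⋃ c ∈ Finset.Icc 1 X, G A c).Finite :=
    SA.finite_toSet.biUnion fun A _ => (Finset.Icc 1 X).finite_toSet.biUnion fun c _ => hGfin A c
  have hQ : ∑ A ∈ SA, (1 + ((QA A).ncard : ℝ)) ≤ (3 + C') * T := by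
    rw [Finset.sum_add_distrib]
    have h1 := hLA T hT SA (by
      intro A hA
      have hA' := Finset.mem_filter.1 hA
      exact ⟨hA'.2.1, hA'.2.2, abs_le.2 (Finset.mem_Icc.1 hA'.1)⟩)
    have h2 : ∑ A ∈ SA, (1 : ℝ) ≤ 3 * T := by
      rw [Finset.sum_const, nsmul_eq_mul, mul_one]
      have h3 : SA.card ≤ 3 * T := by
        refine (Finset.card_filter_le _ _).trans ?_
        rw [Int.card_Icc]
        omega
      exact_mod_cast h3
    linarith
  have hS : ∑ c ∈ Finset.Icc 1 X, (2 : ℝ) ^ c.primeFactors.card ≤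
      2 * M1 / (1 + Real.log M1) := by
    have hl0 : 0 ≤ Real.log M1 := Real.log_nonneg (by exact_mod_cast hM)
    have hMr : (0 : ℝ) < M1 := by exact_mod_cast hM0
    rcases Nat.eq_zero_or_pos X with h0 | h0
    · rw [h0]
      simp only [show Finset.Icc 1 0 = (∅ : Finset ℕ) from rfl, Finset.sum_empty]
      positivity
    · refine (LB5 X).trans ?_
      have hW4 : 4 ≤ WW M1 := by unfold WW; omega
      have hXM : X ≤ M1 := by
        rw [hXdef]
        refine (Nat.div_le_div_left hW4 (by norm_num)).trans ?_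
        omega
      have hX0 : (0 : ℝ) < X := by exact_mod_cast h0
      have hlX : Real.log X ≤ Real.log M1 := Real.log_le_log hX0 (by exact_mod_cast hXM)
      have hWr : (1 + Real.log M1) ^ 2 ≤ (WW M1 : ℝ) := by
        unfold WW
        push_cast
        have := Nat.le_ceil ((1 + Real.log M1) ^ 2)
        linarith
      have hXr : (X : ℝ) ≤ 2 * M1 / (1 + Real.log M1) ^ 2 := by
        have h1 : (X : ℝ) ≤ ((2 * M1 : ℕ) : ℝ) / (WW M1 : ℝ) := Nat.cast_div_le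
        refine h1.trans ?_
        push_cast
        gcongr
      calc (X : ℝ) * (1 + Real.log X) ≤
            2 * M1 / (1 + Real.log M1) ^ 2 * (1 + Real.log M1) := by
              have : 0 ≤ Real.log X := Real.log_nonneg (by exact_mod_cast h0)
              gcongr
        _ = 2 * M1 / (1 + Real.log M1) := by field_simp
  have hl0 : 0 ≤ Real.log M1 := Real.log_nonneg (by exact_mod_cast hM)
  have hMr : (0 : ℝ) < M1 := by exact_mod_cast hM0
  have hTr : (T : ℝ) ≤ K / (M1 : ℝ) ^ 2 := by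
    have h1 : (T : ℝ) ≤ (K : ℝ) / ((M1 ^ 2 : ℕ) : ℝ) := Nat.cast_div_le
    push_cast at h1
    exact h1
  calc ((Lev M1 K True).ncard : ℝ)
      ≤ ((⋃ A ∈ SA, ⋃ c ∈ Finset.Icc 1 X, G A c).ncard : ℝ) := by
        exact_mod_cast Set.ncard_le_ncard hsub hUfin
    _ ≤ ((∑ A ∈ SA, (⋃ c ∈ Finset.Icc 1 X, G A c).ncard : ℕ) : ℝ) := by
        exact_mod_cast Finset.set_ncard_biUnion_le SA _
    _ = ∑ A ∈ SA, ((⋃ c ∈ Finset.Icc 1 X, G A c).ncard : ℝ) := by push_cast; rfl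
    _ ≤ ∑ A ∈ SA, ∑ c ∈ Finset.Icc 1 X,
          C * 2 ^ c.primeFactors.card * (1 + ((QA A).ncard : ℝ)) := by
        refine Finset.sum_le_sum fun A hA => ?_
        refine le_trans ?_ (Finset.sum_le_sum fun c _ => hGle A hA c)
        have h1 := Finset.set_ncard_biUnion_le (Finset.Icc 1 X) (G A)
        exact_mod_cast h1
    _ = C * (∑ c ∈ Finset.Icc 1 X, (2 : ℝ) ^ c.primeFactors.card) *
          ∑ A ∈ SA, (1 + ((QA A).ncard : ℝ)) := by
        rw [Finset.mul_sum]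
        refine Finset.sum_congr rfl fun A _ => ?_
        rw [Finset.mul_sum, Finset.sum_mul]
    _ ≤ C * (2 * M1 / (1 + Real.log M1)) * ((3 + C') * (K / (M1 : ℝ) ^ 2)) := by
        have h1 : 0 ≤ ∑ A ∈ SA, (1 + ((QA A).ncard : ℝ)) :=
          Finset.sum_nonneg fun _ _ => by positivity
        have h2 : (3 + C') * (T : ℝ) ≤ (3 + C') * (K / (M1 : ℝ) ^ 2) := by gcongr
        have h3 := hQ.trans h2
        have h4 : 0 ≤ 2 * (M1 : ℝ) / (1 + Real.log M1) := by positivity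
        gcongr
    _ = 2 * C * (3 + C') * K / (M1 * (1 + Real.log M1)) := by
        field_simp

end RC91
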