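import Pool.Agent.LibLS91.LB1
import Pool.Agent.LibLS91.LB2
import Pool.Agent.LibLS91.LB3

/-!
# [LS91 LC2] levels with a small part prime to `x`
PLAN. `k ∈ Lev M1 K False`: `k = A m^2`, `nn A m x < WW M1`, `|A| ≤ T := K/M1^2` (natural division, `T ≥ 4 M1`). For every prime
`p > WW M1 ≥ 5` with `p ∣ m`: either `p ∣ A` or `p ∣ x` (LB1_dvd), in both cases `A` is a square mod `p` (LB1_sq, with
`y^2 - A m^2 = x^3`). So `k` is the image (under `(A, m) ↦ A m^2`) of a pair with `m ∈ [M1, 2M1)`, `|A| ≤ T`, `A` a square modulo every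
prime of `d(m) = ∏ p ∈ m.primeFactors, p > WW M1`; `d(m)` is square free, divides `m`, `d(m) ≤ m < 2 M1 ≤ T`, its number of primes is
`wbig (WW M1) m ≤ log2 (2 M1) ≤ WW M1 ≤ p` (`2^ω ≤ m`). LB2: `≤ ∑_m 9 T (1/2)^(wbig (WW M1) m)`, then LB3: `≤ 9 T C M1 rate M1`.
-/
set_option autoImplicit false
namespace RC91

private lemma LC2_WW (M : ℕ) (hM : 1 ≤ M) : 5 ≤ WW M := by
  have h1 : (0 : ℝ) ≤ Real.log M := Real.log_natCast_nonneg M
  have h2 : (1 : ℝ) ≤ (1 + Real.log M) ^ 2 := by nlinarith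
  have h3 : 0 < ⌈(1 + Real.log M) ^ 2⌉₊ := Nat.ceil_pos.mpr (by linarith)
  unfold WW
  omega

private lemma LC2_prod_primeFactors (s : Finset ℕ) (hs : ∀ p ∈ s, p.Prime) :
    (∏ p ∈ s, p).primeFactors = s := by
  exact Nat.primeFactors_prod hs

private lemma LC2_squarefree (s : Finset ℕ) (hs : ∀ p ∈ s, p.Prime) :
    Squarefree (∏ p ∈ s, p) := by
  classical
  induction s using Finset.induction_on with
  | empty => simp
  | insert a s ha ih =>
    rw [Finset.prod_insert ha]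
    have hs' : ∀ p ∈ s, p.Prime := fun p hp => hs p (Finset.mem_insert_of_mem hp)
    have hpa : a.Prime := hs a (Finset.mem_insert_self _ _)
    rw [Nat.squarefree_mul_iff]
    refine ⟨?_, hpa.prime.squarefree, ih hs'⟩
    apply Nat.Coprime.prod_right
    intro p hp
    rw [Nat.coprime_primes hpa (hs' p hp)]
    rintro rfl
    exact ha hp

private lemma LC2_dle (m W : ℕ) (hm : m ≠ 0) :
    (∏ p ∈ m.primeFactors.filter (fun p => W < p), p) ≤ m := by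
  have h1 : (∏ p ∈ m.primeFactors.filter (fun p => W < p), p) ∣ ∏ p ∈ m.primeFactors, p :=
    Finset.prod_dvd_prod_of_subset _ _ _ (Finset.filter_subset _ _)
  exact Nat.le_of_dvd (Nat.pos_of_ne_zero hm) (h1.trans (Nat.prod_primeFactors_dvd m))

private lemma LC2_wbig (M m : ℕ) (hM : 1 ≤ M) (hm1 : M ≤ m) (hm2 : m < 2 * M) :
    wbig (WW M) m ≤ WW M := by
  have h0 : m ≠ 0 := by omega
  have h1 : 2 ^ wbig (WW M) m ≤ m := by
    refine le_trans ?_ (LC2_dle m (WW M) h0)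
    unfold wbig
    rw [← Finset.prod_const]
    apply Finset.prod_le_prod'
    intro p hp
    exact (Nat.prime_of_mem_primeFactors (Finset.mem_filter.mp hp).1).two_le
  have hL : (0 : ℝ) ≤ Real.log M := Real.log_natCast_nonneg M
  have hMpos : (0 : ℝ) < M := by exact_mod_cast hM
  have h2 : ((2 : ℝ)) ^ wbig (WW M) m ≤ 2 * M := by
    have : (2 ^ wbig (WW M) m : ℕ) ≤ 2 * M := by omega
    exact_mod_cast this
  have h3 : (wbig (WW M) m : ℝ) * Real.log 2 ≤ Real.log 2 + Real.log M := by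
    have := Real.log_le_log (by positivity) h2
    rw [Real.log_pow, Real.log_mul (by norm_num) hMpos.ne'] at this
    exact this
  have h4 : (1 / 2 : ℝ) ≤ Real.log 2 := by
    have := Real.log_two_gt_d9
    linarith
  have h5 : (wbig (WW M) m : ℝ) ≤ 1 + 2 * Real.log M := by
    by_contra hcon
    push Not at hcon
    nlinarith
  have h6 : (1 + Real.log M) ^ 2 ≤ (⌈(1 + Real.log M) ^ 2⌉₊ : ℝ) := Nat.le_ceil _
  have h7 : (wbig (WW M) m : ℝ) ≤ (WW M : ℝ) := by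
    have : (WW M : ℝ) = 4 + (⌈(1 + Real.log M) ^ 2⌉₊ : ℝ) := by
      unfold WW
      push_cast
      ring
    rw [this]
    nlinarith
  exact_mod_cast h7

/-- the set of `A` for given `m` -/
private def LC2_S (M1 K m : ℕ) : Set ℤ :=
  {A : ℤ | |A| ≤ ((K / M1 ^ 2 : ℕ) : ℤ) ∧
    ∀ p ∈ (∏ p ∈ m.primeFactors.filter (fun p => WW M1 < p), p).primeFactors,
      IsSquare ((A : ℤ) : ZMod p)}

private lemma LC2_S_bound (M1 K m : ℕ) (hM : 1 ≤ M1) (hK : 4 * M1 ^ 3 ≤ K) (hm1 : M1 ≤ m)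
    (hm2 : m < 2 * M1) : (LC2_S M1 K m).Finite ∧
    ((LC2_S M1 K m).ncard : ℝ) ≤
      9 * ((K / M1 ^ 2 : ℕ) : ℝ) * (1 / 2 : ℝ) ^ wbig (WW M1) m := by
  have hprime : ∀ p ∈ m.primeFactors.filter (fun p => WW M1 < p), p.Prime :=
    fun p hp => Nat.prime_of_mem_primeFactors (Finset.mem_filter.mp hp).1
  have hpf := LC2_prod_primeFactors (m.primeFactors.filter (fun p => WW M1 < p)) hprime
  have hcard : (∏ p ∈ m.primeFactors.filter (fun p => WW M1 < p), p).primeFactors.card =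
      wbig (WW M1) m := by
    rw [hpf]
    rfl
  have hT : 4 * M1 ≤ K / M1 ^ 2 := by
    rw [Nat.le_div_iff_mul_le (by positivity)]
    calc 4 * M1 * M1 ^ 2 = 4 * M1 ^ 3 := by ring
      _ ≤ K := hK
  have h := LB2 (∏ p ∈ m.primeFactors.filter (fun p => WW M1 < p), p) (K / M1 ^ 2)
    (LC2_squarefree _ hprime) ?_ ?_ ?_
  · rw [hcard] at h
    exact h
  · intro p hp
    rw [hpf] at hp
    have h1 := (Finset.mem_filter.mp hp).2
    have h2 := LC2_WW M1 hM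
    omega
  · intro p hp
    rw [hcard]
    rw [hpf] at hp
    have h1 := (Finset.mem_filter.mp hp).2
    have h2 := LC2_wbig M1 m hM hm1 hm2
    omega
  · have h1 := LC2_dle m (WW M1) (by omega)
    omega

private lemma LC2_sub (M1 K : ℕ) (hM : 1 ≤ M1) :
    Lev M1 K False ⊆ ⋃ m ∈ Finset.Ico M1 (2 * M1),
      (fun A : ℤ => A * (m : ℤ) ^ 2) '' LC2_S M1 K m := by
  rintro k ⟨hk0, hkK, h6, A, m, x, y, hA, hA1, hm1, hm2, hk, hxy, hx, hiff⟩
  have hnn : nn A m x < WW M1 := by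
    by_contra hcon
    exact hiff.mp (not_lt.mp hcon)
  have hmpos : 0 < m := by
    have : (1 : ℤ) ≤ M1 := by exact_mod_cast hM
    omega
  obtain ⟨n, rfl⟩ : ∃ n : ℕ, m = (n : ℤ) := ⟨m.toNat, (Int.toNat_of_nonneg hmpos.le).symm⟩
  have hn1 : M1 ≤ n := by exact_mod_cast hm1
  have hn2 : n < 2 * M1 := by exact_mod_cast hm2
  simp only [Set.mem_iUnion, Finset.mem_Ico]
  refine ⟨n, ⟨hn1, hn2⟩, A, ⟨?_, ?_⟩, hk.symm⟩
  · -- |A| ≤ K / M1^2
    have h1 : |A| * (M1 : ℤ) ^ 2 ≤ K := by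
      calc |A| * (M1 : ℤ) ^ 2 ≤ |A| * (n : ℤ) ^ 2 := by
            apply mul_le_mul_of_nonneg_left _ (abs_nonneg A)
            exact pow_le_pow_left₀ (by positivity) hm1 2
        _ = |k| := by
            rw [hk, abs_mul, abs_of_nonneg (by positivity : (0 : ℤ) ≤ (n : ℤ) ^ 2)]
        _ ≤ K := hkK
    have h2 : A.natAbs * M1 ^ 2 ≤ K := by
      have : ((A.natAbs * M1 ^ 2 : ℕ) : ℤ) ≤ (K : ℤ) := by
        push_cast
        exact h1
      exact_mod_cast this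
    have h3 : A.natAbs ≤ K / M1 ^ 2 := (Nat.le_div_iff_mul_le (by positivity)).mpr h2
    have h4 : ((A.natAbs : ℕ) : ℤ) ≤ ((K / M1 ^ 2 : ℕ) : ℤ) := by exact_mod_cast h3
    rw [Int.natCast_natAbs] at h4
    exact h4
  · intro p hp
    rw [LC2_prod_primeFactors _
      (fun p hp => Nat.prime_of_mem_primeFactors (Finset.mem_filter.mp hp).1)] at hp
    obtain ⟨hpm, hpW⟩ := Finset.mem_filter.mp hp
    have hpp : p.Prime := Nat.prime_of_mem_primeFactors hpm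
    have hpdvd : (p : ℤ) ∣ (n : ℤ) := by exact_mod_cast Nat.dvd_of_mem_primeFactors hpm
    have hW5 := LC2_WW M1 hM
    have hk' : A * (n : ℤ) ^ 2 ≠ 0 := by rw [← hk]; exact hk0
    have hor : (p : ℤ) ∣ x ∨ (p : ℤ) ∣ A := by
      by_cases hpA : (p : ℤ) ∣ A
      · exact Or.inr hpA
      · exact Or.inl (LB1_dvd A n x hmpos.ne' p hpp (by omega) hpdvd hpA (by omega))
    exact LB1_sq A hA p hpp x y n (by rw [← hk, ← hxy]; ring)
      (by rw [← hk]; exact h6 p hpp) hk' hpdvd hor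

theorem LC2 : ∃ C : ℝ, 0 < C ∧ ∀ M1 K : ℕ, 1 ≤ M1 → 4 * M1 ^ 3 ≤ K →
    (Lev M1 K False).Finite ∧ ((Lev M1 K False).ncard : ℝ) ≤ C * rate M1 * K / M1 := by
  obtain ⟨C, hC, hsum⟩ := LB3
  refine ⟨9 * C, by positivity, ?_⟩
  intro M1 K hM hK
  have hb : ∀ m ∈ Finset.Ico M1 (2 * M1), (LC2_S M1 K m).Finite ∧
      ((LC2_S M1 K m).ncard : ℝ) ≤
        9 * ((K / M1 ^ 2 : ℕ) : ℝ) * (1 / 2 : ℝ) ^ wbig (WW M1) m := by
    intro m hm
    obtain ⟨h1, h2⟩ := Finset.mem_Ico.mp hm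
    exact LC2_S_bound M1 K m hM hK h1 h2
  have hfinU : (⋃ m ∈ Finset.Ico M1 (2 * M1),
      (fun A : ℤ => A * (m : ℤ) ^ 2) '' LC2_S M1 K m).Finite := by
    apply Set.Finite.biUnion (Finset.finite_toSet _)
    intro m hm
    exact ((hb m hm).1).image _
  refine ⟨hfinU.subset (LC2_sub M1 K hM), ?_⟩
  have h1 : (Lev M1 K False).ncard ≤ ∑ m ∈ Finset.Ico M1 (2 * M1), (LC2_S M1 K m).ncard := by
    calc (Lev M1 K False).ncard ≤ (⋃ m ∈ Finset.Ico M1 (2 * M1),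
          (fun A : ℤ => A * (m : ℤ) ^ 2) '' LC2_S M1 K m).ncard :=
          Set.ncard_le_ncard (LC2_sub M1 K hM) hfinU
      _ ≤ ∑ m ∈ Finset.Ico M1 (2 * M1),
          ((fun A : ℤ => A * (m : ℤ) ^ 2) '' LC2_S M1 K m).ncard :=
          Finset.set_ncard_biUnion_le _ _
      _ ≤ ∑ m ∈ Finset.Ico M1 (2 * M1), (LC2_S M1 K m).ncard := by
          apply Finset.sum_le_sum
          intro m hm
          exact Set.ncard_image_le (hb m hm).1
  have hMpos : (0 : ℝ) < M1 := by exact_mod_cast hM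
  have hT : ((K / M1 ^ 2 : ℕ) : ℝ) ≤ (K : ℝ) / (M1 : ℝ) ^ 2 := by
    have := @Nat.cast_div_le ℝ _ _ _ K (M1 ^ 2)
    push_cast at this
    exact this
  have hnonneg : (0 : ℝ) ≤ ∑ m ∈ Finset.Ico M1 (2 * M1), (1 / 2 : ℝ) ^ wbig (WW M1) m :=
    Finset.sum_nonneg (fun _ _ => by positivity)
  calc ((Lev M1 K False).ncard : ℝ)
      ≤ ∑ m ∈ Finset.Ico M1 (2 * M1), ((LC2_S M1 K m).ncard : ℝ) := by exact_mod_cast h1
    _ ≤ ∑ m ∈ Finset.Ico M1 (2 * M1),
          9 * ((K / M1 ^ 2 : ℕ) : ℝ) * (1 / 2 : ℝ) ^ wbig (WW M1) m :=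
        Finset.sum_le_sum (fun m hm => (hb m hm).2)
    _ = 9 * ((K / M1 ^ 2 : ℕ) : ℝ) *
          ∑ m ∈ Finset.Ico M1 (2 * M1), (1 / 2 : ℝ) ^ wbig (WW M1) m := by
        rw [Finset.mul_sum]
    _ ≤ 9 * ((K : ℝ) / (M1 : ℝ) ^ 2) *
          ∑ m ∈ Finset.Ico M1 (2 * M1), (1 / 2 : ℝ) ^ wbig (WW M1) m := by
        apply mul_le_mul_of_nonneg_right _ hnonneg
        linarith
    _ ≤ 9 * ((K : ℝ) / (M1 : ℝ) ^ 2) * (C * M1 * rate M1) := by
        apply mul_le_mul_of_nonneg_left (hsum M1 hM)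
        positivity
    _ = 9 * C * rate M1 * K / M1 := by
        field_simp

end RC91
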