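import Pool.Agent.LibLS91.Defs

/-!
# [LS91 LC3b] very large squares and perfect squares
PLAN. First set: union over `m` with `K < m^6`, `m^2 ≤ K` (`m^2 ∣ k ≠ 0`) of the `≤ 2 K/m^2` multiples of `m^2`. `m0` = least `m` with
`K < m^6`, `m0 ≥ K^(1/6)`; `∑_{m ≥ m0} 1/m^2 ≤ 2/m0` (finite sums: `1/m^2 ≤ 2 (1/m - 1/(m+1))`): total `≤ 4 K^(5/6)`. Second set: `m ≤ √K`:
at most `√K ≤ K^(5/6)` elements.
-/
set_option autoImplicit false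
namespace RC91

private theorem LC3b_sum (m₀ n : ℕ) (h0 : 1 ≤ m₀) :
    ∑ m ∈ Finset.Ico m₀ n, 1 / (m : ℝ) ^ 2 ≤ 2 / (m₀ : ℝ) := by
  have key : ∀ n : ℕ, m₀ ≤ n →
      ∑ m ∈ Finset.Ico m₀ n, 1 / (m : ℝ) ^ 2 ≤ 2 / (m₀ : ℝ) - 2 / (n : ℝ) := by
    intro n hn
    induction n, hn using Nat.le_induction with
    | base => simp
    | succ n hn ih =>
      rw [Finset.sum_Ico_succ_top hn]
      have hn0 : (1 : ℝ) ≤ n := by exact_mod_cast le_trans h0 hn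
      have h1 : 1 / (n : ℝ) ^ 2 ≤ 2 / n - 2 / ((n + 1 : ℕ) : ℝ) := by
        push_cast
        rw [div_sub_div _ _ (by positivity) (by positivity),
          div_le_div_iff₀ (by positivity) (by positivity)]
        nlinarith
      linarith
  rcases le_total m₀ n with h | h
  · refine (key n h).trans ?_
    have : (0 : ℝ) ≤ 2 / (n : ℝ) := by positivity
    linarith
  · rw [Finset.Ico_eq_empty (by omega)]
    simp only [Finset.sum_empty]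
    positivity

/-- nonzero multiples of `m ^ 2` -/
private noncomputable def LC3b_F (K m : ℕ) : Finset ℤ :=
  ((Finset.Icc (-((K / m ^ 2 : ℕ) : ℤ)) ((K / m ^ 2 : ℕ) : ℤ)).erase 0).image
    (fun j => j * (m : ℤ) ^ 2)

private theorem LC3b_card (K m : ℕ) : (LC3b_F K m).card ≤ 2 * (K / m ^ 2) := by
  unfold LC3b_F
  refine Finset.card_image_le.trans ?_
  have h0 : (0 : ℤ) ≤ ((K / m ^ 2 : ℕ) : ℤ) := Int.natCast_nonneg _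
  rw [Finset.card_erase_of_mem (Finset.mem_Icc.2 ⟨by omega, h0⟩), Int.card_Icc]
  omega

private theorem LC3b_mem (K m : ℕ) (hm : 1 ≤ m) {k : ℤ} (h0 : k ≠ 0) (hk : |k| ≤ K)
    (hd : (m : ℤ) ^ 2 ∣ k) : k ∈ LC3b_F K m := by
  obtain ⟨j, hj⟩ := hd
  have hm2 : (0 : ℤ) < (m : ℤ) ^ 2 := by positivity
  unfold LC3b_F
  refine Finset.mem_image.2 ⟨j, Finset.mem_erase.2 ⟨?_, ?_⟩, ?_⟩
  · rintro rfl
    exact h0 (by rw [hj, mul_zero])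
  · have h1 : |j| ≤ ((K / m ^ 2 : ℕ) : ℤ) := by
      push_cast
      rw [Int.le_ediv_iff_mul_le hm2]
      have h2 : |k| = |j| * (m : ℤ) ^ 2 := by
        rw [hj, abs_mul, abs_of_pos hm2, mul_comm]
      rw [← h2]
      exact hk
    exact Finset.mem_Icc.2 (abs_le.1 h1)
  · rw [hj, mul_comm]

theorem LC3b (K : ℕ) (hK : 1 ≤ K) :
    ({k : ℤ | k ≠ 0 ∧ |k| ≤ K ∧ ∃ m : ℕ, K < m ^ 6 ∧ (m : ℤ) ^ 2 ∣ k}.ncard : ℝ) ≤
      4 * (K : ℝ) ^ (5 / 6 : ℝ) := by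
  classical
  have hex : ∃ m : ℕ, K < m ^ 6 := ⟨K + 1, by
    calc K < K + 1 := Nat.lt_succ_self K
      _ ≤ (K + 1) ^ 6 := Nat.le_self_pow (by norm_num) _⟩
  set m₀ := Nat.find hex with hm₀
  have hm₀K : K < m₀ ^ 6 := Nat.find_spec hex
  have hm₀1 : 1 ≤ m₀ := by
    rcases Nat.eq_zero_or_pos m₀ with h | h
    · rw [h] at hm₀K
      simp at hm₀K
    · exact h
  have hKR : (1 : ℝ) ≤ K := by exact_mod_cast hK
  have hm₀R : (0 : ℝ) < m₀ := by exact_mod_cast hm₀1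
  have hsub : {k : ℤ | k ≠ 0 ∧ |k| ≤ K ∧ ∃ m : ℕ, K < m ^ 6 ∧ (m : ℤ) ^ 2 ∣ k} ⊆
      (((Finset.Ico m₀ (K + 1)).biUnion (LC3b_F K) : Finset ℤ) : Set ℤ) := by
    rintro k ⟨h0, hk, m, hm, hd⟩
    have h1 : m₀ ≤ m := Nat.find_min' hex hm
    have h2 : (m : ℤ) ^ 2 ≤ |k| := by
      have h3 : (m : ℤ) ^ 2 ∣ |k| := (dvd_abs _ _).2 hd
      exact Int.le_of_dvd (abs_pos.2 h0) h3
    have h3 : m ^ 2 ≤ K := by
      have := h2.trans hk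
      exact_mod_cast this
    have h4 : m ≤ m ^ 2 := Nat.le_self_pow (by norm_num) m
    rw [Finset.mem_coe, Finset.mem_biUnion]
    exact ⟨m, Finset.mem_Ico.2 ⟨h1, by omega⟩, LC3b_mem K m (hm₀1.trans h1) h0 hk hd⟩
  have h1 : {k : ℤ | k ≠ 0 ∧ |k| ≤ K ∧ ∃ m : ℕ, K < m ^ 6 ∧ (m : ℤ) ^ 2 ∣ k}.ncard ≤
      ∑ m ∈ Finset.Ico m₀ (K + 1), 2 * (K / m ^ 2) := by
    calc _ ≤ ((((Finset.Ico m₀ (K + 1)).biUnion (LC3b_F K) : Finset ℤ) : Set ℤ)).ncard :=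
          Set.ncard_le_ncard hsub (Finset.finite_toSet _)
      _ = ((Finset.Ico m₀ (K + 1)).biUnion (LC3b_F K)).card := Set.ncard_coe_finset _
      _ ≤ ∑ m ∈ Finset.Ico m₀ (K + 1), (LC3b_F K m).card := Finset.card_biUnion_le
      _ ≤ _ := Finset.sum_le_sum fun m _ => LC3b_card K m
  have h2 : ((∑ m ∈ Finset.Ico m₀ (K + 1), 2 * (K / m ^ 2) : ℕ) : ℝ) ≤
      2 * K * ∑ m ∈ Finset.Ico m₀ (K + 1), 1 / (m : ℝ) ^ 2 := by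
    push_cast
    rw [Finset.mul_sum]
    refine Finset.sum_le_sum fun m _ => ?_
    have h3 : ((K / m ^ 2 : ℕ) : ℝ) ≤ (K : ℝ) / ((m ^ 2 : ℕ) : ℝ) := Nat.cast_div_le
    push_cast at h3
    calc 2 * ((K / m ^ 2 : ℕ) : ℝ) ≤ 2 * ((K : ℝ) / (m : ℝ) ^ 2) := by linarith
      _ = 2 * K * (1 / (m : ℝ) ^ 2) := by ring
  have h3 := LC3b_sum m₀ (K + 1) hm₀1
  have h4 : (K : ℝ) ^ (1 / 6 : ℝ) ≤ m₀ := by
    have h5 : (K : ℝ) ≤ (m₀ : ℝ) ^ (6 : ℕ) := by exact_mod_cast hm₀K.le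
    calc (K : ℝ) ^ (1 / 6 : ℝ) ≤ ((m₀ : ℝ) ^ (6 : ℕ)) ^ (1 / 6 : ℝ) :=
          Real.rpow_le_rpow (by positivity) h5 (by norm_num)
      _ = m₀ := by
          rw [← Real.rpow_natCast, ← Real.rpow_mul hm₀R.le]
          norm_num
  have h5 : (K : ℝ) / m₀ ≤ (K : ℝ) ^ (5 / 6 : ℝ) := by
    rw [div_le_iff₀ hm₀R]
    calc (K : ℝ) = (K : ℝ) ^ (5 / 6 : ℝ) * (K : ℝ) ^ (1 / 6 : ℝ) := by
          rw [← Real.rpow_add (by linarith)]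
          norm_num
      _ ≤ (K : ℝ) ^ (5 / 6 : ℝ) * m₀ := by
          exact mul_le_mul_of_nonneg_left h4 (by positivity)
  calc ({k : ℤ | k ≠ 0 ∧ |k| ≤ K ∧ ∃ m : ℕ, K < m ^ 6 ∧ (m : ℤ) ^ 2 ∣ k}.ncard : ℝ)
      ≤ ((∑ m ∈ Finset.Ico m₀ (K + 1), 2 * (K / m ^ 2) : ℕ) : ℝ) := by exact_mod_cast h1
    _ ≤ 2 * K * ∑ m ∈ Finset.Ico m₀ (K + 1), 1 / (m : ℝ) ^ 2 := h2
    _ ≤ 2 * K * (2 / m₀) := mul_le_mul_of_nonneg_left h3 (by positivity)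
    _ = 4 * (K / m₀) := by ring
    _ ≤ 4 * (K : ℝ) ^ (5 / 6 : ℝ) := by linarith

theorem LC3b_sq (K : ℕ) (hK : 1 ≤ K) :
    ({k : ℤ | k ≠ 0 ∧ |k| ≤ K ∧ ∃ m : ℤ, k = m ^ 2}.ncard : ℝ) ≤ (K : ℝ) ^ (5 / 6 : ℝ) := by
  classical
  have hKR : (1 : ℝ) ≤ K := by exact_mod_cast hK
  have hsub : {k : ℤ | k ≠ 0 ∧ |k| ≤ K ∧ ∃ m : ℤ, k = m ^ 2} ⊆
      (((Finset.Icc 1 (Nat.sqrt K)).image (fun n : ℕ => (n : ℤ) ^ 2) : Finset ℤ) : Set ℤ) := by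
    rintro k ⟨h0, hk, m, rfl⟩
    rw [Finset.mem_coe, Finset.mem_image]
    refine ⟨m.natAbs, Finset.mem_Icc.2 ⟨?_, ?_⟩, ?_⟩
    · rcases Nat.eq_zero_or_pos m.natAbs with h | h
      · rw [Int.natAbs_eq_zero] at h
        rw [h] at h0
        exact absurd (by norm_num) h0
      · exact h
    · rw [Nat.le_sqrt']
      rw [abs_of_nonneg (sq_nonneg m)] at hk
      have h1 : ((m.natAbs ^ 2 : ℕ) : ℤ) = m ^ 2 := by
        rw [Nat.cast_pow, Int.natCast_natAbs, sq_abs]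
      have h2 : ((m.natAbs ^ 2 : ℕ) : ℤ) ≤ (K : ℤ) := by rw [h1]; exact hk
      exact_mod_cast h2
    · show ((m.natAbs : ℕ) : ℤ) ^ 2 = m ^ 2
      rw [Int.natCast_natAbs, sq_abs]
  have h1 : {k : ℤ | k ≠ 0 ∧ |k| ≤ K ∧ ∃ m : ℤ, k = m ^ 2}.ncard ≤ Nat.sqrt K := by
    calc _ ≤ ((((Finset.Icc 1 (Nat.sqrt K)).image (fun n : ℕ => (n : ℤ) ^ 2) : Finset ℤ) :
            Set ℤ)).ncard := Set.ncard_le_ncard hsub (Finset.finite_toSet _)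
      _ = ((Finset.Icc 1 (Nat.sqrt K)).image (fun n : ℕ => (n : ℤ) ^ 2)).card :=
          Set.ncard_coe_finset _
      _ ≤ (Finset.Icc 1 (Nat.sqrt K)).card := Finset.card_image_le
      _ = Nat.sqrt K := by simp
  calc ({k : ℤ | k ≠ 0 ∧ |k| ≤ K ∧ ∃ m : ℤ, k = m ^ 2}.ncard : ℝ) ≤ (Nat.sqrt K : ℝ) := by
        exact_mod_cast h1
    _ ≤ Real.sqrt K := Real.nat_sqrt_le_real_sqrt
    _ = (K : ℝ) ^ (1 / 2 : ℝ) := Real.sqrt_eq_rpow _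
    _ ≤ (K : ℝ) ^ (5 / 6 : ℝ) := Real.rpow_le_rpow_of_exponent_le hKR (by norm_num)

end RC91
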