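import Pool.Agent.LibLS91.LC1
import Pool.Agent.LibLS91.LC2
import Pool.Agent.LibLS91.LB6

/-!
# [LS91 LC3c] the dyadic sum
PLAN. `k` of the set: `M ≤ m`, choose `j` with `M1 = 2^j M ≤ m < 2 M1` (`j = Nat.log 2 (m / M)`), `m^6 ≤ K` gives `M1^6 ≤ K`,
`4 M1^3 ≤ K` (`K ≥ 16`) and `M1^2 ≤ K`. By cases on `WW M1 ≤ nn A m x`: `k ∈ Lev M1 K True` or `k ∈ Lev M1 K False`. So the set is
contained in the union over the `j < J` (`J = Nat.log 2 K + 1`) with `(2^j M)^6 ≤ K`. LC1 + LC2 and LB6 (`1/(1+log M1) ≤ rate M1 ≤ rate M`):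
`∑_j (C K/(M1 (1 + log M1)) + C' rate M1 K/M1) ≤ (C + C') rate M (K/M) ∑_j 2^(-j) ≤ 2 (C + C') rate M K/M`.
-/
set_option autoImplicit false
namespace RC91

private theorem LC3c_pow {a K : ℕ} (hK : 16 ≤ K) (h : a ^ 6 ≤ K) : 4 * a ^ 3 ≤ K := by
  have h1 : (4 * a ^ 3) ^ 2 ≤ K ^ 2 := by
    have e : (4 * a ^ 3) ^ 2 = 16 * a ^ 6 := by ring
    rw [e, sq]
    exact Nat.mul_le_mul hK h
  exact (Nat.pow_le_pow_iff_left (by norm_num)).1 h1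

theorem LC3c : ∃ C : ℝ, ∃ K0 : ℕ, 0 < C ∧ ∀ M K : ℕ, 1 ≤ M → K0 ≤ K →
    {k : ℤ | k ≠ 0 ∧ |k| ≤ K ∧ (∀ p : ℕ, p.Prime → ¬ ((p : ℤ) ^ 6 ∣ k)) ∧
      ∃ A m x y : ℤ, Squarefree A ∧ A ≠ 1 ∧ (M : ℤ) ≤ m ∧ m ^ 6 ≤ K ∧ k = A * m ^ 2 ∧
        y ^ 2 - x ^ 3 = k ∧ (K : ℤ) ^ 8 ≤ |x|}.Finite ∧
    ({k : ℤ | k ≠ 0 ∧ |k| ≤ K ∧ (∀ p : ℕ, p.Prime → ¬ ((p : ℤ) ^ 6 ∣ k)) ∧
      ∃ A m x y : ℤ, Squarefree A ∧ A ≠ 1 ∧ (M : ℤ) ≤ m ∧ m ^ 6 ≤ K ∧ k = A * m ^ 2 ∧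
        y ^ 2 - x ^ 3 = k ∧ (K : ℤ) ^ 8 ≤ |x|}.ncard : ℝ) ≤ C * rate M * K / M := by
  classical
  obtain ⟨C1, K1, hC1, h1⟩ := LC1
  obtain ⟨C2, hC2, h2⟩ := LC2
  refine ⟨2 * (C1 + C2), max K1 16, by positivity, fun M K hM hK => ?_⟩
  have hK1 : K1 ≤ K := (le_max_left _ _).trans hK
  have hK16 : 16 ≤ K := (le_max_right _ _).trans hK
  set S : Set ℤ := {k : ℤ | k ≠ 0 ∧ |k| ≤ K ∧ (∀ p : ℕ, p.Prime → ¬ ((p : ℤ) ^ 6 ∣ k)) ∧
      ∃ A m x y : ℤ, Squarefree A ∧ A ≠ 1 ∧ (M : ℤ) ≤ m ∧ m ^ 6 ≤ K ∧ k = A * m ^ 2 ∧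
        y ^ 2 - x ^ 3 = k ∧ (K : ℤ) ^ 8 ≤ |x|} with hS
  have hfin : S.Finite :=
    (Set.finite_Icc (-(K : ℤ)) (K : ℤ)).subset
      (by rintro k ⟨_, h, _⟩; exact Set.mem_Icc.2 (abs_le.1 h))
  refine ⟨hfin, ?_⟩
  set I : Finset ℕ := (Finset.range (Nat.log 2 K + 1)).filter (fun j => (2 ^ j * M) ^ 6 ≤ K) with hI
  let U : ℕ → Set ℤ := fun j => Lev (2 ^ j * M) K True ∪ Lev (2 ^ j * M) K False
  have hsub : S ⊆ ⋃ j ∈ I, U j := by
    rintro k ⟨hk0, hkK, h6, A, m, x, y, hA, hA1, hm, hm6, hk, he, hx⟩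
    obtain ⟨n, rfl⟩ : ∃ n : ℕ, m = n := by
      refine ⟨m.toNat, ?_⟩
      have : (0 : ℤ) ≤ (M : ℤ) := Int.natCast_nonneg _
      rw [Int.toNat_of_nonneg (by linarith)]
    have hn : M ≤ n := by exact_mod_cast hm
    have hn6 : n ^ 6 ≤ K := by exact_mod_cast hm6
    have hn0 : 0 < n := by omega
    have hq : n / M ≠ 0 := by
      have := Nat.div_pos hn (by omega : 0 < M)
      omega
    set j := Nat.log 2 (n / M) with hj
    have hj1 : 2 ^ j ≤ n / M := Nat.pow_log_le_self 2 hq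
    have hj2 : n / M < 2 ^ (j + 1) := Nat.lt_pow_succ_log_self (by norm_num) _
    have hj3 : 2 ^ j * M ≤ n := (Nat.mul_le_mul_right M hj1).trans (Nat.div_mul_le_self n M)
    have hj4 : n < 2 * (2 ^ j * M) := by
      have h := (Nat.div_lt_iff_lt_mul (by omega : 0 < M)).1 hj2
      rw [pow_succ] at h
      calc n < 2 ^ j * 2 * M := h
        _ = 2 * (2 ^ j * M) := by ring
    have hjI : j ∈ I := by
      rw [hI, Finset.mem_filter, Finset.mem_range]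
      refine ⟨?_, (Nat.pow_le_pow_left hj3 6).trans hn6⟩
      have h5 : 2 ^ j ≤ K := by
        calc 2 ^ j ≤ n / M := hj1
          _ ≤ n := Nat.div_le_self _ _
          _ ≤ n ^ 6 := Nat.le_self_pow (by norm_num) n
          _ ≤ K := hn6
      have h7 : j ≤ Nat.log 2 K := Nat.le_log_of_pow_le (by norm_num) h5
      omega
    refine Set.mem_iUnion₂.2 ⟨j, hjI, ?_⟩
    by_cases hb : WW (2 ^ j * M) ≤ nn A n x
    · left
      exact ⟨hk0, hkK, h6, A, n, x, y, hA, hA1, by exact_mod_cast hj3, by exact_mod_cast hj4, hk, he,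
        hx, ⟨fun _ => trivial, fun _ => hb⟩⟩
    · right
      exact ⟨hk0, hkK, h6, A, n, x, y, hA, hA1, by exact_mod_cast hj3, by exact_mod_cast hj4, hk, he,
        hx, ⟨fun h => hb h, fun h => h.elim⟩⟩
  have hU : ∀ j ∈ I, (U j).Finite ∧
      ((U j).ncard : ℝ) ≤ (C1 + C2) * rate M * K / M * (1 / 2 : ℝ) ^ j := by
    intro j hj
    have hj6 : (2 ^ j * M) ^ 6 ≤ K := (Finset.mem_filter.1 hj).2
    have hM1 : 1 ≤ 2 ^ j * M := Nat.mul_pos (by positivity) hM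
    have hsq : (2 ^ j * M) ^ 2 ≤ K := (Nat.pow_le_pow_right hM1 (by norm_num)).trans hj6
    obtain ⟨f1, b1⟩ := h1 (2 ^ j * M) K hM1 hK1 hsq
    obtain ⟨f2, b2⟩ := h2 (2 ^ j * M) K hM1 (LC3c_pow hK16 hj6)
    refine ⟨f1.union f2, ?_⟩
    have hun : ((U j).ncard : ℝ) ≤ ((Lev (2 ^ j * M) K True).ncard : ℝ) +
        ((Lev (2 ^ j * M) K False).ncard : ℝ) := by
      exact_mod_cast Set.ncard_union_le _ _
    have hra : rate (2 ^ j * M) ≤ rate M :=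
      LB6_anti M _ hM (Nat.le_mul_of_pos_left M (by positivity))
    have hrl := LB6_log (2 ^ j * M) hM1
    have hMr : (0 : ℝ) < (M : ℝ) := by exact_mod_cast hM
    have hM1r : (0 : ℝ) < ((2 ^ j * M : ℕ) : ℝ) := by exact_mod_cast hM1
    have hlog : 0 ≤ Real.log ((2 ^ j * M : ℕ) : ℝ) := Real.log_nonneg (by exact_mod_cast hM1)
    have e1 : C1 * (K : ℝ) / (((2 ^ j * M : ℕ) : ℝ) * (1 + Real.log ((2 ^ j * M : ℕ) : ℝ))) ≤
        C1 * rate M * K / ((2 ^ j * M : ℕ) : ℝ) := by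
      have e2 : C1 * (K : ℝ) / (((2 ^ j * M : ℕ) : ℝ) * (1 + Real.log ((2 ^ j * M : ℕ) : ℝ))) =
          (1 / (1 + Real.log ((2 ^ j * M : ℕ) : ℝ))) * (C1 * K / ((2 ^ j * M : ℕ) : ℝ)) := by
        field_simp
      have e3 : C1 * rate M * (K : ℝ) / ((2 ^ j * M : ℕ) : ℝ) =
          rate M * (C1 * K / ((2 ^ j * M : ℕ) : ℝ)) := by ring
      rw [e2, e3]
      exact mul_le_mul_of_nonneg_right (hrl.trans hra) (by positivity)
    have e4 : C2 * rate (2 ^ j * M) * (K : ℝ) / ((2 ^ j * M : ℕ) : ℝ) ≤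
        C2 * rate M * K / ((2 ^ j * M : ℕ) : ℝ) := by
      apply div_le_div_of_nonneg_right _ hM1r.le
      apply mul_le_mul_of_nonneg_right _ (Nat.cast_nonneg _)
      exact mul_le_mul_of_nonneg_left hra hC2.le
    have e5 : C1 * rate M * K / ((2 ^ j * M : ℕ) : ℝ) + C2 * rate M * K / ((2 ^ j * M : ℕ) : ℝ) =
        (C1 + C2) * rate M * K / M * (1 / 2 : ℝ) ^ j := by
      push_cast
      rw [one_div, inv_pow]
      field_simp
    linarith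
  have hcard : (S.ncard : ℝ) ≤ ∑ j ∈ I, ((U j).ncard : ℝ) := by
    have hUf : (⋃ j ∈ I, U j).Finite := I.finite_toSet.biUnion fun j hj => (hU j hj).1
    have a1 : S.ncard ≤ (⋃ j ∈ I, U j).ncard := Set.ncard_le_ncard hsub hUf
    have a2 : (⋃ j ∈ I, U j).ncard ≤ ∑ j ∈ I, (U j).ncard := Finset.set_ncard_biUnion_le I U
    exact_mod_cast a1.trans a2
  have hMr : (0 : ℝ) < (M : ℝ) := by exact_mod_cast hM
  have hD : 0 ≤ (C1 + C2) * rate M * K / M := by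
    have := (LB6_pos M hM).le
    positivity
  calc (S.ncard : ℝ) ≤ ∑ j ∈ I, ((U j).ncard : ℝ) := hcard
    _ ≤ ∑ j ∈ I, (C1 + C2) * rate M * K / M * (1 / 2 : ℝ) ^ j :=
        Finset.sum_le_sum fun j hj => (hU j hj).2
    _ ≤ ∑ j ∈ Finset.range (Nat.log 2 K + 1), (C1 + C2) * rate M * K / M * (1 / 2 : ℝ) ^ j := by
        apply Finset.sum_le_sum_of_subset_of_nonneg (Finset.filter_subset _ _)
        intro j _ _
        positivity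
    _ = (C1 + C2) * rate M * K / M * ∑ j ∈ Finset.range (Nat.log 2 K + 1), (1 / 2 : ℝ) ^ j := by
        rw [Finset.mul_sum]
    _ ≤ (C1 + C2) * rate M * K / M * 2 :=
        mul_le_mul_of_nonneg_left (sum_geometric_two_le _) hD
    _ = 2 * (C1 + C2) * rate M * K / M := by ring

end RC91
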