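import Pool.Agent.LibLS91.LC3a
import Pool.Agent.LibLS91.LC3b
import Pool.Agent.LibLS91.LC3c
import Pool.Agent.LibLS91.LB4
import Pool.Agent.LibRC91.F1
import Pool.Agent.LibLS91.LB6

/-!
# [LS91 LC3] THEOREM LS: large squares
PLAN. Bad `k ∈ LSF M K` (it has an integral point, `k ≠ 0`). `k = A m^2`, `A` square free, `m > 0` (`F1_dec` of LibRC91.F1);
`m ≥ M` because `m'^2 ∣ A m^2`, `A` square free, gives `m' ∣ m`, `m' ≥ M`. Let `M ≥ M0`. Cases: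
(a) `k` has a point with `|x| ≤ exp (K^(1/1000))`: LC3a. Otherwise its point has `|x| > exp (K^(1/1000)) ≥ K^8` for `K ≥ K1`.
(b) `m^6 > K`: LC3b. (c) `A = 1`: LC3b_sq. (d) LC3c (`y^2 - x^3 = k`).
Total `≤ C K^(999/1000) + 5 K^(5/6) + C' rate M K/M ≤ C'' rate M K/M ≤ (C''/c) rate M #LSF` (LB4): `K^(1/1000) ≥ M^2`, so
`K^(999/1000) ≤ K/M^2 ≤ rate M K/M` (LB6: `1/(1 + log M) ≤ rate M`, `1/M ≤ 1/(1 + log M)`), `K^(5/6) ≤ K^(999/1000)`. The set is the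
union of four finite sets (`Set.ncard_union_le`, `LB4_fin`). For `1 ≤ M < M0`: the set is a subset of `LSF M K` (`Set.ncard_le_ncard`) and
`rate M ≥ rate M0 > 0` (LB6): enlarge the constant.
-/
set_option autoImplicit false
namespace RC91

private theorem LC3_dvd (A m m' : ℤ) (hA : Squarefree A) (hm : m ≠ 0) (h : m' ^ 2 ∣ A * m ^ 2) :
    m' ∣ m := by
  have hg0 : 0 < Int.gcd m' m := Int.gcd_pos_of_ne_zero_right _ hm
  obtain ⟨u, v, hc, hu, hv⟩ := Int.exists_gcd_one (m := m') (n := m) hg0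
  have hgz : (0 : ℤ) < (Int.gcd m' m : ℤ) := by exact_mod_cast hg0
  set G : ℤ := (Int.gcd m' m : ℤ) with hG
  have hcop : IsCoprime u v := Int.isCoprime_iff_gcd_eq_one.mpr hc
  have h1 : u ^ 2 ∣ A * v ^ 2 := by
    have h2 : G ^ 2 * u ^ 2 ∣ G ^ 2 * (A * v ^ 2) := by
      have e1 : G ^ 2 * u ^ 2 = m' ^ 2 := by rw [hu]; ring
      have e2 : G ^ 2 * (A * v ^ 2) = A * m ^ 2 := by rw [hv]; ring
      rw [e1, e2]; exact h
    exact (mul_dvd_mul_iff_left (pow_ne_zero 2 hgz.ne')).1 h2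
  have h3 : u ^ 2 ∣ A :=
    (IsCoprime.pow hcop : IsCoprime (u ^ 2) (v ^ 2)).dvd_of_dvd_mul_right h1
  have h4 : IsUnit u := hA u (by rwa [← sq])
  rw [hu, hv]
  exact mul_dvd_mul (h4.dvd) dvd_rfl

private theorem LC3_exp : ∃ K1 : ℕ, ∀ K : ℕ, K1 ≤ K →
    (K : ℝ) ^ 8 ≤ Real.exp ((K : ℝ) ^ (1 / 1000 : ℝ)) := by
  have h := (isLittleO_log_rpow_atTop (by norm_num : (0 : ℝ) < 1 / 1000)).bound
    (by norm_num : (0 : ℝ) < 1 / 8)
  obtain ⟨a, ha⟩ := Filter.eventually_atTop.1 h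
  refine ⟨⌈max a 1⌉₊, fun K hK => ?_⟩
  have hK' : max a 1 ≤ (K : ℝ) := (Nat.le_ceil _).trans (by exact_mod_cast hK)
  have hKa : a ≤ K := (le_max_left _ _).trans hK'
  have hK1 : (1 : ℝ) ≤ K := (le_max_right _ _).trans hK'
  have hK0 : (0 : ℝ) < K := by linarith
  have h1 := ha K hKa
  rw [Real.norm_eq_abs, Real.norm_eq_abs, abs_of_nonneg (Real.log_nonneg hK1),
    abs_of_nonneg (by positivity)] at h1
  have h2 : (K : ℝ) ^ 8 = Real.exp (8 * Real.log K) := by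
    have h3 := Real.exp_log (show (0 : ℝ) < (K : ℝ) ^ 8 by positivity)
    rw [Real.log_pow] at h3
    exact_mod_cast h3.symm
  rw [h2]
  apply Real.exp_le_exp.2
  linarith

theorem LC3 : ∃ C : ℝ, 0 < C ∧ ∀ M K : ℕ, 1 ≤ M → M ^ 2000 ≤ K →
    ({k : ℤ | k ∈ LSF M K ∧ ∃ x y : ℤ, y ^ 2 = x ^ 3 + k}.ncard : ℝ) ≤
      C * rate M * ((LSF M K).ncard : ℝ) := by
  classical
  obtain ⟨ca, hca, hA⟩ := LC3a
  obtain ⟨cc', K0, hcc, hCc⟩ := LC3c
  obtain ⟨c4, M0, hc4, hB4⟩ := LB4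
  obtain ⟨K1, hK1⟩ := LC3_exp
  set N : ℕ := max M0 (max K0 (max K1 1)) with hN
  have hN1 : 1 ≤ N := le_trans (le_max_right _ _) (le_trans (le_max_right _ _) (le_max_right _ _))
  have hrN := LB6_pos N hN1
  refine ⟨(ca + 5 + cc') / c4 + 1 / rate N, by positivity, fun M K hM hMK => ?_⟩
  have hr := LB6_pos M hM
  have hLn : (0 : ℝ) ≤ ((LSF M K).ncard : ℝ) := Nat.cast_nonneg _
  have hsubL : {k : ℤ | k ∈ LSF M K ∧ ∃ x y : ℤ, y ^ 2 = x ^ 3 + k} ⊆ LSF M K := fun k hk => hk.1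
  by_cases hMN : M < N
  · have h1 : ({k : ℤ | k ∈ LSF M K ∧ ∃ x y : ℤ, y ^ 2 = x ^ 3 + k}.ncard : ℝ) ≤
        ((LSF M K).ncard : ℝ) := by
      exact_mod_cast Set.ncard_le_ncard hsubL (LB4_fin M K)
    have h2 : rate N ≤ rate M := LB6_anti M N hM hMN.le
    have h3 : 1 ≤ 1 / rate N * rate M := by
      rw [one_div, inv_mul_eq_div, le_div_iff₀ hrN, one_mul]
      exact h2
    have h4 : 0 ≤ (ca + 5 + cc') / c4 * rate M := by positivity
    calc _ ≤ ((LSF M K).ncard : ℝ) := h1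
      _ = 1 * ((LSF M K).ncard : ℝ) := (one_mul _).symm
      _ ≤ ((ca + 5 + cc') / c4 * rate M + 1 / rate N * rate M) * ((LSF M K).ncard : ℝ) := by
          apply mul_le_mul_of_nonneg_right _ hLn
          linarith
      _ = _ := by ring
  · have hMN' : N ≤ M := not_lt.1 hMN
    have hMK' : M ≤ K := le_trans (Nat.le_self_pow (by norm_num) M) hMK
    have hKK : N ≤ K := le_trans hMN' hMK'
    have hM0 : M0 ≤ M := le_trans (le_max_left _ _) hMN'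
    have hK0 : K0 ≤ K := le_trans (le_trans (le_max_left _ _) (le_max_right _ _)) hKK
    have hK1' : K1 ≤ K :=
      le_trans (le_trans (le_max_left _ _) (le_trans (le_max_right _ _) (le_max_right _ _))) hKK
    have hK : 1 ≤ K := le_trans hN1 hKK
    have hexp := hK1 K hK1'
    obtain ⟨hAfin, hAle⟩ := hA K hK
    obtain ⟨hCfin, hCle⟩ := hCc M K hM hK0
    have hBle := LC3b K hK
    have hSle := LC3b_sq K hK
    set Sa : Set ℤ := {k : ℤ | k ≠ 0 ∧ |k| ≤ K ∧ ∃ x y : ℤ, y ^ 2 = x ^ 3 + k ∧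
      ((|x| : ℤ) : ℝ) ≤ Real.exp ((K : ℝ) ^ (1 / 1000 : ℝ))} with hSa
    set Sb : Set ℤ := {k : ℤ | k ≠ 0 ∧ |k| ≤ K ∧ ∃ m : ℕ, K < m ^ 6 ∧ (m : ℤ) ^ 2 ∣ k} with hSb
    set Ss : Set ℤ := {k : ℤ | k ≠ 0 ∧ |k| ≤ K ∧ ∃ m : ℤ, k = m ^ 2} with hSs
    set Sc : Set ℤ := {k : ℤ | k ≠ 0 ∧ |k| ≤ K ∧ (∀ p : ℕ, p.Prime → ¬ ((p : ℤ) ^ 6 ∣ k)) ∧
      ∃ A m x y : ℤ, Squarefree A ∧ A ≠ 1 ∧ (M : ℤ) ≤ m ∧ m ^ 6 ≤ K ∧ k = A * m ^ 2 ∧
        y ^ 2 - x ^ 3 = k ∧ (K : ℤ) ^ 8 ≤ |x|} with hSc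
    have hfinK : (Set.Icc (-(K : ℤ)) (K : ℤ)).Finite := Set.finite_Icc _ _
    have hBfin : Sb.Finite :=
      hfinK.subset (by rintro k ⟨_, h, _⟩; exact Set.mem_Icc.2 (abs_le.1 h))
    have hSfin : Ss.Finite :=
      hfinK.subset (by rintro k ⟨_, h, _⟩; exact Set.mem_Icc.2 (abs_le.1 h))
    have hsub : {k : ℤ | k ∈ LSF M K ∧ ∃ x y : ℤ, y ^ 2 = x ^ 3 + k} ⊆ (Sa ∪ Sb) ∪ (Ss ∪ Sc) := by
      rintro k ⟨⟨hk0, hkK, h6, m', hMm', hm'k⟩, x, y, hxy⟩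
      by_cases ha : ∃ x y : ℤ, y ^ 2 = x ^ 3 + k ∧
          ((|x| : ℤ) : ℝ) ≤ Real.exp ((K : ℝ) ^ (1 / 1000 : ℝ))
      · exact Or.inl (Or.inl ⟨hk0, hkK, ha⟩)
      have hx8 : (K : ℤ) ^ 8 ≤ |x| := by
        have h1 : Real.exp ((K : ℝ) ^ (1 / 1000 : ℝ)) < ((|x| : ℤ) : ℝ) := by
          by_contra h2
          exact ha ⟨x, y, hxy, not_lt.1 h2⟩
        have h2 : ((K ^ 8 : ℤ) : ℝ) < ((|x| : ℤ) : ℝ) := by
          push_cast at h1 ⊢
          linarith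
        have h3 : (K : ℤ) ^ 8 < |x| := by exact_mod_cast h2
        exact h3.le
      obtain ⟨A, m, hAs, hm0, hk⟩ := F1_dec k hk0
      have hm'm : (m' : ℤ) ∣ m := LC3_dvd A m m' hAs hm0.ne' (by rw [← hk]; exact hm'k)
      have hMm : (M : ℤ) ≤ m := by
        have h1 : (m' : ℤ) ≤ m := Int.le_of_dvd hm0 hm'm
        have h2 : (M : ℤ) ≤ m' := by exact_mod_cast hMm'
        linarith
      by_cases hm6 : m ^ 6 ≤ K
      · by_cases hA1 : A = 1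
        · exact Or.inr (Or.inl ⟨hk0, hkK, m, by rw [hk, hA1, one_mul]⟩)
        · exact Or.inr (Or.inr ⟨hk0, hkK, h6, A, m, x, y, hAs, hA1, hMm, hm6, hk,
            by rw [hxy]; ring, hx8⟩)
      · refine Or.inl (Or.inr ⟨hk0, hkK, m.natAbs, ?_, ?_⟩)
        · have h1 : (K : ℤ) < ((m.natAbs : ℕ) : ℤ) ^ 6 := by
            rw [Int.natCast_natAbs, abs_of_pos hm0]
            exact not_le.1 hm6
          exact_mod_cast h1
        · rw [Int.natCast_natAbs, sq_abs, hk]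
          exact Dvd.intro_left _ rfl
    have hcard : ({k : ℤ | k ∈ LSF M K ∧ ∃ x y : ℤ, y ^ 2 = x ^ 3 + k}.ncard : ℝ) ≤
        (Sa.ncard : ℝ) + Sb.ncard + (Ss.ncard + Sc.ncard) := by
      have h1 := Set.ncard_le_ncard hsub ((hAfin.union hBfin).union (hSfin.union hCfin))
      have h2 := Set.ncard_union_le (Sa ∪ Sb) (Ss ∪ Sc)
      have h3 := Set.ncard_union_le Sa Sb
      have h4 := Set.ncard_union_le Ss Sc
      have h5 : {k : ℤ | k ∈ LSF M K ∧ ∃ x y : ℤ, y ^ 2 = x ^ 3 + k}.ncard ≤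
        Sa.ncard + Sb.ncard + (Ss.ncard + Sc.ncard) := by omega
      exact_mod_cast h5
    have hKr : (1 : ℝ) ≤ K := by exact_mod_cast hK
    have hKr0 : (0 : ℝ) < K := by linarith
    have hMr : (1 : ℝ) ≤ M := by exact_mod_cast hM
    have hMr0 : (0 : ℝ) < M := by linarith
    have hM2 : (M : ℝ) ^ 2 ≤ (K : ℝ) ^ (1 / 1000 : ℝ) := by
      have h1 : ((M : ℝ) ^ 2) ^ 1000 ≤ ((K : ℝ) ^ (1 / 1000 : ℝ)) ^ 1000 := by
        rw [← pow_mul, ← Real.rpow_natCast ((K : ℝ) ^ (1 / 1000 : ℝ)) 1000,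
          ← Real.rpow_mul hKr0.le]
        norm_num
        exact_mod_cast hMK
      exact le_of_pow_le_pow_left₀ (by norm_num) (by positivity) h1
    have h999 : (K : ℝ) ^ (999 / 1000 : ℝ) ≤ K / (M : ℝ) ^ 2 := by
      rw [le_div_iff₀ (by positivity)]
      calc (K : ℝ) ^ (999 / 1000 : ℝ) * (M : ℝ) ^ 2
          ≤ (K : ℝ) ^ (999 / 1000 : ℝ) * (K : ℝ) ^ (1 / 1000 : ℝ) := by gcongr
        _ = K := by rw [← Real.rpow_add hKr0]; norm_num
    have h56 : (K : ℝ) ^ (5 / 6 : ℝ) ≤ (K : ℝ) ^ (999 / 1000 : ℝ) :=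
      Real.rpow_le_rpow_of_exponent_le hKr (by norm_num)
    have hrate : K / (M : ℝ) ^ 2 ≤ rate M * K / M := by
      have h1 := LB6_log M hM
      have h2 : 1 + Real.log M ≤ M := by
        have := Real.log_le_sub_one_of_pos hMr0
        linarith
      have hl0 : 0 ≤ Real.log M := Real.log_nonneg hMr
      have h3 : 1 / (M : ℝ) ≤ 1 / (1 + Real.log M) :=
        one_div_le_one_div_of_le (by linarith) h2
      have h4 : 1 / (M : ℝ) ≤ rate M := h3.trans h1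
      calc K / (M : ℝ) ^ 2 = 1 / (M : ℝ) * K / M := by field_simp
        _ ≤ rate M * K / M := by gcongr
    have hM3 : M ^ 3 ≤ K := le_trans (Nat.pow_le_pow_right hM (by norm_num)) hMK
    have hL := hB4 M K hM0 hM3
    have hKM : (K : ℝ) / M ≤ ((LSF M K).ncard : ℝ) / c4 := by
      rw [le_div_iff₀ hc4]
      calc (K : ℝ) / M * c4 = c4 * K / M := by ring
        _ ≤ _ := hL
    have hR0 : 0 ≤ rate M * K / M := by positivity
    have htot : ({k : ℤ | k ∈ LSF M K ∧ ∃ x y : ℤ, y ^ 2 = x ^ 3 + k}.ncard : ℝ) ≤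
        (ca + 5 + cc') * (rate M * K / M) := by
      have h1 : ca * (K : ℝ) ^ (999 / 1000 : ℝ) ≤ ca * (rate M * K / M) := by
        have := h999.trans hrate
        gcongr
      have h2 : (K : ℝ) ^ (5 / 6 : ℝ) ≤ rate M * K / M := (h56.trans h999).trans hrate
      have h3 : cc' * rate M * K / M = cc' * (rate M * K / M) := by ring
      rw [h3] at hCle
      nlinarith
    calc _ ≤ (ca + 5 + cc') * (rate M * K / M) := htot
      _ = (ca + 5 + cc') * rate M * (K / M) := by ring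
      _ ≤ (ca + 5 + cc') * rate M * (((LSF M K).ncard : ℝ) / c4) := by gcongr
      _ = (ca + 5 + cc') / c4 * rate M * ((LSF M K).ncard : ℝ) + 0 := by ring
      _ ≤ (ca + 5 + cc') / c4 * rate M * ((LSF M K).ncard : ℝ) +
            1 / rate N * rate M * ((LSF M K).ncard : ℝ) := by
          have : 0 ≤ 1 / rate N * rate M * ((LSF M K).ncard : ℝ) := by positivity
          linarith
      _ = _ := by ring

end RC91
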