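import Pool.Agent.LibLS91.Defs
import Pool.Agent.LibHU43.U6

/-!
# [LS91 LC3a] the `k` with a point of moderate size
PLAN. `LibHall.finalU` (see Pool/Agent/Results/MP_e734ed_nt/UniformPowerSaving.lean in outputs/live for its exact form): the number of
pairs `(x, y)` with `0 < |y^2 - x^3| ≤ K` and `|x| ≤ exp (K^0.001)` is `≤ c K^0.999`. The set of `k` is contained in its image under
`(x, y) ↦ y^2 - x^3` (`Set.ncard_image_le`, `Set.ncard_le_ncard`).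
-/
set_option autoImplicit false
namespace RC91

theorem LC3a : ∃ c : ℝ, 0 < c ∧ ∀ K : ℕ, 1 ≤ K →
    {k : ℤ | k ≠ 0 ∧ |k| ≤ K ∧ ∃ x y : ℤ, y ^ 2 = x ^ 3 + k ∧
      ((|x| : ℤ) : ℝ) ≤ Real.exp ((K : ℝ) ^ (1 / 1000 : ℝ))}.Finite ∧
    ({k : ℤ | k ≠ 0 ∧ |k| ≤ K ∧ ∃ x y : ℤ, y ^ 2 = x ^ 3 + k ∧
      ((|x| : ℤ) : ℝ) ≤ Real.exp ((K : ℝ) ^ (1 / 1000 : ℝ))}.ncard : ℝ) ≤
      c * (K : ℝ) ^ (999 / 1000 : ℝ) := by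
  obtain ⟨c, hc, h⟩ := LibHall.finalU.1
  refine ⟨c, hc, fun K hK => ?_⟩
  have hfin : {k : ℤ | k ≠ 0 ∧ |k| ≤ K ∧ ∃ x y : ℤ, y ^ 2 = x ^ 3 + k ∧
      ((|x| : ℤ) : ℝ) ≤ Real.exp ((K : ℝ) ^ (1 / 1000 : ℝ))}.Finite := by
    refine (Set.finite_Icc (-(K : ℤ)) K).subset fun k hk => ?_
    exact Set.mem_Icc.2 (abs_le.1 hk.2.1)
  refine ⟨hfin, ?_⟩
  obtain ⟨hf, hn⟩ := h K (by exact_mod_cast hK)
  have e1 : (0.001 : ℝ) = 1 / 1000 := by norm_num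
  have e2 : (0.999 : ℝ) = 999 / 1000 := by norm_num
  rw [e1] at hf hn
  rw [e2] at hn
  refine le_trans ?_ hn
  have hsub : {k : ℤ | k ≠ 0 ∧ |k| ≤ K ∧ ∃ x y : ℤ, y ^ 2 = x ^ 3 + k ∧
      ((|x| : ℤ) : ℝ) ≤ Real.exp ((K : ℝ) ^ (1 / 1000 : ℝ))} ⊆
      (fun p : ℤ × ℤ => p.2 ^ 2 - p.1 ^ 3) ''
      {p : ℤ × ℤ | p.2 ^ 2 ≠ p.1 ^ 3 ∧ |((p.2 ^ 2 - p.1 ^ 3 : ℤ) : ℝ)| ≤ K ∧
        |(p.1 : ℝ)| ≤ Real.exp ((K : ℝ) ^ (1 / 1000 : ℝ))} := by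
    rintro k ⟨hk0, hk, x, y, e, hx⟩
    have e' : y ^ 2 - x ^ 3 = k := by rw [e]; ring
    refine ⟨(x, y), ⟨?_, ?_, ?_⟩, e'⟩
    · intro h'
      apply hk0
      rw [← e']
      simp only at h'
      rw [h']
      ring
    · simp only
      rw [e', ← Int.cast_abs]
      exact_mod_cast hk
    · simp only
      rw [← Int.cast_abs]
      exact hx
  have h1 := Set.ncard_le_ncard hsub (hf.image _)
  have h2 := Set.ncard_image_le (f := fun p : ℤ × ℤ => p.2 ^ 2 - p.1 ^ 3) hf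
  exact_mod_cast h1.trans h2

end RC91
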