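import Pool.Agent.LibRC91.G11

/-!
# [LS91 LG1] far points of one class: absolute constant
Same as G10 + G11 of LibRC91 (copy their proofs), but only the far range: no `ε`.
PLAN. `X0, Q` from G8, `X1 = max X0 10^6`, `B ≥ X1`. For `q ∈ S`: `x ≥ B^8`, `ka = √|A m^2| ≤ √B ≤ x^(1/16) ≤ x^(1/8)`,
`25600 |A m^2| ≤ 25600 B ≤ x^3`. Colours as in G11: `‖τ^3 - 1‖ ≤ 8 (d0 + dq)`, `d = ka/xs ≤ 1/x`; at most 3 colours. In one
colour, for `q ≠ q'`, `x ≤ x'`: `conj g ≠ g` (G5), G4: `10 ka' √x/x' ≤ 10 x'^(1/16 - 1/2) ≤ 1/2`, so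
`x' ≥ x^2/(400 ka^2) ≥ x^(2 - 1/8)/400 ≥ x^(3/2) > x`. By G8 all `x` of the colour are in `[lo, lo^Q]`, `lo` the smallest;
G9 with `η = 1/2`: at most `1 + log Q / log (3/2)`.
-/
set_option autoImplicit false
namespace RC91

private theorem LG1_gap {ε x x' k k' : ℝ} (hε : 0 < ε) (hε1 : ε < 1) (hx : 200 ≤ x) (hxx : x ≤ x')
    (h4 : 400 ≤ x ^ (ε / 2)) (hk0 : 0 ≤ k) (hk0' : 0 ≤ k') (hk : k ≤ x ^ ((1 - ε) / 2))
    (hk' : k' ≤ x' ^ ((1 - ε) / 2))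
    (h1 : 1 ≤ 10 * (k * Real.sqrt x' / x + k' * Real.sqrt x / x')) :
    x ^ (1 + ε / 2) ≤ x' := by
  have hx0 : 0 < x := by linarith
  have hx0' : 0 < x' := by linarith
  have h4' : 400 ≤ x' ^ (ε / 2) := h4.trans (Real.rpow_le_rpow hx0.le hxx (by linarith))
  have t2 : k' * Real.sqrt x / x' ≤ 1 / 400 := by
    have e1 : k' * Real.sqrt x ≤ x' ^ ((1 - ε) / 2) * x' ^ (1 / 2 : ℝ) := by
      rw [← Real.sqrt_eq_rpow]
      exact mul_le_mul hk' (Real.sqrt_le_sqrt hxx) (Real.sqrt_nonneg _) (by positivity)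
    have e2 : x' ^ ((1 - ε) / 2) * x' ^ (1 / 2 : ℝ) * x' ^ (ε / 2) = x' := by
      rw [← Real.rpow_add hx0', ← Real.rpow_add hx0']
      have : (1 - ε) / 2 + 1 / 2 + ε / 2 = 1 := by ring
      rw [this, Real.rpow_one]
    rw [div_le_div_iff₀ hx0' (by norm_num)]
    have e3 : k' * Real.sqrt x * 400 ≤ x' ^ ((1 - ε) / 2) * x' ^ (1 / 2 : ℝ) * x' ^ (ε / 2) :=
      mul_le_mul e1 h4' (by norm_num) (by positivity)
    rw [e2] at e3
    linarith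
  have t1 : x ≤ 20 * (k * Real.sqrt x') := by
    have e1 : 1 / 2 ≤ 10 * (k * Real.sqrt x' / x) := by linarith
    have e2 : k * Real.sqrt x' / x * x = k * Real.sqrt x' := div_mul_cancel₀ _ hx0.ne'
    nlinarith
  have t3 : x ≤ 20 * (x ^ ((1 - ε) / 2) * Real.sqrt x') := by
    have := mul_le_mul_of_nonneg_right hk (Real.sqrt_nonneg x')
    linarith
  have t4 : x ^ 2 ≤ 400 * (x ^ (1 - ε) * x') := by
    have e1 : x ^ 2 ≤ (20 * (x ^ ((1 - ε) / 2) * Real.sqrt x')) ^ 2 :=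
      pow_le_pow_left₀ hx0.le t3 2
    have e2 : (20 * (x ^ ((1 - ε) / 2) * Real.sqrt x')) ^ 2 =
        400 * ((x ^ ((1 - ε) / 2) * x ^ ((1 - ε) / 2)) * (Real.sqrt x' ^ 2)) := by ring
    rw [e2, Real.sq_sqrt hx0'.le, ← Real.rpow_add hx0] at e1
    have e3 : (1 - ε) / 2 + (1 - ε) / 2 = 1 - ε := by ring
    rwa [e3] at e1
  have t5 : x ^ 2 = x ^ (1 - ε) * (x ^ (1 + ε / 2) * x ^ (ε / 2)) := by
    rw [← Real.rpow_add hx0, ← Real.rpow_add hx0]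
    have : 1 - ε + (1 + ε / 2 + ε / 2) = ((2 : ℕ) : ℝ) := by push_cast; ring
    rw [this, Real.rpow_natCast]
  have t6 : x ^ (1 + ε / 2) * x ^ (ε / 2) ≤ 400 * x' := by
    have hp : 0 < x ^ (1 - ε) := Real.rpow_pos_of_pos hx0 _
    have : x ^ (1 - ε) * (x ^ (1 + ε / 2) * x ^ (ε / 2)) ≤ x ^ (1 - ε) * (400 * x') := by
      rw [← t5]
      linarith
    exact le_of_mul_le_mul_left this hp
  have hp : 0 < x ^ (1 + ε / 2) := Real.rpow_pos_of_pos hx0 _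
  nlinarith

/-- one colour -/
theorem LG1_col (ε : ℝ) (he : ε = 7 / 8) : ∃ C X0 : ℝ, 0 < C ∧ 1 ≤ X0 ∧
    ∀ (A : ℤ) (K : Type) [Field K] [NumberField K] (h : QF A K) (B : ℝ), X0 ≤ B →
    ∀ S : Finset (ℤ × ℤ × ℤ),
    (∀ q ∈ S, B ^ 8 ≤ (q.1 : ℝ) ∧ 0 < q.2.2 ∧ q.2.1 ^ 2 - A * q.2.2 ^ 2 = q.1 ^ 3 ∧
      (∀ p : ℕ, p.Prime → ¬ ((p : ℤ) ^ 6 ∣ A * q.2.2 ^ 2)) ∧
      ((|A * q.2.2 ^ 2| : ℤ) : ℝ) ≤ B) →
    (∀ q ∈ S, ∀ q' ∈ S, ∃ g : K, g ≠ 0 ∧ al h q'.2.1 q'.2.2 = al h q.2.1 q.2.2 * g ^ 3 ∧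
      ‖h.emb g / h.emb (h.conj g) - 1‖ ≤ 1 / 10) →
    (S.card : ℝ) ≤ C := by
  classical
  have hε : 0 < ε := by rw [he]; norm_num
  have hε1 : ε < 1 := by rw [he]; norm_num
  obtain ⟨X8, Q, hX8, hQ, h8⟩ := G8
  set L : ℝ := Real.log (1 + ε / 2) with hL
  have hL0 : 0 < L := Real.log_pos (by linarith)
  have hQ0 : 0 ≤ Real.log Q := Real.log_nonneg hQ
  set X0 : ℝ := max (max 200 X8) ((400 : ℝ) ^ (2 / ε)) with hX0
  have hX200 : 200 ≤ X0 := (le_max_left _ _).trans (le_max_left _ _)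
  have hX8' : X8 ≤ X0 := (le_max_right _ _).trans (le_max_left _ _)
  have hX400 : (400 : ℝ) ^ (2 / ε) ≤ X0 := le_max_right _ _
  refine ⟨1 + Real.log Q / L, X0, by positivity, by linarith, ?_⟩
  intro A K _ _ h B hB S hS' hcol
  have hB1 : 1 ≤ B := by linarith
  have hB0 : 0 < B := by linarith
  have hS : ∀ q ∈ S, X0 ≤ (q.1 : ℝ) ∧ 0 < q.2.2 ∧ q.2.1 ^ 2 - A * q.2.2 ^ 2 = q.1 ^ 3 ∧
      (∀ p : ℕ, p.Prime → ¬ ((p : ℤ) ^ 6 ∣ A * q.2.2 ^ 2)) ∧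
      ((|A * q.2.2 ^ 2| : ℤ) : ℝ) ≤ (q.1 : ℝ) ^ (1 - ε) ∧ ((|A * q.2.2 ^ 2| : ℤ) : ℝ) ≤ B := by
    intro q hq
    obtain ⟨a1, a2, a3, a4, a5⟩ := hS' q hq
    have hBx : B ≤ (q.1 : ℝ) ^ (1 - ε) := by
      have e1 : B = (B ^ 8) ^ (1 - ε) := by
        rw [← Real.rpow_natCast, ← Real.rpow_mul hB0.le, he]
        norm_num
      rw [e1]
      exact Real.rpow_le_rpow (by positivity) a1 (by rw [he]; norm_num)
    exact ⟨by
      have : B ≤ B ^ 8 := le_self_pow₀ hB1 (by norm_num)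
      linarith, a2, a3, a4, a5.trans hBx, a5⟩
  -- basic facts
  have hx200 : ∀ q ∈ S, 200 ≤ (q.1 : ℝ) := fun q hq => hX200.trans (hS q hq).1
  have hx400 : ∀ q ∈ S, 400 ≤ (q.1 : ℝ) ^ (ε / 2) := by
    intro q hq
    have e1 : ((400 : ℝ) ^ (2 / ε)) ^ (ε / 2) = 400 := by
      rw [← Real.rpow_mul (by norm_num)]
      have : 2 / ε * (ε / 2) = 1 := by field_simp
      rw [this, Real.rpow_one]
    rw [← e1]
    exact Real.rpow_le_rpow (by positivity) (hX400.trans (hS q hq).1) (by linarith)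
  have hka0 : ∀ m, 0 ≤ ka A m := fun m => Real.sqrt_nonneg _
  have hka1 : ∀ q ∈ S, ka A q.2.2 ≤ (q.1 : ℝ) ^ ((1 - ε) / 2) := by
    intro q hq
    have hx0 : (0 : ℝ) ≤ q.1 := by linarith [hx200 q hq]
    have e1 := Real.sqrt_le_sqrt (hS q hq).2.2.2.2.1
    rw [Real.sqrt_eq_rpow (_ ^ _), ← Real.rpow_mul hx0] at e1
    have e2 : (1 - ε) * (1 / 2) = (1 - ε) / 2 := by ring
    rw [e2] at e1
    exact e1
  have hkaB : ∀ q ∈ S, ka A q.2.2 ≤ Real.sqrt B := fun q hq =>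
    Real.sqrt_le_sqrt (hS q hq).2.2.2.2.2
  have hxpos : ∀ q ∈ S, 0 < q.1 := by
    intro q hq
    have : (0 : ℝ) < q.1 := by linarith [hx200 q hq]
    exact_mod_cast this
  have hk256 : ∀ q ∈ S, 25600 * |A * q.2.2 ^ 2| ≤ q.1 ^ 3 := by
    intro q hq
    have hx := hx200 q hq
    have e1 : ((|A * q.2.2 ^ 2| : ℤ) : ℝ) ≤ (q.1 : ℝ) := by
      refine (hS q hq).2.2.2.2.1.trans ?_
      calc (q.1 : ℝ) ^ (1 - ε) ≤ (q.1 : ℝ) ^ (1 : ℝ) :=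
            Real.rpow_le_rpow_of_exponent_le (by linarith) (by linarith)
        _ = q.1 := Real.rpow_one _
    have e2 : 25600 * ((|A * q.2.2 ^ 2| : ℤ) : ℝ) ≤ (q.1 : ℝ) ^ 3 := by
      have e3 : (40000 : ℝ) ≤ (q.1 : ℝ) ^ 2 := by nlinarith
      have e4 : (q.1 : ℝ) ^ 3 = (q.1 : ℝ) ^ 2 * q.1 := by ring
      rw [e4]
      nlinarith
    exact_mod_cast e2
  -- the gap
  have hgap : ∀ q ∈ S, ∀ q' ∈ S, q ≠ q' → (q.1 : ℝ) ≤ q'.1 →
      (q.1 : ℝ) ^ (1 + ε / 2) ≤ q'.1 := by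
    intro q hq q' hq' hne hle
    obtain ⟨g, hg0, hg, hc⟩ := hcol q hq q' hq'
    obtain ⟨-, hm, he, h6, -, -⟩ := hS q hq
    obtain ⟨-, hm', he', h6', -, -⟩ := hS q' hq'
    have hfix : h.conj g ≠ g := by
      intro hfix
      obtain ⟨f1, f2, f3⟩ := G5 h q.1 q.2.1 q.2.2 q'.1 q'.2.1 q'.2.2 (hxpos q hq) (hxpos q' hq')
        hm hm' he he' h6 h6' g hg0 hg hfix
      exact hne (Prod.ext f1 (Prod.ext f2 f3))
    have h4 := G4 h q.1 q.2.1 q.2.2 q'.1 q'.2.1 q'.2.2 (hxpos q hq) (hxpos q' hq') he he'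
      (hk256 q hq) (hk256 q' hq') g hg0 hg hc hfix
    exact LG1_gap hε hε1 (hx200 q hq) hle (hx400 q hq) (hka0 _) (hka0 _) (hka1 q hq)
      (hka1 q' hq') h4
  have hlt : ∀ q ∈ S, (q.1 : ℝ) < (q.1 : ℝ) ^ (1 + ε / 2) := by
    intro q hq
    have hx := hx200 q hq
    calc (q.1 : ℝ) = (q.1 : ℝ) ^ (1 : ℝ) := (Real.rpow_one _).symm
      _ < _ := Real.rpow_lt_rpow_of_exponent_lt (by linarith) (by linarith)
  have hinj : Set.InjOn (fun q : ℤ × ℤ × ℤ => (q.1 : ℝ)) S := by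
    intro q hq q' hq' heq
    by_contra hne
    have heq' : (q.1 : ℝ) = q'.1 := heq
    have h1 := hgap q hq q' hq' hne heq'.le
    have h2 := hlt q hq
    linarith
  -- counting a subset
  have hcount : ∀ (T : Finset (ℤ × ℤ × ℤ)) (lo Q' : ℝ), T ⊆ S → 1 < lo → 1 ≤ Q' →
      (∀ q ∈ T, lo ≤ (q.1 : ℝ) ∧ (q.1 : ℝ) ≤ lo ^ Q') →
      (T.card : ℝ) ≤ 1 + Real.log Q' / L := by
    intro T lo Q' hT hlo hQ' hb
    have h1 := G9 (ε / 2) lo Q' (by linarith) hlo hQ' (T.image fun q => (q.1 : ℝ)) ?_ ?_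
    · rw [Finset.card_image_of_injOn (hinj.mono (by exact_mod_cast hT))] at h1
      exact h1
    · intro x hx
      obtain ⟨q, hq, rfl⟩ := Finset.mem_image.1 hx
      exact hb q hq
    · intro x hx y hy hxy
      obtain ⟨q, hq, rfl⟩ := Finset.mem_image.1 hx
      obtain ⟨q', hq', rfl⟩ := Finset.mem_image.1 hy
      refine hgap q (hT hq) q' (hT hq') ?_ hxy.le
      rintro rfl
      exact lt_irrefl _ hxy
  -- the large ones
  have hs2 : ((S.filter fun q => ¬ (q.1 : ℝ) ≤ B ^ 4).card : ℝ) ≤ 1 + Real.log Q / L := by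
    set T := S.filter fun q => ¬ (q.1 : ℝ) ≤ B ^ 4 with hT
    rcases T.eq_empty_or_nonempty with h0 | hne
    · rw [h0, Finset.card_empty]
      have : 0 ≤ Real.log Q / L := div_nonneg hQ0 hL0.le
      push_cast
      linarith
    · obtain ⟨q0, hq0, hmin⟩ := Finset.exists_min_image T (fun q => (q.1 : ℝ)) hne
      have hTS : T ⊆ S := Finset.filter_subset _ _
      have hka8 : ∀ q ∈ T, ka A q.2.2 ≤ (q.1 : ℝ) ^ (1 / 8 : ℝ) := by
        intro q hq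
        have h1 := (Finset.mem_filter.1 hq).2
        refine (hkaB q (hTS hq)).trans ?_
        have e1 : Real.sqrt B = (B ^ 4) ^ (1 / 8 : ℝ) := by
          rw [Real.sqrt_eq_rpow, ← Real.rpow_natCast, ← Real.rpow_mul hB0.le]
          norm_num
        rw [e1]
        exact Real.rpow_le_rpow (by positivity) (not_le.1 h1).le (by norm_num)
      refine hcount T (q0.1 : ℝ) Q hTS (by linarith [hx200 q0 (hTS hq0)]) hQ ?_
      intro q hq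
      refine ⟨hmin q hq, ?_⟩
      by_contra hcon
      obtain ⟨g, hg0, hg, hc⟩ := hcol q0 (hTS hq0) q (hTS hq)
      exact h8 A K h q0.1 q0.2.1 q0.2.2 q.1 q.2.1 q.2.2 (hX8'.trans (hS q0 (hTS hq0)).1)
        (not_le.1 hcon).le (hS q0 (hTS hq0)).2.1.ne' (hS q0 (hTS hq0)).2.2.1
        (hS q (hTS hq)).2.2.1 (hka8 q0 hq0) (hka8 q hq) g hg0 hg hc
  have hall : (S.filter fun q => ¬ (q.1 : ℝ) ≤ B ^ 4) = S := by
    rw [Finset.filter_eq_self]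
    intro q hq
    have h1 := (hS' q hq).1
    have h2 : B ^ 4 < B ^ 8 := pow_lt_pow_right₀ (by linarith) (by norm_num)
    exact not_le.2 (h2.trans_le h1)
  rw [hall] at hs2
  exact hs2

private theorem LG1_sz (ε : ℝ) (hε : 0 < ε) (A x m : ℤ) (hx : (1600 : ℝ) ≤ (x : ℝ))
    (hk : ((|A * m ^ 2| : ℤ) : ℝ) ≤ (x : ℝ) ^ (1 - ε)) :
    25600 * |A * m ^ 2| ≤ x ^ 3 ∧ ka A m / xs x ≤ 1 / 1600 := by
  have hx0 : (0 : ℝ) < (x : ℝ) := by linarith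
  have hle : ((|A * m ^ 2| : ℤ) : ℝ) ≤ (x : ℝ) := by
    calc ((|A * m ^ 2| : ℤ) : ℝ) ≤ (x : ℝ) ^ (1 - ε) := hk
      _ ≤ (x : ℝ) ^ (1 : ℝ) := Real.rpow_le_rpow_of_exponent_le (by linarith) (by linarith)
      _ = x := Real.rpow_one _
  constructor
  · have h1 : (25600 : ℝ) * ((|A * m ^ 2| : ℤ) : ℝ) ≤ (x : ℝ) ^ 3 := by
      calc (25600 : ℝ) * ((|A * m ^ 2| : ℤ) : ℝ) ≤ 25600 * x := by linarith
        _ ≤ (x : ℝ) ^ 2 * x := by
          refine mul_le_mul_of_nonneg_right ?_ hx0.le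
          nlinarith
        _ = (x : ℝ) ^ 3 := by ring
    exact_mod_cast h1
  · have hs : 0 < Real.sqrt (x : ℝ) := Real.sqrt_pos.2 hx0
    have h1 : ka A m ≤ Real.sqrt (x : ℝ) := Real.sqrt_le_sqrt hle
    have h2 : xs x = (x : ℝ) * Real.sqrt x := rfl
    rw [h2, div_le_iff₀ (by positivity)]
    nlinarith

theorem LG1 : ∃ C X1 : ℝ, 0 < C ∧ 1 ≤ X1 ∧
    ∀ (A : ℤ) (K : Type) [Field K] [NumberField K] (h : QF A K) (B : ℝ), X1 ≤ B →
    ∀ S : Finset (ℤ × ℤ × ℤ),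
    (∀ q ∈ S, B ^ 8 ≤ (q.1 : ℝ) ∧ 0 < q.2.2 ∧ q.2.1 ^ 2 - A * q.2.2 ^ 2 = q.1 ^ 3 ∧
      (∀ p : ℕ, p.Prime → ¬ ((p : ℤ) ^ 6 ∣ A * q.2.2 ^ 2)) ∧
      ((|A * q.2.2 ^ 2| : ℤ) : ℝ) ≤ B) →
    (∀ q ∈ S, ∀ q' ∈ S, Eqv (al h q.2.1 q.2.2) (al h q'.2.1 q'.2.2)) →
    (S.card : ℝ) ≤ C := by
  classical
  obtain ⟨ε, he⟩ : ∃ ε : ℝ, ε = 7 / 8 := ⟨_, rfl⟩
  have hε : 0 < ε := by rw [he]; norm_num
  obtain ⟨C, X0, hC, hX0, h10⟩ := LG1_col ε he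
  refine ⟨3 * C, max X0 1600, by linarith, le_max_of_le_left hX0, ?_⟩
  intro A K _ _ h B hB S hS' hcls
  have hB1600 : 1600 ≤ B := (le_max_right _ _).trans hB
  have hB1 : 1 ≤ B := by linarith
  have hB0 : 0 < B := by linarith
  have hS : ∀ q ∈ S, (1600 : ℝ) ≤ (q.1 : ℝ) ∧ 0 < q.2.2 ∧ q.2.1 ^ 2 - A * q.2.2 ^ 2 = q.1 ^ 3 ∧
      (∀ p : ℕ, p.Prime → ¬ ((p : ℤ) ^ 6 ∣ A * q.2.2 ^ 2)) ∧
      ((|A * q.2.2 ^ 2| : ℤ) : ℝ) ≤ (q.1 : ℝ) ^ (1 - ε) ∧ ((|A * q.2.2 ^ 2| : ℤ) : ℝ) ≤ B := by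
    intro q hq
    obtain ⟨a1, a2, a3, a4, a5⟩ := hS' q hq
    have hBx : B ≤ (q.1 : ℝ) ^ (1 - ε) := by
      have e1 : B = (B ^ 8) ^ (1 - ε) := by
        rw [← Real.rpow_natCast, ← Real.rpow_mul hB0.le, he]
        norm_num
      rw [e1]
      exact Real.rpow_le_rpow (by positivity) a1 (by rw [he]; norm_num)
    exact ⟨by
      have : B ≤ B ^ 8 := le_self_pow₀ hB1 (by norm_num)
      linarith, a2, a3, a4, a5.trans hBx, a5⟩
  rcases S.eq_empty_or_nonempty with hSe | ⟨q0, hq0⟩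
  · rw [hSe]
    simp only [Finset.card_empty, Nat.cast_zero]
    positivity
  have hex : ∀ q ∈ S, ∃ g : K, g ≠ 0 ∧ al h q.2.1 q.2.2 = al h q0.2.1 q0.2.2 * g ^ 3 :=
    fun q hq => hcls q0 hq0 q hq
  choose! g hg0 hg using hex
  have hx : ∀ q ∈ S, (1600 : ℝ) ≤ (q.1 : ℝ) := fun q hq => (hS q hq).1
  have hxp : ∀ q ∈ S, 0 < q.1 := fun q hq => by
    exact_mod_cast (by linarith [hx q hq] : (0 : ℝ) < (q.1 : ℝ))
  have hroot : ∀ q ∈ S, ∃ ζ : ℂ, ζ ^ 3 = 1 ∧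
      ‖h.emb (g q) / h.emb (h.conj (g q)) - ζ‖ ≤ 1 / 100 := by
    intro q hq
    obtain ⟨k0, d0⟩ := LG1_sz ε hε A q0.1 q0.2.2 (hx q0 hq0) (hS q0 hq0).2.2.2.2.1
    obtain ⟨k1, d1⟩ := LG1_sz ε hε A q.1 q.2.2 (hx q hq) (hS q hq).2.2.2.2.1
    have h3 := (G3 h q0.1 q0.2.1 q0.2.2 q.1 q.2.1 q.2.2 (hxp q0 hq0) (hxp q hq)
      (hS q0 hq0).2.2.1 (hS q hq).2.2.1 k0 k1 (g q) (hg0 q hq) (hg q hq)).1
    have h4 : ‖(h.emb (g q) / h.emb (h.conj (g q))) ^ 3 - 1‖ ≤ 1 / 100 := by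
      refine h3.trans ?_
      linarith
    obtain ⟨ζ, hζ, hζ'⟩ := G2_root _ (h4.trans (by norm_num))
    exact ⟨ζ, hζ, hζ'.trans h4⟩
  choose! ζ hζ1 hζ2 using hroot
  have himg : (S.image ζ).card ≤ 3 := by
    have hsub : S.image ζ ⊆ (Polynomial.nthRoots 3 (1 : ℂ)).toFinset := by
      intro z hz
      obtain ⟨q, hq, rfl⟩ := Finset.mem_image.1 hz
      rw [Multiset.mem_toFinset, Polynomial.mem_nthRoots (by norm_num)]
      exact hζ1 q hq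
    calc (S.image ζ).card ≤ (Polynomial.nthRoots 3 (1 : ℂ)).toFinset.card :=
          Finset.card_le_card hsub
      _ ≤ Multiset.card (Polynomial.nthRoots 3 (1 : ℂ)) := Multiset.toFinset_card_le _
      _ ≤ 3 := Polynomial.card_nthRoots 3 1
  have hpart : ∀ z ∈ S.image ζ, ((S.filter fun q => ζ q = z).card : ℝ) ≤
      C := by
    intro z _
    refine h10 A K h B ((le_max_left _ _).trans hB) _ ?_ ?_
    · intro q hq
      exact hS' q (Finset.mem_filter.1 hq).1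
    · intro q hq q' hq'
      obtain ⟨hqS, hqz⟩ := Finset.mem_filter.1 hq
      obtain ⟨hqS', hqz'⟩ := Finset.mem_filter.1 hq'
      have n0 := hg0 q hqS
      have n0' := hg0 q' hqS'
      refine ⟨g q' / g q, div_ne_zero n0' n0, ?_, ?_⟩
      · rw [hg q' hqS', hg q hqS]
        field_simp
      · set τ : ℂ := h.emb (g q) / h.emb (h.conj (g q)) with hτ
        set τ' : ℂ := h.emb (g q') / h.emb (h.conj (g q')) with hτ'
        have b1 : ‖τ - z‖ ≤ 1 / 100 := by rw [← hqz]; exact hζ2 q hqS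
        have b2 : ‖τ' - z‖ ≤ 1 / 100 := by rw [← hqz']; exact hζ2 q' hqS'
        have hz3 : z ^ 3 = 1 := by rw [← hqz]; exact hζ1 q hqS
        have hzn : ‖z‖ = 1 := Complex.norm_eq_one_of_pow_eq_one hz3 (by norm_num)
        have hτn : 99 / 100 ≤ ‖τ‖ := by
          have h1 : ‖z‖ ≤ ‖τ‖ + ‖τ - z‖ := by
            calc ‖z‖ = ‖τ - (τ - z)‖ := by congr 1; ring
              _ ≤ ‖τ‖ + ‖τ - z‖ := norm_sub_le _ _
          rw [hzn] at h1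
          linarith
        have hτ0 : τ ≠ 0 := by
          intro h0
          rw [h0, norm_zero] at hτn
          norm_num at hτn
        have hdiff : ‖τ' - τ‖ ≤ 2 / 100 := by
          calc ‖τ' - τ‖ = ‖(τ' - z) - (τ - z)‖ := by congr 1; ring
            _ ≤ ‖τ' - z‖ + ‖τ - z‖ := norm_sub_le _ _
            _ ≤ 2 / 100 := by linarith
        have hquot : h.emb (g q' / g q) / h.emb (h.conj (g q' / g q)) = τ' / τ := by
          rw [hτ, hτ']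
          simp only [map_div₀]
          rw [div_div_div_comm]
        rw [hquot]
        have h2 : τ' / τ - 1 = (τ' - τ) / τ := by
          field_simp
        rw [h2, norm_div, div_le_iff₀ (by linarith)]
        linarith
  have hsum : (S.card : ℝ) = ∑ z ∈ S.image ζ, ((S.filter fun q => ζ q = z).card : ℝ) := by
    rw [Finset.card_eq_sum_card_image ζ S]
    push_cast
    rfl
  rw [hsum]
  calc ∑ z ∈ S.image ζ, ((S.filter fun q => ζ q = z).card : ℝ)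
      ≤ ∑ _z ∈ S.image ζ, C := Finset.sum_le_sum hpart
    _ = ((S.image ζ).card : ℝ) * C := by
        rw [Finset.sum_const, nsmul_eq_mul]
    _ ≤ 3 * C := by
        refine mul_le_mul_of_nonneg_right ?_ (by positivity)
        exact_mod_cast himg

end RC91
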